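import Pool.Agent.N388.EF.Stm

/-! Project EF (helper388): the test polynomial. Author of this file: helper721. -/

set_option autoImplicit false
set_option maxHeartbeats 400000

namespace Pool.Agent.N388.EF

open Finset Polynomial Pool.Agent.TH176.Nag

namespace TEST

/-- rising factorials -/
def asc (x : ℚ) (n : ℕ) : ℚ := ∏ l ∈ range n, (x + l)

/-- binomial coefficients -/
def Ch (x : ℚ) (n : ℕ) : ℚ := (∏ l ∈ range n, (x - l)) / (n.factorial : ℚ)

/-- with signs -/
def cc (x : ℚ) (n : ℕ) : ℚ := (-1) ^ n * Ch x n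

/-- the coefficient of `w ^ l` in `(1 - 2 w) (1 - w) ^ (-n)` -/
def G : ℕ → ℕ → ℚ
  | 0, 0 => 1
  | 0, 1 => -2
  | 0, (_ + 2) => 0
  | _ + 1, 0 => 1
  | n + 1, l + 1 => G n (l + 1) + G (n + 1) l

def ee (N : ℕ) (T : ℚ) (A B : ℕ) : ℚ := asc T A * asc ((N : ℚ) + 1 - T) B / asc ((N : ℚ) + 1) (A + B)

def uu (N : ℕ) (T : ℚ) (k i j : ℕ) : ℚ :=
  if i + j ≤ k then G (k + 1) (k - i - j) * ee N T (k - i) (k - j) else 0

def qq (N : ℕ) (T : ℚ) (k : ℕ) (α β : ℚ) : ℚ :=
  (-1) ^ k * ∑ i ∈ range (k + 1), ∑ j ∈ range (k + 1), cc α i * (cc β j * uu N T k i j)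

theorem asc_zero (x : ℚ) : asc x 0 = 1 := by simp [asc]

theorem asc_succ (x : ℚ) (n : ℕ) : asc x (n + 1) = asc x n * (x + n) := by
  simp [asc, prod_range_succ]

theorem asc_pos {x : ℚ} (hx : 0 < x) (n : ℕ) : 0 < asc x n := by
  unfold asc
  exact prod_pos fun l _ => by positivity

theorem ch_zero (x : ℚ) : Ch x 0 = 1 := by simp [Ch]

theorem ch_pascal (x : ℚ) (n : ℕ) : Ch (x + 1) (n + 1) = Ch x (n + 1) + Ch x n := by
  unfold Ch
  have h1 : ∏ l ∈ range (n + 1), (x + 1 - (l : ℚ)) = (∏ l ∈ range n, (x - (l : ℚ))) * (x + 1) := by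
    rw [prod_range_succ']
    congr 1
    · refine prod_congr rfl fun l _ => ?_
      push_cast
      ring
    · push_cast
      ring
  rw [h1, prod_range_succ, Nat.factorial_succ]
  have h2 : (n.factorial : ℚ) ≠ 0 := by positivity
  have h3 : ((n : ℚ) + 1) ≠ 0 := by positivity
  push_cast
  field_simp
  ring

theorem cc_zero (x : ℚ) : cc x 0 = 1 := by simp [cc, ch_zero]

theorem cc_pascal (x : ℚ) (n : ℕ) : cc (x + 1) (n + 1) = cc x (n + 1) + (-1) * cc x n := by
  unfold cc
  rw [ch_pascal, pow_succ]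
  ring

theorem G_zero (n : ℕ) : G n 0 = 1 := by
  cases n <;> simp [G]

theorem G_succ (n l : ℕ) : G (n + 1) (l + 1) = G n (l + 1) + G (n + 1) l := by
  rw [G]

theorem G_closed (k l : ℕ) : G (k + 1) (l + 1) =
    (((k + l + 1).choose (l + 1) : ℕ) : ℚ) - 2 * (((k + l).choose l : ℕ) : ℚ) := by
  induction k generalizing l with
  | zero =>
    induction l with
    | zero => simp [G]; norm_num
    | succ l ih =>
      rw [G_succ, ih]
      simp [G]
  | succ k ihk =>
    induction l with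
    | zero =>
      rw [G_succ, ihk, G_zero]
      simp
      ring
    | succ l ih =>
      rw [G_succ, ihk, ih]
      have h1 : (k + 1 + (l + 1) + 1).choose (l + 1 + 1) =
          (k + (l + 1) + 1).choose (l + 1) + (k + (l + 1) + 1).choose (l + 1 + 1) := by
        rw [show k + 1 + (l + 1) + 1 = (k + (l + 1) + 1) + 1 by ring]
        exact Nat.choose_succ_succ _ _
      have h2 : (k + 1 + (l + 1)).choose (l + 1) =
          (k + (l + 1)).choose l + (k + (l + 1)).choose (l + 1) := by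
        rw [show k + 1 + (l + 1) = (k + (l + 1)) + 1 by ring]
        exact Nat.choose_succ_succ _ _
      rw [h1, h2, show k + 1 + l + 1 = k + (l + 1) + 1 by ring, show k + 1 + l = k + (l + 1) by ring]
      push_cast
      ring

theorem G_diag (k : ℕ) (hk : 1 ≤ k) : G (k + 1) k = 0 := by
  obtain ⟨l, rfl⟩ := Nat.exists_eq_add_of_le' hk
  rw [G_closed]
  have h1 : (l + 1 + l + 1).choose (l + 1) = (2 * l + 1).choose l + (2 * l + 1).choose (l + 1) := by
    rw [show l + 1 + l + 1 = (2 * l + 1) + 1 by ring]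
    exact Nat.choose_succ_succ _ _
  have h2 := Nat.choose_symm_half l
  rw [h1, h2, show l + 1 + l = 2 * l + 1 by ring]
  push_cast
  ring

/-- summation by parts -/
theorem sbp (c c' f : ℕ → ℚ) (s : ℚ) (h0 : c' 0 = c 0) (h : ∀ i, c' (i + 1) = c (i + 1) + s * c i)
    (n : ℕ) : ∑ i ∈ range (n + 1), c' i * f i =
      ∑ i ∈ range (n + 1), c i * (f i + s * f (i + 1)) - s * c n * f (n + 1) := by
  induction n with
  | zero => simp [h0]; ring
  | succ n ih =>
    rw [sum_range_succ, ih, sum_range_succ _ (n + 1), h]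
    ring

theorem ee_rec (N : ℕ) (T : ℚ) (A B : ℕ) : ee N T (A + 1) B + ee N T A (B + 1) = ee N T A B := by
  unfold ee
  have h1 : 0 < asc ((N : ℚ) + 1) (A + B) := asc_pos (by positivity) _
  have h2 : (N : ℚ) + 1 + ((A + B : ℕ) : ℚ) ≠ 0 := by positivity
  rw [show A + 1 + B = (A + B) + 1 by ring, show A + (B + 1) = (A + B) + 1 by ring, asc_succ,
    asc_succ, asc_succ]
  field_simp
  push_cast
  ring

theorem uu_big (N : ℕ) (T : ℚ) (k i j : ℕ) (h : k < i + j) : uu N T k i j = 0 := by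
  unfold uu
  rw [if_neg (by omega)]

theorem uu_rec (N : ℕ) (T : ℚ) (k i j : ℕ) :
    uu N T (k + 1) (i + 1) j + uu N T (k + 1) i (j + 1) - uu N T (k + 1) (i + 1) (j + 1) =
      uu N T k i j := by
  unfold uu
  rcases Nat.lt_trichotomy (i + j) k with h | h | h
  · rw [if_pos (by omega), if_pos (by omega), if_pos (by omega), if_pos (by omega)]
    obtain ⟨r, hr⟩ : ∃ r, k = i + j + (r + 1) := ⟨k - i - j - 1, by omega⟩
    have e1 : k + 1 - (i + 1) - j = r + 1 := by omega
    have e2 : k + 1 - i - (j + 1) = r + 1 := by omega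
    have e3 : k + 1 - (i + 1) - (j + 1) = r := by omega
    have e4 : k - i - j = r + 1 := by omega
    have e5 : k + 1 - (i + 1) = k - i := by omega
    have e6 : k + 1 - j = (k - j) + 1 := by omega
    have e7 : k + 1 - i = (k - i) + 1 := by omega
    have e8 : k + 1 - (j + 1) = k - j := by omega
    rw [e1, e2, e3, e4, e5, e6, e7, e8, ← ee_rec N T (k - i) (k - j), G_succ (k + 1) r]
    ring
  · rw [if_pos (by omega), if_pos (by omega), if_neg (by omega), if_pos (by omega)]
    have e1 : k + 1 - (i + 1) - j = 0 := by omega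
    have e2 : k + 1 - i - (j + 1) = 0 := by omega
    have e4 : k - i - j = 0 := by omega
    have e5 : k + 1 - (i + 1) = k - i := by omega
    have e6 : k + 1 - j = (k - j) + 1 := by omega
    have e7 : k + 1 - i = (k - i) + 1 := by omega
    have e8 : k + 1 - (j + 1) = k - j := by omega
    rw [e1, e2, e4, e5, e6, e7, e8, ← ee_rec N T (k - i) (k - j), G_zero, G_zero]
    ring
  · rw [if_neg (by omega), if_neg (by omega), if_neg (by omega), if_neg (by omega)]
    ring

theorem qq_zero (N : ℕ) (T α β : ℚ) : qq N T 0 α β = 1 := by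
  simp [qq, uu, cc_zero, G_zero, ee, asc_zero]

theorem qq_rec (N : ℕ) (T : ℚ) (k : ℕ) (α β : ℚ) :
    qq N T (k + 1) (α + 1) (β + 1) = qq N T (k + 1) α β + qq N T k α β := by
  unfold qq
  have h1 : ∀ i, ∑ j ∈ range (k + 1 + 1), cc (β + 1) j * uu N T (k + 1) i j =
      ∑ j ∈ range (k + 1 + 1), cc β j * (uu N T (k + 1) i j - uu N T (k + 1) i (j + 1)) := by
    intro i
    rw [sbp (cc β) (cc (β + 1)) (fun j => uu N T (k + 1) i j) (-1) (by rw [cc_zero, cc_zero])
      (cc_pascal β) (k + 1), uu_big _ _ _ _ (k + 1 + 1) (by omega), mul_zero, sub_zero]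
    refine sum_congr rfl fun j _ => ?_
    ring
  have h2 : ∑ i ∈ range (k + 1 + 1), ∑ j ∈ range (k + 1 + 1),
      cc (α + 1) i * (cc (β + 1) j * uu N T (k + 1) i j) =
      ∑ i ∈ range (k + 1 + 1), ∑ j ∈ range (k + 1 + 1),
        cc α i * (cc β j * (uu N T (k + 1) i j - uu N T k i j)) := by
    have h3 : ∀ i, ∑ j ∈ range (k + 1 + 1), cc (α + 1) i * (cc (β + 1) j * uu N T (k + 1) i j) =
        cc (α + 1) i * ∑ j ∈ range (k + 1 + 1),
          cc β j * (uu N T (k + 1) i j - uu N T (k + 1) i (j + 1)) := by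
      intro i
      rw [← h1, mul_sum]
    rw [sum_congr rfl fun i _ => h3 i, sbp (cc α) (cc (α + 1)) _ (-1) (by rw [cc_zero, cc_zero])
      (cc_pascal α) (k + 1)]
    have h4 : ∑ j ∈ range (k + 1 + 1), cc β j * (uu N T (k + 1) (k + 1 + 1) j -
        uu N T (k + 1) (k + 1 + 1) (j + 1)) = 0 := by
      refine sum_eq_zero fun j _ => ?_
      rw [uu_big _ _ _ _ _ (by omega), uu_big _ _ _ _ _ (by omega)]
      ring
    rw [h4, mul_zero, sub_zero]
    refine sum_congr rfl fun i _ => ?_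
    rw [mul_sum, ← sum_add_distrib, mul_sum]
    refine sum_congr rfl fun j _ => ?_
    rw [← uu_rec N T k i j]
    ring
  have h5 : ∑ i ∈ range (k + 1), ∑ j ∈ range (k + 1), cc α i * (cc β j * uu N T k i j) =
      ∑ i ∈ range (k + 1 + 1), ∑ j ∈ range (k + 1 + 1), cc α i * (cc β j * uu N T k i j) := by
    rw [sum_range_succ _ (k + 1)]
    have h6 : ∑ j ∈ range (k + 1 + 1), cc α (k + 1) * (cc β j * uu N T k (k + 1) j) = 0 := by
      refine sum_eq_zero fun j _ => ?_
      rw [uu_big _ _ _ _ _ (by omega)]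
      ring
    rw [h6, add_zero]
    refine sum_congr rfl fun i _ => ?_
    rw [sum_range_succ _ (k + 1), uu_big _ _ _ _ (k + 1) (by omega)]
    ring
  rw [h2, h5, pow_succ]
  have h7 : ∑ i ∈ range (k + 1 + 1), ∑ j ∈ range (k + 1 + 1),
      cc α i * (cc β j * (uu N T (k + 1) i j - uu N T k i j)) =
      (∑ i ∈ range (k + 1 + 1), ∑ j ∈ range (k + 1 + 1), cc α i * (cc β j * uu N T (k + 1) i j)) -
      ∑ i ∈ range (k + 1 + 1), ∑ j ∈ range (k + 1 + 1), cc α i * (cc β j * uu N T k i j) := by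
    rw [← sum_sub_distrib]
    refine sum_congr rfl fun i _ => ?_
    rw [← sum_sub_distrib]
    refine sum_congr rfl fun j _ => ?_
    ring
  rw [h7]
  ring

theorem ch_nat_zero (a n : ℕ) (h : a < n) : Ch (a : ℚ) n = 0 := by
  unfold Ch
  rw [prod_eq_zero (mem_range.mpr h) (by simp)]
  simp

/-- R2 for natural numbers -/
theorem qq_nat (N : ℕ) (T : ℚ) (α k : ℕ) (β : ℚ) : qq N T k (α : ℚ) β =
    ∑ b ∈ range (k + 1), Ch (α : ℚ) (k - b) * qq N T b 0 (β - α) := by
  induction α generalizing k β with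
  | zero =>
    rw [sum_eq_single_of_mem k (by simp)]
    · simp [ch_zero]
    · intro b hb hbk
      rw [mem_range] at hb
      rw [ch_nat_zero 0 (k - b) (by omega)]
      ring
  | succ α ih =>
    cases k with
    | zero => simp [qq_zero, ch_zero]
    | succ k =>
      have h1 := qq_rec N T k (α : ℚ) (β - 1)
      rw [sub_add_cancel, ih, ih] at h1
      push_cast
      rw [h1, sum_range_succ, sum_range_succ _ (k + 1), Nat.sub_self, ch_zero, ch_zero]
      have e1 : β - 1 - (α : ℚ) = β - ((α : ℚ) + 1) := by ring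
      rw [e1]
      have h2 : ∑ b ∈ range (k + 1), Ch ((α : ℚ) + 1) (k + 1 - b) * qq N T b 0 (β - ((α : ℚ) + 1)) =
          ∑ b ∈ range (k + 1), Ch (α : ℚ) (k + 1 - b) * qq N T b 0 (β - ((α : ℚ) + 1)) +
          ∑ b ∈ range (k + 1), Ch (α : ℚ) (k - b) * qq N T b 0 (β - ((α : ℚ) + 1)) := by
        rw [← sum_add_distrib]
        refine sum_congr rfl fun b hb => ?_
        rw [mem_range] at hb
        rw [show k + 1 - b = (k - b) + 1 by omega, ch_pascal]
        ring
      rw [h2]
      ring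

theorem ch_neg_one (n : ℕ) : Ch (-1) n = (-1) ^ n := by
  induction n with
  | zero => simp [ch_zero]
  | succ n ih =>
    have h := ch_pascal (-1) n
    rw [show (-1 : ℚ) + 1 = ((0 : ℕ) : ℚ) by norm_num, ch_nat_zero 0 (n + 1) (by omega), ih] at h
    rw [pow_succ]
    linarith

theorem qq_neg (N : ℕ) (T : ℚ) (k : ℕ) (β : ℚ) : qq N T k (-1) β =
    ∑ b ∈ range (k + 1), Ch (-1) (k - b) * qq N T b 0 (β + 1) := by
  induction k with
  | zero => simp [qq_zero, ch_zero]
  | succ k ih =>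
    have h1 := qq_rec N T k (-1) β
    rw [ih, show (-1 : ℚ) + 1 = 0 by norm_num] at h1
    rw [sum_range_succ, Nat.sub_self, ch_zero]
    have h2 : ∑ b ∈ range (k + 1), Ch (-1) (k + 1 - b) * qq N T b 0 (β + 1) =
        - ∑ b ∈ range (k + 1), Ch (-1) (k - b) * qq N T b 0 (β + 1) := by
      rw [← sum_neg_distrib]
      refine sum_congr rfl fun b hb => ?_
      rw [mem_range] at hb
      rw [show k + 1 - b = (k - b) + 1 by omega, ch_neg_one, ch_neg_one, pow_succ]
      ring
    rw [h2]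
    linarith

/-! ### polynomials -/

/-- the polynomial `ee` in `T` -/
noncomputable def EP (N A B : ℕ) : ℚ[X] :=
  (∏ l ∈ range A, (X + C (l : ℚ))) * (∏ l ∈ range B, (C ((N : ℚ) + 1 + l) - X)) *
    C (1 / asc ((N : ℚ) + 1) (A + B))

theorem EP_eval (N A B : ℕ) (T : ℚ) : (EP N A B).eval T = ee N T A B := by
  unfold EP ee asc
  rw [eval_mul, eval_mul, eval_prod, eval_prod, eval_C]
  simp only [eval_add, eval_sub, eval_X, eval_C]
  rw [show ∏ l ∈ range B, ((N : ℚ) + 1 + (l : ℚ) - T) = ∏ l ∈ range B, ((N : ℚ) + 1 - T + (l : ℚ)) from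
    prod_congr rfl fun l _ => by ring]
  ring

theorem EP_deg (N A B : ℕ) : (EP N A B).natDegree ≤ A + B := by
  unfold EP
  refine (natDegree_mul_le).trans ?_
  rw [natDegree_C, add_zero]
  refine (natDegree_mul_le).trans (add_le_add ?_ ?_)
  · refine (natDegree_prod_le _ _).trans ?_
    refine (sum_le_card_nsmul (range A) _ 1 fun l _ => ?_).trans (by simp)
    rw [natDegree_X_add_C]
  · refine (natDegree_prod_le _ _).trans ?_
    refine (sum_le_card_nsmul (range B) _ 1 fun l _ => ?_).trans (by simp)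
    refine (natDegree_sub_le _ _).trans ?_
    rw [natDegree_C, natDegree_X]
    exact max_le (Nat.zero_le _) le_rfl

/-- the polynomial `qq b (T; 0, -a)` -/
noncomputable def QP (N : ℕ) (a : ℚ) (b : ℕ) : ℚ[X] :=
  ∑ j ∈ range (b + 1), C ((-1) ^ b * (cc (-a) j * G (b + 1) (b - j))) * EP N b (b - j)

theorem QP_eval (N : ℕ) (a : ℚ) (b : ℕ) (T : ℚ) : (QP N a b).eval T = qq N T b 0 (-a) := by
  have h0 : ∑ i ∈ range (b + 1), ∑ j ∈ range (b + 1), cc 0 i * (cc (-a) j * uu N T b i j) =
      ∑ j ∈ range (b + 1), cc 0 0 * (cc (-a) j * uu N T b 0 j) := by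
    refine sum_eq_single_of_mem 0 (by simp) fun i _ hi => ?_
    refine sum_eq_zero fun j _ => ?_
    have h1 : cc 0 i = 0 := by
      unfold cc
      have h2 := ch_nat_zero 0 i (by omega)
      rw [Nat.cast_zero] at h2
      rw [h2, mul_zero]
    rw [h1, zero_mul]
  unfold QP qq
  rw [eval_finsetSum, h0, mul_sum]
  refine sum_congr rfl fun j hj => ?_
  rw [mem_range] at hj
  rw [eval_mul, eval_C, EP_eval, cc_zero]
  unfold uu
  rw [if_pos (by omega)]
  simp only [Nat.sub_zero]
  ring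

theorem QP_deg0 (N : ℕ) (a : ℚ) : (QP N a 0).natDegree ≤ 0 := by
  unfold QP
  refine natDegree_sum_le_of_forall_le _ _ fun j hj => ?_
  rw [mem_range] at hj
  refine (natDegree_C_mul_le _ _).trans ((EP_deg _ _ _).trans ?_)
  omega

theorem QP_deg (N : ℕ) (a : ℚ) (b : ℕ) (hb : 1 ≤ b) : (QP N a b).natDegree ≤ 2 * b - 1 := by
  unfold QP
  refine natDegree_sum_le_of_forall_le _ _ fun j hj => ?_
  rw [mem_range] at hj
  rcases Nat.eq_zero_or_pos j with rfl | hj0
  · rw [Nat.sub_zero, G_diag b hb, mul_zero, mul_zero, C_0, zero_mul, natDegree_zero]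
    omega
  · refine (natDegree_C_mul_le _ _).trans ((EP_deg _ _ _).trans ?_)
    omega

/-! ### the value at `0` -/

theorem Sid (n l M : ℕ) : ∑ i ∈ range (l + 1), ((M + 1).choose i : ℚ) * ((-1) ^ i * G (n + 1) (l - i)) =
    ∑ i ∈ range (l + 1), (M.choose i : ℚ) * ((-1) ^ i * G n (l - i)) := by
  have h := sbp (fun i => (M.choose i : ℚ)) (fun i => ((M + 1).choose i : ℚ))
    (fun i => if i ≤ l then (-1) ^ i * G (n + 1) (l - i) else 0) 1 (by simp)
    (fun i => by
      show (((M + 1).choose (i + 1) : ℕ) : ℚ) = _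
      rw [Nat.choose_succ_succ]
      push_cast
      ring) l
  have e1 : ∑ i ∈ range (l + 1), ((M + 1).choose i : ℚ) * ((-1) ^ i * G (n + 1) (l - i)) =
      ∑ i ∈ range (l + 1), ((M + 1).choose i : ℚ) *
        (if i ≤ l then (-1) ^ i * G (n + 1) (l - i) else 0) := by
    refine sum_congr rfl fun i hi => ?_
    rw [mem_range] at hi
    rw [if_pos (by omega)]
  rw [e1, h, if_neg (by omega : ¬ l + 1 ≤ l), mul_zero, sub_zero]
  refine sum_congr rfl fun i hi => ?_
  rw [mem_range] at hi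
  rw [if_pos (by omega)]
  by_cases hil : i + 1 ≤ l
  · rw [if_pos hil]
    obtain ⟨r, rfl⟩ : ∃ r, l = i + (r + 1) := ⟨l - i - 1, by omega⟩
    rw [show i + (r + 1) - i = r + 1 by omega, show i + (r + 1) - (i + 1) = r by omega, G_succ,
      pow_succ]
    ring
  · rw [if_neg hil]
    have : l = i := by omega
    subst this
    rw [Nat.sub_self, G_zero, G_zero]
    ring

theorem Sid0 (l N : ℕ) : ∑ i ∈ range (l + 1 + 1), ((N + l).choose i : ℚ) * ((-1) ^ i * G 0 (l + 1 - i)) =
    (-1) ^ (l + 1) * wt N (l + 1) := by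
  rw [sum_range_succ, sum_range_succ, sum_eq_zero]
  · rw [Nat.sub_self, show l + 1 - l = 1 by omega]
    unfold wt
    rw [if_neg (by omega), show N + (l + 1) - 1 = N + l by omega, show l + 1 - 1 = l by omega,
      show N + (l + 1) = (N + l) + 1 by ring, Nat.choose_succ_succ]
    have e1 : G 0 1 = -2 := by simp [G]
    have e0 : G 0 0 = 1 := by simp [G]
    rw [e1, e0, pow_succ]
    push_cast
    ring
  · intro i hi
    rw [mem_range] at hi
    obtain ⟨r, hr⟩ : ∃ r, l + 1 - i = r + 2 := ⟨l + 1 - i - 2, by omega⟩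
    rw [hr]
    have : G 0 (r + 2) = 0 := by simp [G]
    rw [this]
    ring

theorem Sid1 (n l M : ℕ) : ∑ i ∈ range (l + 1), ((M + n).choose i : ℚ) * ((-1) ^ i * G n (l - i)) =
    ∑ i ∈ range (l + 1), (M.choose i : ℚ) * ((-1) ^ i * G 0 (l - i)) := by
  induction n with
  | zero => rfl
  | succ n ih =>
    rw [← ih, show M + (n + 1) = (M + n) + 1 by ring]
    exact Sid n l (M + n)

/-- the inner sum -/
theorem inner (k l N : ℕ) : ∑ i ∈ range (l + 1),
    ((N + k + l).choose i : ℚ) * ((-1) ^ i * G (k + 1) (l - i)) = (-1) ^ l * wt N l := by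
  cases l with
  | zero => simp [G_zero, wt]
  | succ l =>
    rw [← Sid0, ← Sid1 (k + 1) (l + 1) (N + l), show N + k + (l + 1) = N + l + (k + 1) by ring]

theorem asc_nat (x n : ℕ) : asc ((x : ℚ) + 1) n * (x.factorial : ℚ) = ((x + n).factorial : ℚ) := by
  induction n with
  | zero => simp [asc_zero]
  | succ n ih =>
    rw [asc_succ, show x + (n + 1) = (x + n) + 1 by ring, Nat.factorial_succ]
    push_cast
    rw [← ih]
    ring

theorem asc_neg (k n : ℕ) (h : n ≤ k) : asc (-(k : ℚ)) n * ((k - n).factorial : ℚ) =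
    (-1) ^ n * (k.factorial : ℚ) := by
  induction n with
  | zero => simp [asc_zero]
  | succ n ih =>
    have h1 := ih (by omega)
    obtain ⟨r, hr⟩ : ∃ r, k = n + (r + 1) := ⟨k - n - 1, by omega⟩
    rw [show k - n = r + 1 by omega, Nat.factorial_succ] at h1
    rw [show k - (n + 1) = r by omega, asc_succ, pow_succ, ← mul_comm (-1 : ℚ), mul_assoc (-1 : ℚ),
      ← h1]
    have : (k : ℚ) = n + (r + 1) := by rw [hr]; push_cast; ring
    push_cast
    rw [this]
    ring

theorem ee_val (N k i j : ℕ) (hij : i + j ≤ k) :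
    ee N (-(k : ℚ)) (k - i) (k - j) * (((N + k).choose k : ℕ) : ℚ) =
      (-1) ^ (k - i) * (((N + 2 * k - j).choose i : ℕ) : ℚ) := by
  have h1 := asc_neg k (k - i) (by omega)
  rw [show k - (k - i) = i by omega] at h1
  have h2 := asc_nat (N + k) (k - j)
  rw [show N + k + (k - j) = N + 2 * k - j by omega] at h2
  have h3 := asc_nat N (k - i + (k - j))
  have hA : asc (-(k : ℚ)) (k - i) = (-1) ^ (k - i) * (k.factorial : ℚ) / (i.factorial : ℚ) := by
    rw [eq_div_iff (by positivity)]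
    exact h1
  have hB : asc ((N : ℚ) + 1 - (-(k : ℚ))) (k - j) =
      ((N + 2 * k - j).factorial : ℚ) / ((N + k).factorial : ℚ) := by
    rw [eq_div_iff (by positivity), ← h2]
    congr 2
    push_cast
    ring
  have hC : asc ((N : ℚ) + 1) (k - i + (k - j)) =
      ((N + (k - i + (k - j))).factorial : ℚ) / (N.factorial : ℚ) := by
    rw [eq_div_iff (by positivity)]
    exact h3
  have hD : (((N + k).choose k : ℕ) : ℚ) =
      ((N + k).factorial : ℚ) / ((k.factorial : ℚ) * (N.factorial : ℚ)) := by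
    rw [Nat.cast_choose ℚ (by omega : k ≤ N + k), Nat.add_sub_cancel]
  have hE : (((N + 2 * k - j).choose i : ℕ) : ℚ) = ((N + 2 * k - j).factorial : ℚ) /
      ((i.factorial : ℚ) * ((N + (k - i + (k - j))).factorial : ℚ)) := by
    rw [Nat.cast_choose ℚ (by omega : i ≤ N + 2 * k - j),
      show N + 2 * k - j - i = N + (k - i + (k - j)) by omega]
  unfold ee
  rw [hA, hB, hC, hD, hE]
  have p1 : (k.factorial : ℚ) ≠ 0 := by positivity
  have p2 : (i.factorial : ℚ) ≠ 0 := by positivity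
  have p3 : ((N + k).factorial : ℚ) ≠ 0 := by positivity
  have p4 : (N.factorial : ℚ) ≠ 0 := by positivity
  have p5 : ((N + (k - i + (k - j))).factorial : ℚ) ≠ 0 := by positivity
  field_simp

theorem cc_neg_one (i : ℕ) : cc (-1) i = 1 := by
  unfold cc
  rw [ch_neg_one, ← mul_pow]
  norm_num

theorem cc_neg (y j : ℕ) : cc (-((y : ℚ) + 1)) j = (((y + j).choose j : ℕ) : ℚ) := by
  induction j with
  | zero => simp [cc_zero]
  | succ j ih =>
    have h1 : cc (-((y : ℚ) + 1)) (j + 1) * ((j : ℚ) + 1) = cc (-((y : ℚ) + 1)) j * ((y : ℚ) + 1 + j) := by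
      unfold cc Ch
      rw [prod_range_succ, Nat.factorial_succ, pow_succ]
      have p1 : (j.factorial : ℚ) ≠ 0 := by positivity
      have p2 : ((j : ℚ) + 1) ≠ 0 := by positivity
      push_cast
      field_simp
      ring
    rw [ih] at h1
    have h2 : (y + j + 1) * (y + j).choose j = (y + j + 1).choose (j + 1) * (j + 1) :=
      Nat.add_one_mul_choose_eq (y + j) j
    have h3 : ((y : ℚ) + j + 1) * ((y + j).choose j : ℚ) = ((y + j + 1).choose (j + 1) : ℚ) * ((j : ℚ) + 1) := by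
      exact_mod_cast h2
    have p2 : ((j : ℚ) + 1) ≠ 0 := by positivity
    rw [show y + (j + 1) = y + j + 1 by ring]
    apply mul_right_cancel₀ p2
    rw [h1, ← h3]
    ring

theorem value (N k y : ℕ) : qq N (-(k : ℚ)) k (-1) (-((y : ℚ) + 1)) * (((N + k).choose k : ℕ) : ℚ) =
    (-1) ^ k * ∑ j ∈ range (k + 1), (-1 : ℚ) ^ j * (((y + 1 + j - 1).choose j : ℕ) : ℚ) *
      wt N (k - j) := by
  unfold qq
  have h1 : ∀ j ∈ range (k + 1), (∑ i ∈ range (k + 1), (cc (-1) i * (cc (-((y : ℚ) + 1)) j *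
      uu N (-(k : ℚ)) k i j))) * (((N + k).choose k : ℕ) : ℚ) =
      (-1 : ℚ) ^ j * (((y + 1 + j - 1).choose j : ℕ) : ℚ) * wt N (k - j) := by
    intro j hj
    rw [mem_range] at hj
    have h2 := inner k (k - j) N
    rw [show N + k + (k - j) = N + 2 * k - j by omega] at h2
    have h3 : (-1 : ℚ) ^ j * wt N (k - j) = (-1) ^ k * ∑ i ∈ range (k - j + 1),
        ((N + 2 * k - j).choose i : ℚ) * ((-1) ^ i * G (k + 1) (k - j - i)) := by
      rw [h2]
      have h4 : (-1 : ℚ) ^ k * (-1) ^ (k - j) = (-1) ^ j := by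
        rw [← pow_add, show k + (k - j) = 2 * (k - j) + j by omega, pow_add, pow_mul]
        norm_num
      rw [← mul_assoc, h4]
    rw [show y + 1 + j - 1 = y + j by omega, mul_comm ((-1 : ℚ) ^ j), mul_assoc, h3, sum_mul]
    rw [← sum_subset (range_subset_range.mpr (by omega : k - j + 1 ≤ k + 1))]
    · rw [mul_sum, mul_sum]
      refine sum_congr rfl fun i hi => ?_
      rw [mem_range] at hi
      unfold uu
      rw [if_pos (by omega), cc_neg_one, cc_neg, one_mul, mul_assoc, mul_assoc,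
        ee_val N k i j (by omega), show k - i - j = k - j - i by omega]
      have h5 : (-1 : ℚ) ^ (k - i) = (-1) ^ k * (-1) ^ i := by
        rw [← pow_add, show k + i = 2 * i + (k - i) by omega, pow_add, pow_mul]
        norm_num
      rw [h5]
      ring
    · intro i hi hi2
      rw [mem_range] at hi hi2
      rw [uu_big _ _ _ _ _ (by omega)]
      ring
  rw [sum_comm, mul_assoc, sum_mul]
  congr 1
  exact sum_congr rfl h1

theorem Pn_eval (n : ℕ) (J : ℚ) : (Pn n).eval J = (n.factorial : ℚ) * Ch (J - 1) n := by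
  unfold Pn Ch
  rw [eval_prod, mul_div_cancel₀ _ (by positivity : (n.factorial : ℚ) ≠ 0)]
  refine prod_congr rfl fun l _ => ?_
  rw [eval_sub, eval_X, eval_C]
  ring

end TEST

open TEST in
theorem t_TEST : S_POS → S_TEST := by
  intro hpos k m Y hk hm hY hYm
  obtain ⟨N, rfl⟩ : ∃ N, m = N + 2 * k := ⟨m - 2 * k, by omega⟩
  obtain ⟨y, rfl⟩ := Nat.exists_eq_add_of_le' hY
  -- the polynomials
  let g : ℕ → ℚ[X] := fun b => C (1 / ((k - b).factorial : ℚ)) * (QP N y b).comp (X - C (k : ℚ))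
  have gev : ∀ b (t : ℚ), (g b).eval t = 1 / ((k - b).factorial : ℚ) * qq N (t - k) b 0 (-(y : ℚ)) := by
    intro b t
    show (C (1 / ((k - b).factorial : ℚ)) * (QP N y b).comp (X - C (k : ℚ))).eval t = _
    rw [eval_mul, eval_C, eval_comp, eval_sub, eval_X, eval_C, QP_eval]
  have gdeg : ∀ b, (g b).natDegree ≤ (QP N y b).natDegree := by
    intro b
    refine (natDegree_C_mul_le _ _).trans ?_
    refine (natDegree_comp_le).trans ?_
    rw [natDegree_X_sub_C, mul_one]
  have gsum : ∀ t J : ℚ, ∑ b ∈ range (k + 1), (g b).eval t * (Pn (k - b)).eval J =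
      ∑ b ∈ range (k + 1), Ch (J - 1) (k - b) * qq N (t - k) b 0 (-(y : ℚ)) := by
    intro t J
    refine sum_congr rfl fun b _ => ?_
    rw [gev, Pn_eval]
    have p : ((k - b).factorial : ℚ) ≠ 0 := by positivity
    field_simp
  refine ⟨g, ?_, ?_, ?_, ?_, ?_⟩
  · refine (degree_le_natDegree).trans_lt ?_
    have := (gdeg 0).trans (QP_deg0 N y)
    exact_mod_cast (by omega : (g 0).natDegree < 1)
  · intro b hb _
    refine (degree_le_natDegree).trans_lt ?_
    have := (gdeg b).trans (QP_deg N y b hb)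
    exact_mod_cast (by omega : (g b).natDegree < 2 * b)
  · intro t J hJ hJt htk
    obtain ⟨α, rfl⟩ := Nat.exists_eq_add_of_le' hJ
    rw [gsum]
    have h1 := qq_nat N ((t : ℚ) - k) α k ((α : ℚ) - y)
    have e1 : ((α + 1 : ℕ) : ℚ) - 1 = (α : ℚ) := by push_cast; ring
    rw [e1, show (-(y : ℚ)) = (α : ℚ) - y - α by ring, ← h1]
    unfold qq
    rw [sum_eq_zero, mul_zero]
    intro i hi
    rw [mem_range] at hi
    refine sum_eq_zero fun j _ => ?_
    by_cases hit : i < t
    · unfold uu ee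
      have h2 : asc ((t : ℚ) - k) (k - i) = 0 := by
        unfold asc
        refine prod_eq_zero (mem_range.mpr (by omega : k - t < k - i)) ?_
        rw [Nat.cast_sub htk]
        ring
      rw [h2]
      simp
    · have h2 : cc (α : ℚ) i = 0 := by
        unfold cc
        rw [ch_nat_zero α i (by omega), mul_zero]
      rw [h2, zero_mul]
  · intro s i0 hs hi0
    rw [gsum]
    have h1 := qq_nat N (((N + 2 * k : ℕ) : ℚ) - s - k) (y + i0) k ((i0 : ℕ) : ℚ)
    have e1 : ((y + 1 : ℕ) : ℚ) + i0 - 1 = ((y + i0 : ℕ) : ℚ) := by push_cast; ring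
    have e2 : (-(y : ℚ)) = ((i0 : ℕ) : ℚ) - ((y + i0 : ℕ) : ℚ) := by push_cast; ring
    rw [e1, e2, ← h1]
    unfold qq
    rw [sum_eq_zero, mul_zero]
    intro i hi
    rw [mem_range] at hi
    refine sum_eq_zero fun j hj => ?_
    rw [mem_range] at hj
    by_cases hjs : j ≤ s
    · unfold uu ee
      have h2 : asc ((N : ℚ) + 1 - (((N + 2 * k : ℕ) : ℚ) - s - k)) (k - j) = 0 := by
        unfold asc
        refine prod_eq_zero (mem_range.mpr (by omega : k - s - 1 < k - j)) ?_
        rw [Nat.cast_sub (by omega), Nat.cast_sub (by omega)]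
        push_cast
        ring
      rw [h2]
      simp
    · have h2 : cc ((i0 : ℕ) : ℚ) j = 0 := by
        unfold cc
        rw [ch_nat_zero i0 j (by omega), mul_zero]
      rw [h2, zero_mul, mul_zero]
  · rw [gsum]
    have h1 := qq_neg N ((0 : ℚ) - k) k (-((y : ℚ) + 1))
    rw [show (0 : ℚ) - 1 = -1 by norm_num, show (-(y : ℚ)) = -((y : ℚ) + 1) + 1 by ring, ← h1]
    have h2 := value N k y
    rw [show -(k : ℚ) = 0 - k by ring] at h2
    have h3 := hpos k N (y + 1) (by omega) (by omega)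
    intro h4
    rw [h4, zero_mul] at h2
    have h5 : (-1 : ℚ) ^ k ≠ 0 := pow_ne_zero _ (by norm_num)
    exact (mul_ne_zero h5 h3.ne') h2.symm

end Pool.Agent.N388.EF
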