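import Pool.Agent.N388.EF.Stm2
import Pool.Agent.N388.EF.TEST

/-! Project EF2 (helper388): the modified test polynomial. Author of this file: helper955. -/

set_option autoImplicit false

namespace Pool.Agent.N388.EF

open Finset Polynomial Pool.Agent.TH176.Nag

namespace TEST2

open TEST

/-! ### power series -/

open PowerSeries in
/-- `1 - w` -/
noncomputable def us : PowerSeries ℚ := 1 - PowerSeries.X

/-- `1 - 2 w` -/
noncomputable def vs : PowerSeries ℚ := 1 - 2 * PowerSeries.X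

/-- the inverses -/
noncomputable def ui : PowerSeries ℚ := us⁻¹
noncomputable def vi : PowerSeries ℚ := vs⁻¹

theorem us_ui : us * ui = 1 := PowerSeries.mul_inv_cancel _ (by simp [us])

theorem vs_vi : vs * vi = 1 := PowerSeries.mul_inv_cancel _ (by simp [vs])

theorem coeff_us_mul (f : PowerSeries ℚ) (n : ℕ) : PowerSeries.coeff (n + 1) (us * f) =
    PowerSeries.coeff (n + 1) f - PowerSeries.coeff n f := by
  unfold us
  rw [sub_mul, one_mul, map_sub, PowerSeries.coeff_succ_X_mul]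

theorem coeff_us_mul0 (f : PowerSeries ℚ) : PowerSeries.coeff 0 (us * f) =
    PowerSeries.coeff 0 f := by
  unfold us
  rw [sub_mul, one_mul, map_sub, PowerSeries.coeff_zero_X_mul, sub_zero]

theorem coeff_vs_mul (f : PowerSeries ℚ) (n : ℕ) : PowerSeries.coeff (n + 1) (vs * f) =
    PowerSeries.coeff (n + 1) f - 2 * PowerSeries.coeff n f := by
  unfold vs
  rw [sub_mul, one_mul, map_sub, two_mul, add_mul, map_add, PowerSeries.coeff_succ_X_mul]
  ring

theorem coeff_vs_mul0 (f : PowerSeries ℚ) : PowerSeries.coeff 0 (vs * f) =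
    PowerSeries.coeff 0 f := by
  unfold vs
  rw [sub_mul, one_mul, map_sub, two_mul, add_mul, map_add, PowerSeries.coeff_zero_X_mul]
  ring

/-- the coefficients of `(1 - w) ^ M` -/
theorem coeff_us_pow (M p : ℕ) : PowerSeries.coeff p (us ^ M) = (-1) ^ p * ((M.choose p : ℕ) : ℚ) := by
  induction M generalizing p with
  | zero =>
    cases p with
    | zero => simp
    | succ p => simp [PowerSeries.coeff_one]
  | succ M ih =>
    rw [pow_succ']
    cases p with
    | zero => rw [coeff_us_mul0, ih]; simp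
    | succ p =>
      rw [coeff_us_mul, ih, ih, Nat.choose_succ_succ, pow_succ]
      push_cast
      ring

/-- the series of the `G n l` -/
noncomputable def Gs (n : ℕ) : PowerSeries ℚ := PowerSeries.mk (G n)

theorem us_Gs (n : ℕ) : us * Gs (n + 1) = Gs n := by
  ext l
  cases l with
  | zero =>
    rw [coeff_us_mul0]
    unfold Gs
    rw [PowerSeries.coeff_mk, PowerSeries.coeff_mk, G_zero, G_zero]
  | succ l =>
    rw [coeff_us_mul]
    unfold Gs
    rw [PowerSeries.coeff_mk, PowerSeries.coeff_mk, PowerSeries.coeff_mk, G_succ]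
    ring

theorem Gs_zero : Gs 0 = vs := by
  ext l
  unfold Gs
  rw [PowerSeries.coeff_mk, ← mul_one vs]
  rcases l with _ | _ | l
  · rw [coeff_vs_mul0]; simp [G]
  · rw [coeff_vs_mul]; simp [G, PowerSeries.coeff_one]
  · rw [coeff_vs_mul]; simp [G, PowerSeries.coeff_one]

theorem Gs_eq (n : ℕ) : Gs n = vs * ui ^ n := by
  induction n with
  | zero => rw [Gs_zero, pow_zero, mul_one]
  | succ n ih =>
    have h1 : Gs (n + 1) = ui * (us * Gs (n + 1)) := by
      rw [← mul_assoc, mul_comm ui, us_ui, one_mul]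
    rw [h1, us_Gs, ih, pow_succ]
    ring

theorem coeff_mul_range (n : ℕ) (f g : PowerSeries ℚ) : PowerSeries.coeff n (f * g) =
    ∑ p ∈ range (n + 1), PowerSeries.coeff p f * PowerSeries.coeff (n - p) g := by
  rw [PowerSeries.coeff_mul, Finset.Nat.sum_antidiagonal_eq_sum_range_succ
    (fun i j => PowerSeries.coeff i f * PowerSeries.coeff j g)]

/-- `x = w / (1 - w)` -/
noncomputable def xs : PowerSeries ℚ := PowerSeries.X * ui

theorem one_sub_xs : 1 - xs = vs * ui := by
  have h : us - PowerSeries.X = vs := by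
    unfold us vs
    ring
  rw [← h, sub_mul, us_ui]
  rfl

theorem cc_zero_nat (j : ℕ) (hj : j ≠ 0) : cc 0 j = 0 := by
  unfold cc
  have h2 := ch_nat_zero 0 j (by omega)
  rw [Nat.cast_zero] at h2
  rw [h2, mul_zero]

theorem coeff_xs_pow (n : ℕ) (f : PowerSeries ℚ) : PowerSeries.coeff n (xs ^ (n + 1) * f) = 0 := by
  have h : xs ^ (n + 1) * f = PowerSeries.X ^ (n + 1) * (ui ^ (n + 1) * f) := by
    unfold xs
    rw [mul_pow]
    ring
  rw [h, PowerSeries.coeff_X_pow_mul', if_neg (by omega)]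

/-- substitution of `x` in `(1 - x) ^ (-s)` -/
theorem subs (s n : ℕ) (f : PowerSeries ℚ) :
    ∑ j ∈ range (n + 1), cc (-(s : ℚ)) j * PowerSeries.coeff n (xs ^ j * f) =
      PowerSeries.coeff n ((us * vi) ^ s * f) := by
  induction s generalizing f with
  | zero =>
    rw [sum_eq_single_of_mem 0 (by simp)]
    · simp [cc_zero]
    · intro j _ hj
      rw [Nat.cast_zero, neg_zero, cc_zero_nat j hj, zero_mul]
  | succ s ih =>
    obtain ⟨f', hf'⟩ : ∃ f', f' = (us * vi) * f := ⟨_, rfl⟩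
    have hf : f = (1 - xs) * f' := by
      rw [one_sub_xs, hf']
      have : vs * ui * (us * vi * f) = (vs * vi) * (us * ui) * f := by ring
      rw [this, vs_vi, us_ui, one_mul, one_mul]
    have h1 := sbp (cc (-((s + 1 : ℕ) : ℚ))) (cc (-(s : ℚ)))
      (fun j => PowerSeries.coeff n (xs ^ j * f')) (-1) (by rw [cc_zero, cc_zero]) (fun i => by
        have h2 := cc_pascal (-((s + 1 : ℕ) : ℚ)) i
        rw [show -((s + 1 : ℕ) : ℚ) + 1 = -(s : ℚ) by push_cast; ring] at h2
        exact h2) n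
    rw [ih f', coeff_xs_pow, mul_zero, sub_zero] at h1
    rw [pow_succ, mul_assoc, ← hf', h1]
    refine sum_congr rfl fun j _ => ?_
    rw [hf]
    congr 1
    have : xs ^ j * ((1 - xs) * f') = xs ^ j * f' - xs ^ (j + 1) * f' := by
      rw [pow_succ]
      ring
    rw [this, map_sub]
    ring

theorem SUM (s n M : ℕ) (hn : n ≤ M) (g : PowerSeries ℚ) :
    ∑ j ∈ range (n + 1), cc (-(s : ℚ)) j * PowerSeries.coeff (n - j) (us ^ (M - j) * g) =
      PowerSeries.coeff n ((us * vi) ^ s * (us ^ M * g)) := by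
  rw [← subs]
  refine sum_congr rfl fun j hj => ?_
  rw [mem_range] at hj
  congr 1
  have h1 : xs ^ j * (us ^ M * g) = PowerSeries.X ^ j * (us ^ (M - j) * g) := by
    obtain ⟨r, rfl⟩ : ∃ r, M = j + r := ⟨M - j, by omega⟩
    rw [show j + r - j = r by omega, pow_add]
    unfold xs
    rw [mul_pow]
    have : PowerSeries.X ^ j * ui ^ j * (us ^ j * us ^ r * g) =
        PowerSeries.X ^ j * ((us ^ j * ui ^ j) * (us ^ r * g)) := by ring
    rw [this, ← mul_pow, us_ui, one_pow, one_mul]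
  rw [h1, PowerSeries.coeff_X_pow_mul', if_pos (by omega)]

/-! ### the recursion -/

def UL (N : ℕ) (T : ℚ) (l k i j : ℕ) : ℚ :=
  if l + 1 + i + j ≤ k then G (k + 1) (k - l - 1 - i - j) * ee N T (k - 1 - i) (k - j) else 0

def QQ (u : ℕ → ℕ → ℕ → ℚ) (k : ℕ) (α β : ℚ) : ℚ :=
  (-1) ^ k * ∑ i ∈ range (k + 1), ∑ j ∈ range (k + 1), cc α i * (cc β j * u k i j)

theorem UL_big (N : ℕ) (T : ℚ) (l k i j : ℕ) (h : k < i + j) : UL N T l k i j = 0 := by
  unfold UL
  rw [if_neg (by omega)]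

theorem UL_rec (N : ℕ) (T : ℚ) (l k i j : ℕ) :
    UL N T l (k + 1) (i + 1) j + UL N T l (k + 1) i (j + 1) - UL N T l (k + 1) (i + 1) (j + 1) =
      UL N T l k i j := by
  unfold UL
  rcases Nat.lt_trichotomy (l + 1 + i + j) k with h | h | h
  · rw [if_pos (by omega), if_pos (by omega), if_pos (by omega), if_pos (by omega)]
    obtain ⟨r, hr⟩ : ∃ r, k = l + 1 + i + j + (r + 1) := ⟨k - (l + 1 + i + j) - 1, by omega⟩
    have e1 : k + 1 - l - 1 - (i + 1) - j = r + 1 := by omega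
    have e2 : k + 1 - l - 1 - i - (j + 1) = r + 1 := by omega
    have e3 : k + 1 - l - 1 - (i + 1) - (j + 1) = r := by omega
    have e4 : k - l - 1 - i - j = r + 1 := by omega
    have e5 : k + 1 - 1 - (i + 1) = k - 1 - i := by omega
    have e6 : k + 1 - j = (k - j) + 1 := by omega
    have e7 : k + 1 - 1 - i = (k - 1 - i) + 1 := by omega
    have e8 : k + 1 - (j + 1) = k - j := by omega
    rw [e1, e2, e3, e4, e5, e6, e7, e8, ← ee_rec N T (k - 1 - i) (k - j), G_succ (k + 1) r]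
    ring
  · rw [if_pos (by omega), if_pos (by omega), if_neg (by omega), if_pos (by omega)]
    have e1 : k + 1 - l - 1 - (i + 1) - j = 0 := by omega
    have e2 : k + 1 - l - 1 - i - (j + 1) = 0 := by omega
    have e4 : k - l - 1 - i - j = 0 := by omega
    have e5 : k + 1 - 1 - (i + 1) = k - 1 - i := by omega
    have e6 : k + 1 - j = (k - j) + 1 := by omega
    have e7 : k + 1 - 1 - i = (k - 1 - i) + 1 := by omega
    have e8 : k + 1 - (j + 1) = k - j := by omega
    rw [e1, e2, e4, e5, e6, e7, e8, ← ee_rec N T (k - 1 - i) (k - j), G_zero, G_zero]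
    ring
  · rw [if_neg (by omega), if_neg (by omega), if_neg (by omega), if_neg (by omega)]
    ring

theorem QQ_rec (u : ℕ → ℕ → ℕ → ℚ) (hbig : ∀ k i j, k < i + j → u k i j = 0)
    (hrec : ∀ k i j, u (k + 1) (i + 1) j + u (k + 1) i (j + 1) - u (k + 1) (i + 1) (j + 1) = u k i j)
    (k : ℕ) (α β : ℚ) :
    QQ u (k + 1) (α + 1) (β + 1) = QQ u (k + 1) α β + QQ u k α β := by
  unfold QQ
  have h1 : ∀ i, ∑ j ∈ range (k + 1 + 1), cc (β + 1) j * u (k + 1) i j =
      ∑ j ∈ range (k + 1 + 1), cc β j * (u (k + 1) i j - u (k + 1) i (j + 1)) := by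
    intro i
    rw [sbp (cc β) (cc (β + 1)) (fun j => u (k + 1) i j) (-1) (by rw [cc_zero, cc_zero])
      (cc_pascal β) (k + 1), hbig _ _ (k + 1 + 1) (by omega), mul_zero, sub_zero]
    refine sum_congr rfl fun j _ => ?_
    ring
  have h2 : ∑ i ∈ range (k + 1 + 1), ∑ j ∈ range (k + 1 + 1),
      cc (α + 1) i * (cc (β + 1) j * u (k + 1) i j) =
      ∑ i ∈ range (k + 1 + 1), ∑ j ∈ range (k + 1 + 1),
        cc α i * (cc β j * (u (k + 1) i j - u k i j)) := by
    have h3 : ∀ i, ∑ j ∈ range (k + 1 + 1), cc (α + 1) i * (cc (β + 1) j * u (k + 1) i j) =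
        cc (α + 1) i * ∑ j ∈ range (k + 1 + 1),
          cc β j * (u (k + 1) i j - u (k + 1) i (j + 1)) := by
      intro i
      rw [← h1, mul_sum]
    rw [sum_congr rfl fun i _ => h3 i, sbp (cc α) (cc (α + 1)) _ (-1) (by rw [cc_zero, cc_zero])
      (cc_pascal α) (k + 1)]
    have h4 : ∑ j ∈ range (k + 1 + 1), cc β j * (u (k + 1) (k + 1 + 1) j -
        u (k + 1) (k + 1 + 1) (j + 1)) = 0 := by
      refine sum_eq_zero fun j _ => ?_
      rw [hbig _ _ _ (by omega), hbig _ _ _ (by omega)]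
      ring
    rw [h4, mul_zero, sub_zero]
    refine sum_congr rfl fun i _ => ?_
    rw [mul_sum, ← sum_add_distrib, mul_sum]
    refine sum_congr rfl fun j _ => ?_
    rw [← hrec k i j]
    ring
  have h5 : ∑ i ∈ range (k + 1), ∑ j ∈ range (k + 1), cc α i * (cc β j * u k i j) =
      ∑ i ∈ range (k + 1 + 1), ∑ j ∈ range (k + 1 + 1), cc α i * (cc β j * u k i j) := by
    rw [sum_range_succ _ (k + 1)]
    have h6 : ∑ j ∈ range (k + 1 + 1), cc α (k + 1) * (cc β j * u k (k + 1) j) = 0 := by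
      refine sum_eq_zero fun j _ => ?_
      rw [hbig _ _ _ (by omega)]
      ring
    rw [h6, add_zero]
    refine sum_congr rfl fun i _ => ?_
    rw [sum_range_succ _ (k + 1), hbig _ _ (k + 1) (by omega)]
    ring
  rw [h2, h5, pow_succ]
  have h7 : ∑ i ∈ range (k + 1 + 1), ∑ j ∈ range (k + 1 + 1),
      cc α i * (cc β j * (u (k + 1) i j - u k i j)) =
      (∑ i ∈ range (k + 1 + 1), ∑ j ∈ range (k + 1 + 1), cc α i * (cc β j * u (k + 1) i j)) -
      ∑ i ∈ range (k + 1 + 1), ∑ j ∈ range (k + 1 + 1), cc α i * (cc β j * u k i j) := by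
    rw [← sum_sub_distrib]
    refine sum_congr rfl fun i _ => ?_
    rw [← sum_sub_distrib]
    refine sum_congr rfl fun j _ => ?_
    ring
  rw [h7]
  ring

/-- the sums `Q_l` -/
def QL (N : ℕ) (T : ℚ) (l k : ℕ) (α β : ℚ) : ℚ := QQ (UL N T l) k α β

theorem QL_rec (N : ℕ) (T : ℚ) (l k : ℕ) (α β : ℚ) :
    QL N T l (k + 1) (α + 1) (β + 1) = QL N T l (k + 1) α β + QL N T l k α β :=
  QQ_rec (UL N T l) (fun _ _ _ h => UL_big _ _ _ _ _ _ h) (fun k i j => UL_rec N T l k i j) k α β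

theorem QL_zero (N : ℕ) (T : ℚ) (l : ℕ) (α β : ℚ) : QL N T l 0 α β = 0 := by
  simp [QL, QQ, UL]

section Lin

variable {F : ℕ → ℚ → ℚ}

theorem lin_nat (h0 : ∀ α, F 0 α = F 0 0) (hr : ∀ k α, F (k + 1) (α + 1) = F (k + 1) α + F k α)
    (n k : ℕ) : F k (n : ℚ) = ∑ b ∈ range (k + 1), Ch (n : ℚ) (k - b) * F b 0 := by
  induction n generalizing k with
  | zero =>
    rw [sum_eq_single_of_mem k (by simp)]
    · simp [ch_zero]
    · intro b hb hbk
      rw [mem_range] at hb
      rw [ch_nat_zero 0 (k - b) (by omega)]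
      ring
  | succ n ih =>
    cases k with
    | zero =>
      rw [h0]
      simp [ch_zero]
    | succ k =>
      have h1 := hr k (n : ℚ)
      rw [ih, ih] at h1
      push_cast
      rw [h1, sum_range_succ, sum_range_succ _ (k + 1), Nat.sub_self, ch_zero, ch_zero]
      have h2 : ∑ b ∈ range (k + 1), Ch ((n : ℚ) + 1) (k + 1 - b) * F b 0 =
          ∑ b ∈ range (k + 1), Ch (n : ℚ) (k + 1 - b) * F b 0 +
          ∑ b ∈ range (k + 1), Ch (n : ℚ) (k - b) * F b 0 := by
        rw [← sum_add_distrib]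
        refine sum_congr rfl fun b hb => ?_
        rw [mem_range] at hb
        rw [show k + 1 - b = (k - b) + 1 by omega, ch_pascal]
        ring
      rw [h2]
      ring

theorem lin_neg (h0 : ∀ α, F 0 α = F 0 0) (hr : ∀ k α, F (k + 1) (α + 1) = F (k + 1) α + F k α)
    (k : ℕ) : F k (-1) = ∑ b ∈ range (k + 1), Ch (-1) (k - b) * F b 0 := by
  induction k with
  | zero =>
    rw [h0]
    simp [ch_zero]
  | succ k ih =>
    have h1 := hr k (-1)
    rw [ih, show (-1 : ℚ) + 1 = 0 by norm_num] at h1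
    rw [sum_range_succ, Nat.sub_self, ch_zero]
    have h2 : ∑ b ∈ range (k + 1), Ch (-1) (k + 1 - b) * F b 0 =
        - ∑ b ∈ range (k + 1), Ch (-1) (k - b) * F b 0 := by
      rw [← sum_neg_distrib]
      refine sum_congr rfl fun b hb => ?_
      rw [mem_range] at hb
      rw [show k + 1 - b = (k - b) + 1 by omega, ch_neg_one, ch_neg_one, pow_succ]
      ring
    rw [h2]
    linarith

end Lin

/-! ### polynomials -/

/-- the polynomial `QL b (T; -1, -a)` -/
noncomputable def QLP (N : ℕ) (a : ℚ) (l b : ℕ) : ℚ[X] :=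
  ∑ i ∈ range (b + 1), ∑ j ∈ range (b + 1), C ((-1) ^ b * (cc (-1) i * cc (-a) j)) *
    (if l + 1 + i + j ≤ b then C (G (b + 1) (b - l - 1 - i - j)) * EP N (b - 1 - i) (b - j) else 0)

theorem QLP_eval (N : ℕ) (a : ℚ) (l b : ℕ) (T : ℚ) :
    (QLP N a l b).eval T = QL N T l b (-1) (-a) := by
  unfold QLP QL QQ
  rw [eval_finsetSum, mul_sum]
  refine sum_congr rfl fun i _ => ?_
  rw [eval_finsetSum, mul_sum]
  refine sum_congr rfl fun j _ => ?_
  unfold UL
  rw [eval_mul, eval_C]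
  by_cases h : l + 1 + i + j ≤ b
  · rw [if_pos h, if_pos h, eval_mul, eval_C, EP_eval]
    ring
  · rw [if_neg h, if_neg h, eval_zero]
    ring

theorem QLP_zero (N : ℕ) (a : ℚ) (l : ℕ) : QLP N a l 0 = 0 := by
  simp [QLP]

theorem QLP_deg (N : ℕ) (a : ℚ) (l b : ℕ) : (QLP N a l b).natDegree ≤ 2 * b - 1 := by
  unfold QLP
  refine natDegree_sum_le_of_forall_le _ _ fun i hi => ?_
  refine natDegree_sum_le_of_forall_le _ _ fun j hj => ?_
  refine (natDegree_C_mul_le _ _).trans ?_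
  split_ifs with h
  · refine (natDegree_C_mul_le _ _).trans ((EP_deg _ _ _).trans ?_)
    omega
  · rw [natDegree_zero]
    omega

/-! ### values of `ee` -/

theorem eeV (N a p B : ℕ) (hp : p ≤ a) :
    ee N (-(a : ℚ)) (a - p) B * (((N + a).choose a : ℕ) : ℚ) =
      (-1) ^ (a - p) * (((N + a + B).choose p : ℕ) : ℚ) := by
  have h1 := asc_neg a (a - p) (by omega)
  rw [show a - (a - p) = p by omega] at h1
  have h2 := asc_nat (N + a) B
  have h3 := asc_nat N (a - p + B)
  have hA : asc (-(a : ℚ)) (a - p) = (-1) ^ (a - p) * (a.factorial : ℚ) / (p.factorial : ℚ) := by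
    rw [eq_div_iff (by positivity)]
    exact h1
  have hB : asc ((N : ℚ) + 1 - (-(a : ℚ))) B =
      ((N + a + B).factorial : ℚ) / ((N + a).factorial : ℚ) := by
    rw [eq_div_iff (by positivity), ← h2]
    congr 2
    push_cast
    ring
  have hC : asc ((N : ℚ) + 1) (a - p + B) =
      ((N + (a - p + B)).factorial : ℚ) / (N.factorial : ℚ) := by
    rw [eq_div_iff (by positivity)]
    exact h3
  have hD : (((N + a).choose a : ℕ) : ℚ) =
      ((N + a).factorial : ℚ) / ((a.factorial : ℚ) * (N.factorial : ℚ)) := by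
    rw [Nat.cast_choose ℚ (by omega : a ≤ N + a), Nat.add_sub_cancel]
  have hE : (((N + a + B).choose p : ℕ) : ℚ) = ((N + a + B).factorial : ℚ) /
      ((p.factorial : ℚ) * ((N + (a - p + B)).factorial : ℚ)) := by
    rw [Nat.cast_choose ℚ (by omega : p ≤ N + a + B),
      show N + a + B - p = N + (a - p + B) by omega]
  unfold ee
  rw [hA, hB, hC, hD, hE]
  have p1 : (a.factorial : ℚ) ≠ 0 := by positivity
  have p2 : (p.factorial : ℚ) ≠ 0 := by positivity
  have p3 : ((N + a).factorial : ℚ) ≠ 0 := by positivity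
  have p4 : (N.factorial : ℚ) ≠ 0 := by positivity
  have p5 : ((N + (a - p + B)).factorial : ℚ) ≠ 0 := by positivity
  field_simp

theorem ee_zero (N a A B : ℕ) (h : a < A) : ee N (-(a : ℚ)) A B = 0 := by
  unfold ee
  have : asc (-(a : ℚ)) A = 0 := by
    unfold asc
    refine prod_eq_zero (mem_range.mpr h) ?_
    ring
  rw [this]
  simp

/-! ### the column `J = 1` -/

theorem inner6 (N a d l j : ℕ) (hj : j ≤ a + 1 + d) :
    ∑ i ∈ range (a + 1 + d + 1), UL N (-(a : ℚ)) l (a + 1 + d) i j * (((N + a).choose a : ℕ) : ℚ) =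
      if l + j ≤ a then (-1) ^ a * PowerSeries.coeff (a - l - j)
        (us ^ (N + a + (a + 1 + d) - j) * Gs (a + 1 + d + 1)) else 0 := by
  rw [show a + 1 + d + 1 = d + (a + 2) by ring, Finset.sum_range_add,
    show a + 1 + d = d + (a + 1) by ring]
  rw [sum_eq_zero (s := range d) (fun i hi => ?_), zero_add]
  swap
  · rw [mem_range] at hi
    unfold UL
    rw [ee_zero N a _ _ (by omega)]
    simp
  by_cases h : l + j ≤ a
  · rw [if_pos h]
    obtain ⟨r, hr⟩ : ∃ r, a = l + j + r := ⟨a - (l + j), by omega⟩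
    rw [show a - l - j = r by omega, coeff_mul_range, mul_sum]
    symm
    rw [← sum_subset (range_subset_range.mpr (by omega : r + 1 ≤ a + 2))]
    · refine sum_congr rfl fun p hp => ?_
      rw [mem_range] at hp
      unfold UL
      rw [if_pos (by omega), show d + (a + 1) - l - 1 - (d + p) - j = r - p by omega,
        show d + (a + 1) - 1 - (d + p) = a - p by omega, mul_assoc, eeV N a p _ (by omega),
        coeff_us_pow, show N + a + (d + (a + 1) - j) = N + a + (d + (a + 1)) - j by omega]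
      unfold Gs
      rw [PowerSeries.coeff_mk]
      have h5 : (-1 : ℚ) ^ (a - p) = (-1) ^ a * (-1) ^ p := by
        rw [← pow_add, show a + p = 2 * p + (a - p) by omega, pow_add, pow_mul]
        norm_num
      rw [h5]
      ring
    · intro p hp hp2
      rw [mem_range] at hp hp2
      unfold UL
      rw [if_neg (by omega), zero_mul]
  · rw [if_neg h]
    refine sum_eq_zero fun p hp => ?_
    unfold UL
    rw [if_neg (by omega), zero_mul]

theorem Qsix (N a d l y : ℕ) : QL N (-(a : ℚ)) l (a + 1 + d) (-1) (-(y : ℚ)) *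
    (((N + a).choose a : ℕ) : ℚ) =
      if l ≤ a then (-1) ^ (a + 1 + d + a) * PowerSeries.coeff (a - l)
        ((us * vi) ^ y * (us ^ (N + a + (a + 1 + d)) * Gs (a + 1 + d + 1))) else 0 := by
  unfold QL QQ
  have h1 : (-1 : ℚ) ^ (a + 1 + d) * (∑ i ∈ range (a + 1 + d + 1), ∑ j ∈ range (a + 1 + d + 1),
      cc (-1) i * (cc (-(y : ℚ)) j * UL N (-(a : ℚ)) l (a + 1 + d) i j)) *
      (((N + a).choose a : ℕ) : ℚ) = (-1 : ℚ) ^ (a + 1 + d) * ∑ j ∈ range (a + 1 + d + 1),
      cc (-(y : ℚ)) j * ∑ i ∈ range (a + 1 + d + 1),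
        UL N (-(a : ℚ)) l (a + 1 + d) i j * (((N + a).choose a : ℕ) : ℚ) := by
    rw [sum_comm, mul_assoc, sum_mul]
    congr 1
    refine sum_congr rfl fun j _ => ?_
    rw [sum_mul, mul_sum]
    refine sum_congr rfl fun i _ => ?_
    rw [cc_neg_one]
    ring
  rw [h1]
  by_cases hl : l ≤ a
  · have h9 : (-1 : ℚ) ^ (a + 1 + d + a) = (-1) ^ (a + 1 + d) * (-1) ^ a := pow_add _ _ _
    rw [if_pos hl, ← SUM y (a - l) (N + a + (a + 1 + d)) (by omega), h9, mul_assoc]
    congr 1
    rw [mul_sum]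
    symm
    rw [← sum_subset (range_subset_range.mpr (by omega : a - l + 1 ≤ a + 1 + d + 1))]
    · refine sum_congr rfl fun j hj => ?_
      rw [mem_range] at hj
      rw [inner6 N a d l j (by omega), if_pos (by omega)]
      ring
    · intro j hj hj2
      rw [mem_range] at hj hj2
      rw [inner6 N a d l j (by omega), if_neg (by omega), mul_zero]
  · rw [if_neg hl]
    rw [sum_eq_zero, mul_zero]
    intro j hj
    rw [mem_range] at hj
    rw [inner6 N a d l j (by omega), if_neg (by omega), mul_zero]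

/-- the series `H` -/
noncomputable def Hs (N y : ℕ) : PowerSeries ℚ := ui ^ (N + y) * (vs ^ y * vi)

theorem total6 (N a d y : ℕ) (ha : 1 ≤ a) : ∑ l ∈ range (a + 1 + d), PowerSeries.coeff l (Hs N y) *
    QL N (-(a : ℚ)) l (a + 1 + d) (-1) (-(y : ℚ)) = 0 := by
  have hC : (((N + a).choose a : ℕ) : ℚ) ≠ 0 := by
    have : 0 < (N + a).choose a := Nat.choose_pos (by omega)
    positivity
  apply mul_right_cancel₀ hC
  rw [zero_mul, sum_mul]
  have h1 : ∀ l ∈ range (a + 1 + d), PowerSeries.coeff l (Hs N y) *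
      QL N (-(a : ℚ)) l (a + 1 + d) (-1) (-(y : ℚ)) * (((N + a).choose a : ℕ) : ℚ) =
      if l ≤ a then (-1) ^ (a + 1 + d + a) * (PowerSeries.coeff l (Hs N y) * PowerSeries.coeff (a - l)
        ((us * vi) ^ y * (us ^ (N + a + (a + 1 + d)) * Gs (a + 1 + d + 1)))) else 0 := by
    intro l _
    rw [mul_assoc, Qsix]
    split_ifs
    · ring
    · ring
  rw [sum_congr rfl h1]
  rw [← sum_subset (range_subset_range.mpr (by omega : a + 1 ≤ a + 1 + d))]
  swap
  · intro l _ hl
    rw [mem_range] at hl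
    rw [if_neg (by omega)]
  rw [sum_congr rfl (fun l hl => if_pos (by rw [mem_range] at hl; omega)), ← mul_sum,
    ← coeff_mul_range]
  obtain ⟨b, rfl⟩ := Nat.exists_eq_add_of_le' ha
  have h2 : Hs N y * ((us * vi) ^ y * (us ^ (N + (b + 1) + (b + 1 + 1 + d)) * Gs (b + 1 + 1 + d + 1))) =
      us ^ b := by
    rw [Gs_eq]
    unfold Hs
    have h3 : ui ^ (N + y) * (vs ^ y * vi) * ((us * vi) ^ y * (us ^ (N + (b + 1) + (b + 1 + 1 + d)) *
        (vs * ui ^ (b + 1 + 1 + d + 1)))) =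
        us ^ b * ((us * ui) ^ (N + y + (b + 1 + 1 + d + 1)) * (vs * vi) ^ (y + 1)) := by
      ring
    rw [h3, us_ui, vs_vi, one_pow, one_pow, mul_one, mul_one]
  rw [h2, coeff_us_pow, Nat.choose_eq_zero_of_lt (by omega)]
  simp

/-! ### the value at `0` -/

theorem cs (n : ℕ) : PowerSeries.coeff n (us ^ n * vi) = 1 := by
  induction n with
  | zero =>
    rw [pow_zero, one_mul, ← coeff_vs_mul0, vs_vi]
    simp
  | succ n ih =>
    have h1 : 2 * (us ^ (n + 1) * vi) = us ^ n + us ^ n * vi := by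
      have h2 : 2 * us = vs + 1 := by
        unfold us vs
        ring
      have h3 : 2 * (us ^ (n + 1) * vi) = us ^ n * ((2 * us) * vi) := by ring
      rw [h3, h2, add_mul, vs_vi]
      ring
    have h4 := congrArg (PowerSeries.coeff (n + 1)) h1
    rw [two_mul, map_add, map_add, coeff_us_pow, Nat.choose_eq_zero_of_lt (by omega)] at h4
    have h5 : vs * (us ^ n * vi) = us ^ n := by
      have : vs * (us ^ n * vi) = us ^ n * (vs * vi) := by ring
      rw [this, vs_vi, mul_one]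
    have h6 := congrArg (PowerSeries.coeff (n + 1)) h5
    rw [coeff_vs_mul, ih, coeff_us_pow, Nat.choose_eq_zero_of_lt (by omega)] at h6
    push_cast at h4 h6
    linarith

theorem ds (n : ℕ) : PowerSeries.coeff n (us ^ (n + 1) * vi ^ 2) = (n : ℚ) + 1 := by
  induction n with
  | zero =>
    rw [zero_add, pow_one, coeff_us_mul0]
    have h1 : vs * (vs * vi ^ 2) = 1 := by
      have : vs * (vs * vi ^ 2) = (vs * vi) ^ 2 := by ring
      rw [this, vs_vi, one_pow]
    have h2 := congrArg (PowerSeries.coeff 0) h1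
    rw [coeff_vs_mul0, coeff_vs_mul0] at h2
    rw [h2]
    simp
  | succ n ih =>
    have h1 : 2 * (us ^ (n + 1 + 1) * vi ^ 2) = us ^ (n + 1) * vi + us ^ (n + 1) * vi ^ 2 := by
      have h2 : 2 * us = vs + 1 := by
        unfold us vs
        ring
      have h3 : 2 * (us ^ (n + 1 + 1) * vi ^ 2) = us ^ (n + 1) * ((2 * us) * vi ^ 2) := by ring
      have h4 : vs * vi ^ 2 = vi := by
        rw [pow_two, ← mul_assoc, vs_vi, one_mul]
      rw [h3, h2, add_mul, h4]
      ring
    have h4 := congrArg (PowerSeries.coeff (n + 1)) h1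
    rw [two_mul, map_add, map_add, cs] at h4
    have h5 : vs * (us ^ (n + 1) * vi ^ 2) = us ^ (n + 1) * vi := by
      have : vs * (us ^ (n + 1) * vi ^ 2) = us ^ (n + 1) * ((vs * vi) * vi) := by ring
      rw [this, vs_vi, one_mul]
    have h6 := congrArg (PowerSeries.coeff (n + 1)) h5
    rw [coeff_vs_mul, ih, cs] at h6
    push_cast
    linarith

/-- the derivative of `(1 - w) ^ M`, times `w` -/
noncomputable def Ds (M : ℕ) : PowerSeries ℚ :=
  PowerSeries.mk fun p => (p : ℚ) * ((-1) ^ p * ((M.choose p : ℕ) : ℚ))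

theorem Ds_eq (M : ℕ) : Ds (M + 1) =
    PowerSeries.C (-((M : ℚ) + 1)) * (PowerSeries.X * us ^ M) := by
  ext p
  unfold Ds
  rw [PowerSeries.coeff_mk, PowerSeries.coeff_C_mul]
  cases p with
  | zero => rw [PowerSeries.coeff_zero_X_mul]; simp
  | succ p =>
    rw [PowerSeries.coeff_succ_X_mul, coeff_us_pow, pow_succ]
    have h : ((M : ℚ) + 1) * ((M.choose p : ℕ) : ℚ) = (((M + 1).choose (p + 1) : ℕ) : ℚ) * ((p : ℚ) + 1) := by
      exact_mod_cast Nat.add_one_mul_choose_eq M p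
    push_cast
    linear_combination (-1 : ℚ) ^ p * h

theorem inner7 (N k l j : ℕ) (hj : j ≤ k) :
    ∑ i ∈ range (k + 1), ((i : ℚ) + 1) * (UL N (-(k : ℚ)) l k i j * (((N + k).choose k : ℕ) : ℚ)) =
      if l + j ≤ k then (-1) ^ k * PowerSeries.coeff (k - l - j)
        (Ds (N + 2 * k - j) * Gs (k + 1)) else 0 := by
  by_cases h : l + j ≤ k
  · rw [if_pos h]
    obtain ⟨r, hr⟩ : ∃ r, k = l + j + r := ⟨k - (l + j), by omega⟩
    have h0 : PowerSeries.coeff 0 (Ds (N + 2 * k - j)) = 0 := by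
      unfold Ds
      rw [PowerSeries.coeff_mk]
      simp
    have hco : PowerSeries.coeff r (Ds (N + 2 * k - j) * Gs (k + 1)) = ∑ i ∈ range r,
        PowerSeries.coeff (i + 1) (Ds (N + 2 * k - j)) *
          PowerSeries.coeff (r - (i + 1)) (Gs (k + 1)) := by
      rw [coeff_mul_range, sum_range_succ', h0, zero_mul, add_zero]
    rw [show k - l - j = r by omega, hco, mul_sum]
    symm
    rw [← sum_subset (range_subset_range.mpr (by omega : r ≤ k + 1))]
    · refine sum_congr rfl fun i hi => ?_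
      rw [mem_range] at hi
      unfold UL
      rw [if_pos (by omega), show k - l - 1 - i - j = r - (i + 1) by omega,
        show k - 1 - i = k - (i + 1) by omega, mul_assoc (G (k + 1) (r - (i + 1))),
        eeV N k (i + 1) _ (by omega), show N + k + (k - j) = N + 2 * k - j by omega]
      unfold Gs Ds
      rw [PowerSeries.coeff_mk, PowerSeries.coeff_mk]
      have h5 : (-1 : ℚ) ^ (k - (i + 1)) = (-1) ^ k * (-1) ^ (i + 1) := by
        rw [← pow_add, show k + (i + 1) = 2 * (i + 1) + (k - (i + 1)) by omega, pow_add, pow_mul]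
        norm_num
      rw [h5]
      push_cast
      ring
    · intro i hi hi2
      rw [mem_range] at hi hi2
      unfold UL
      rw [if_neg (by omega), zero_mul, mul_zero]
  · rw [if_neg h]
    refine sum_eq_zero fun i hi => ?_
    unfold UL
    rw [if_neg (by omega), zero_mul, mul_zero]

theorem cc_two (i : ℕ) : cc (-2) i = (i : ℚ) + 1 := by
  have h := cc_neg 1 i
  rw [show (-(((1 : ℕ) : ℚ) + 1)) = -2 by norm_num] at h
  rw [h, ← Nat.choose_symm_add, Nat.choose_one_right]
  push_cast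
  ring

theorem cc_step (x : ℚ) (j : ℕ) : ((j : ℚ) + 1) * cc x (j + 1) = (-x) * cc (x - 1) j := by
  unfold cc Ch
  rw [prod_range_succ', Nat.factorial_succ, pow_succ]
  have p1 : (j.factorial : ℚ) ≠ 0 := by positivity
  have p2 : ((j : ℚ) + 1) ≠ 0 := by positivity
  have h : ∏ l ∈ range j, (x - ((l + 1 : ℕ) : ℚ)) = ∏ l ∈ range j, (x - 1 - (l : ℚ)) :=
    prod_congr rfl fun l _ => by push_cast; ring
  rw [h]
  push_cast
  field_simp
  ring

/-- the series `Ψ` -/
noncomputable def Ps (N k y : ℕ) : PowerSeries ℚ :=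
  PowerSeries.C (-((N : ℚ) + 2 * k)) *
    ((us * vi) ^ (y + 1) * (us ^ (N + 2 * k - 1) * (PowerSeries.X * Gs (k + 1)))) +
  PowerSeries.C ((y : ℚ) + 1) * (PowerSeries.X *
    ((us * vi) ^ (y + 2) * (us ^ (N + 2 * k - 2) * (PowerSeries.X * Gs (k + 1)))))

theorem Qseven (N k l y : ℕ) (hl : l < k) :
    QL N (-(k : ℚ)) l k (-2) (-((y : ℚ) + 1)) * (((N + k).choose k : ℕ) : ℚ) =
      PowerSeries.coeff (k - l) (Ps N k y) := by
  unfold QL QQ
  have h1 : (-1 : ℚ) ^ k * (∑ i ∈ range (k + 1), ∑ j ∈ range (k + 1),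
      cc (-2) i * (cc (-((y : ℚ) + 1)) j * UL N (-(k : ℚ)) l k i j)) *
      (((N + k).choose k : ℕ) : ℚ) = (-1 : ℚ) ^ k * ∑ j ∈ range (k + 1),
      cc (-((y : ℚ) + 1)) j * ∑ i ∈ range (k + 1),
        ((i : ℚ) + 1) * (UL N (-(k : ℚ)) l k i j * (((N + k).choose k : ℕ) : ℚ)) := by
    rw [sum_comm, mul_assoc, sum_mul]
    congr 1
    refine sum_congr rfl fun j _ => ?_
    rw [sum_mul, mul_sum]
    refine sum_congr rfl fun i _ => ?_
    rw [cc_two]
    ring
  rw [h1]
  obtain ⟨n, hn⟩ : ∃ n, k - l = n + 1 := ⟨k - l - 1, by omega⟩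
  have h2 : (-1 : ℚ) ^ k * ∑ j ∈ range (k + 1),
      cc (-((y : ℚ) + 1)) j * ∑ i ∈ range (k + 1),
        ((i : ℚ) + 1) * (UL N (-(k : ℚ)) l k i j * (((N + k).choose k : ℕ) : ℚ)) =
      ∑ j ∈ range (n + 1 + 1), cc (-((y : ℚ) + 1)) j *
        PowerSeries.coeff (n + 1 - j) (Ds (N + 2 * k - j) * Gs (k + 1)) := by
    have h3 : (-1 : ℚ) ^ k * (-1) ^ k = 1 := by
      rw [← pow_add, ← two_mul, pow_mul]
      norm_num
    rw [mul_sum, ← sum_subset (range_subset_range.mpr (by omega : n + 1 + 1 ≤ k + 1))]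
    · refine sum_congr rfl fun j hj => ?_
      rw [mem_range] at hj
      rw [inner7 N k l j (by omega), if_pos (by omega), show k - l - j = n + 1 - j by omega]
      linear_combination (cc (-((y : ℚ) + 1)) j *
          PowerSeries.coeff (n + 1 - j) (Ds (N + 2 * k - j) * Gs (k + 1))) * h3
    · intro j hj hj2
      rw [mem_range] at hj hj2
      rw [inner7 N k l j (by omega), if_neg (by omega), mul_zero, mul_zero]
  rw [h2, hn]
  obtain ⟨R, hR⟩ : ∃ R, N + 2 * k = R + 2 := ⟨N + 2 * k - 2, by omega⟩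
  have hRq : (N : ℚ) + 2 * k = R + 2 := by exact_mod_cast hR
  have h4 : ∀ j ∈ range (n + 1 + 1), cc (-((y : ℚ) + 1)) j *
      PowerSeries.coeff (n + 1 - j) (Ds (N + 2 * k - j) * Gs (k + 1)) =
      (-((R : ℚ) + 2)) * (cc (-((y + 1 : ℕ) : ℚ)) j * PowerSeries.coeff (n + 1 - j)
        (us ^ (R + 1 - j) * (PowerSeries.X * Gs (k + 1)))) +
      (j : ℚ) * cc (-((y : ℚ) + 1)) j * PowerSeries.coeff (n + 1 - j)
        (us ^ (R + 1 - j) * (PowerSeries.X * Gs (k + 1))) := by
    intro j hj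
    rw [mem_range] at hj
    have hj1 : j ≤ R + 1 := by omega
    have e1 : N + 2 * k - j = (R + 1 - j) + 1 := by omega
    rw [e1, Ds_eq, show PowerSeries.C (-(((R + 1 - j : ℕ) : ℚ) + 1)) *
      (PowerSeries.X * us ^ (R + 1 - j)) * Gs (k + 1) = PowerSeries.C (-(((R + 1 - j : ℕ) : ℚ) + 1)) *
      (us ^ (R + 1 - j) * (PowerSeries.X * Gs (k + 1))) by ring, PowerSeries.coeff_C_mul,
      Nat.cast_sub hj1, show (-((y + 1 : ℕ) : ℚ)) = -((y : ℚ) + 1) by push_cast; ring]
    push_cast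
    ring
  rw [sum_congr rfl h4, sum_add_distrib, ← mul_sum, SUM (y + 1) (n + 1) (R + 1) (by omega),
    sum_range_succ']
  have h5 : ∀ j ∈ range (n + 1), ((j + 1 : ℕ) : ℚ) * cc (-((y : ℚ) + 1)) (j + 1) *
      PowerSeries.coeff (n + 1 - (j + 1)) (us ^ (R + 1 - (j + 1)) * (PowerSeries.X * Gs (k + 1))) =
      ((y : ℚ) + 1) * (cc (-((y + 2 : ℕ) : ℚ)) j * PowerSeries.coeff (n - j)
        (us ^ (R - j) * (PowerSeries.X * Gs (k + 1)))) := by
    intro j hj
    have e := cc_step (-((y : ℚ) + 1)) j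
    rw [show -((y : ℚ) + 1) - 1 = -((y + 2 : ℕ) : ℚ) by push_cast; ring, neg_neg] at e
    rw [show n + 1 - (j + 1) = n - j by omega, show R + 1 - (j + 1) = R - j by omega]
    push_cast at e ⊢
    rw [e]
    ring
  rw [sum_congr rfl h5, ← mul_sum, SUM (y + 2) n R (by omega)]
  unfold Ps
  rw [hRq, show N + 2 * k - 1 = R + 1 by omega, show N + 2 * k - 2 = R by omega, map_add,
    PowerSeries.coeff_C_mul, PowerSeries.coeff_C_mul, PowerSeries.coeff_succ_X_mul]
  push_cast
  ring

theorem coeff0_Ps (N k y : ℕ) : PowerSeries.coeff 0 (Ps N k y) = 0 := by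
  have h : Ps N k y = PowerSeries.X * (PowerSeries.C (-((N : ℚ) + 2 * k)) *
    ((us * vi) ^ (y + 1) * (us ^ (N + 2 * k - 1) * Gs (k + 1))) +
    PowerSeries.C ((y : ℚ) + 1) *
    ((us * vi) ^ (y + 2) * (us ^ (N + 2 * k - 2) * (PowerSeries.X * Gs (k + 1))))) := by
    unfold Ps
    ring
  rw [h, PowerSeries.coeff_zero_X_mul]

theorem total7 (N κ y : ℕ) : (∑ l ∈ range (κ + 2), PowerSeries.coeff l (Hs N y) *
    QL N (-((κ + 2 : ℕ) : ℚ)) l (κ + 2) (-2) (-((y : ℚ) + 1))) *
      (((N + (κ + 2)).choose (κ + 2) : ℕ) : ℚ) =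
    ((κ : ℚ) + 1) * (y + 1) - (N + 2 * (κ + 2)) := by
  rw [sum_mul]
  have h1 : ∀ l ∈ range (κ + 2), PowerSeries.coeff l (Hs N y) *
      QL N (-((κ + 2 : ℕ) : ℚ)) l (κ + 2) (-2) (-((y : ℚ) + 1)) *
      (((N + (κ + 2)).choose (κ + 2) : ℕ) : ℚ) =
      PowerSeries.coeff l (Hs N y) * PowerSeries.coeff (κ + 2 - l) (Ps N (κ + 2) y) := by
    intro l hl
    rw [mem_range] at hl
    rw [mul_assoc, Qseven N (κ + 2) l y hl]
  rw [sum_congr rfl h1]
  have h2 := coeff_mul_range (κ + 2) (Hs N y) (Ps N (κ + 2) y)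
  rw [sum_range_succ, Nat.sub_self, coeff0_Ps, mul_zero, add_zero] at h2
  rw [← h2]
  have h3 : Hs N y * Ps N (κ + 2) y = PowerSeries.C (-((N : ℚ) + 2 * (κ + 2 : ℕ))) *
      (PowerSeries.X * (us ^ (κ + 1) * vi)) + PowerSeries.C ((y : ℚ) + 1) *
      (PowerSeries.X * (PowerSeries.X * (us ^ (κ + 1) * vi ^ 2))) := by
    unfold Ps Hs
    rw [Gs_eq, show N + 2 * (κ + 2) - 1 = N + 2 * κ + 3 by omega,
      show N + 2 * (κ + 2) - 2 = N + 2 * κ + 2 by omega]
    have h4 : ui ^ (N + y) * (vs ^ y * vi) * (PowerSeries.C (-((N : ℚ) + 2 * (κ + 2 : ℕ))) *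
        ((us * vi) ^ (y + 1) * (us ^ (N + 2 * κ + 3) * (PowerSeries.X * (vs * ui ^ (κ + 2 + 1))))) +
        PowerSeries.C ((y : ℚ) + 1) * (PowerSeries.X *
        ((us * vi) ^ (y + 2) * (us ^ (N + 2 * κ + 2) * (PowerSeries.X * (vs * ui ^ (κ + 2 + 1))))))) =
        PowerSeries.C (-((N : ℚ) + 2 * (κ + 2 : ℕ))) *
        (PowerSeries.X * (us ^ (κ + 1) * vi)) * ((us * ui) ^ (N + y + κ + 3) * (vs * vi) ^ (y + 1)) +
        PowerSeries.C ((y : ℚ) + 1) *
        (PowerSeries.X * (PowerSeries.X * (us ^ (κ + 1) * vi ^ 2))) *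
          ((us * ui) ^ (N + y + κ + 3) * (vs * vi) ^ (y + 1)) := by
      ring
    rw [h4, us_ui, vs_vi, one_pow, one_pow, mul_one, mul_one, mul_one]
  rw [h3, map_add, PowerSeries.coeff_C_mul, PowerSeries.coeff_C_mul,
    show κ + 2 = (κ + 1) + 1 by ring, PowerSeries.coeff_succ_X_mul, PowerSeries.coeff_succ_X_mul, cs,
    PowerSeries.coeff_succ_X_mul, ds]
  push_cast
  ring

/-- the whole sum -/
noncomputable def FF (N K y : ℕ) (T : ℚ) (b : ℕ) (α : ℚ) : ℚ :=
  qq N T b α (α - y) + ∑ l ∈ range K, PowerSeries.coeff l (Hs N y) * QL N T l b (α - 1) (α - y)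

theorem FF_zero (N K y : ℕ) (T : ℚ) (α : ℚ) : FF N K y T 0 α = FF N K y T 0 0 := by
  unfold FF
  simp only [qq_zero, QL_zero]

theorem FF_rec (N K y : ℕ) (T : ℚ) (b : ℕ) (α : ℚ) :
    FF N K y T (b + 1) (α + 1) = FF N K y T (b + 1) α + FF N K y T b α := by
  unfold FF
  have h1 := qq_rec N T b α (α - y)
  rw [show α + 1 - (y : ℚ) = α - y + 1 by ring, h1]
  have h2 : ∀ l ∈ range K, PowerSeries.coeff l (Hs N y) *
      QL N T l (b + 1) (α + 1 - 1) (α - y + 1) =
      PowerSeries.coeff l (Hs N y) * QL N T l (b + 1) (α - 1) (α - y) +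
      PowerSeries.coeff l (Hs N y) * QL N T l b (α - 1) (α - y) := by
    intro l _
    rw [show α + 1 - 1 = (α - 1) + 1 by ring, QL_rec]
    ring
  rw [sum_congr rfl h2, sum_add_distrib]
  ring

/-- the vanishing of `qq` and `QL` from the vanishing of the terms -/
theorem qq_van {N k : ℕ} {T α β : ℚ}
    (h : ∀ i j, i ≤ k → j ≤ k → cc α i = 0 ∨ cc β j = 0 ∨ ee N T (k - i) (k - j) = 0) :
    qq N T k α β = 0 := by
  unfold qq
  rw [sum_eq_zero, mul_zero]
  intro i hi
  rw [mem_range] at hi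
  refine sum_eq_zero fun j hj => ?_
  rw [mem_range] at hj
  rcases h i j (by omega) (by omega) with h1 | h1 | h1
  · rw [h1, zero_mul]
  · rw [h1, zero_mul, mul_zero]
  · unfold uu
    rw [h1, mul_zero]
    simp

theorem QL_van {N k l : ℕ} {T α β : ℚ}
    (h : ∀ i j, l + 1 + i + j ≤ k → cc α i = 0 ∨ cc β j = 0 ∨ ee N T (k - 1 - i) (k - j) = 0) :
    QL N T l k α β = 0 := by
  unfold QL QQ
  rw [sum_eq_zero, mul_zero]
  intro i hi
  refine sum_eq_zero fun j hj => ?_
  unfold UL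
  by_cases hc : l + 1 + i + j ≤ k
  · rcases h i j hc with h1 | h1 | h1
    · rw [h1, zero_mul]
    · rw [h1, zero_mul, mul_zero]
    · rw [h1, mul_zero]
      simp
  · rw [if_neg hc, mul_zero, mul_zero]

theorem cc_nat_zero (a n : ℕ) (h : a < n) : cc (a : ℚ) n = 0 := by
  unfold cc
  rw [ch_nat_zero a n h, mul_zero]

theorem asc_van {x : ℚ} {n c : ℕ} (h : c < n) (hx : x = -(c : ℚ)) : asc x n = 0 := by
  unfold asc
  refine prod_eq_zero (mem_range.mpr h) ?_
  rw [hx]
  ring

theorem ee_vanA {N A B c : ℕ} {T : ℚ} (h : c < A) (hT : T = -(c : ℚ)) : ee N T A B = 0 := by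
  unfold ee
  rw [asc_van h hT]
  simp

theorem ee_vanB {N A B c : ℕ} {T : ℚ} (h : c < B) (hT : (N : ℚ) + 1 - T = -(c : ℚ)) :
    ee N T A B = 0 := by
  unfold ee
  rw [asc_van h hT]
  simp

theorem Hs_zero (N y : ℕ) : PowerSeries.coeff 0 (Hs N y) = 1 := by
  have h1 : us ^ (N + y) * (vs * Hs N y) = vs ^ y := by
    unfold Hs
    have : us ^ (N + y) * (vs * (ui ^ (N + y) * (vs ^ y * vi))) =
        (us * ui) ^ (N + y) * ((vs * vi) * vs ^ y) := by ring
    rw [this, us_ui, vs_vi, one_pow, one_mul, one_mul]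
  have hu : PowerSeries.constantCoeff us = 1 := by simp [us]
  have hv : PowerSeries.constantCoeff vs = 1 := by simp [vs]
  have h2 := congrArg PowerSeries.constantCoeff h1
  rw [map_mul, map_mul, map_pow, map_pow, hu, hv, one_pow, one_pow, one_mul, one_mul] at h2
  rw [PowerSeries.coeff_zero_eq_constantCoeff]
  exact h2

theorem cc_diag (n : ℕ) : cc (n : ℚ) n = (-1) ^ n := by
  unfold cc
  have h : Ch (n : ℚ) n = 1 := by
    unfold Ch
    rw [div_eq_one_iff_eq (by positivity)]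
    induction n with
    | zero => simp
    | succ n ih =>
      rw [prod_range_succ', Nat.factorial_succ]
      have h1 : ∏ l ∈ range n, (((n + 1 : ℕ) : ℚ) - ((l + 1 : ℕ) : ℚ)) =
          ∏ l ∈ range n, ((n : ℚ) - (l : ℚ)) := prod_congr rfl fun l _ => by push_cast; ring
      rw [h1, ih]
      push_cast
      ring
  rw [h, mul_one]

/-- the corner `t = k`, `J = k + 1`: the value of `qq` -/
theorem corner_qq (N k : ℕ) (β : ℚ) : qq N 0 k (k : ℚ) β = 1 := by
  unfold qq
  rw [sum_eq_single_of_mem k (by simp), sum_eq_single_of_mem 0 (by simp)]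
  · unfold uu ee
    have hp : asc ((N : ℚ) + 1) k ≠ 0 := (asc_pos (by positivity) _).ne'
    rw [if_pos (by omega), cc_diag, cc_zero, show k - k - 0 = 0 by omega, G_zero, Nat.sub_self,
      Nat.sub_zero, asc_zero, zero_add, sub_zero, one_mul, one_mul, one_mul, div_self hp,
      mul_one, ← pow_add, ← two_mul, pow_mul]
    norm_num
  · intro j _ hj
    rw [uu_big _ _ _ _ _ (by omega), mul_zero, mul_zero]
  · intro i hi hik
    rw [mem_range] at hi
    refine sum_eq_zero fun j _ => ?_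
    unfold uu
    rw [ee_vanA (c := 0) (by omega : 0 < k - i) (by simp)]
    simp

/-- the corner `t = k`, `J = k + 1`: the value of `QL` -/
theorem corner_QL (N κ : ℕ) (β : ℚ) : QL N 0 0 (κ + 1) (κ : ℚ) β = -1 := by
  unfold QL QQ
  rw [sum_eq_single_of_mem κ (by simp), sum_eq_single_of_mem 0 (by simp)]
  · unfold UL ee
    have hp : asc ((N : ℚ) + 1) (κ + 1) ≠ 0 := (asc_pos (by positivity) _).ne'
    rw [if_pos (by omega), cc_diag, cc_zero, show κ + 1 - 0 - 1 - κ - 0 = 0 by omega, G_zero,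
      show κ + 1 - 1 - κ = 0 by omega, Nat.sub_zero, asc_zero, zero_add, sub_zero,
      one_mul, one_mul, one_mul, div_self hp, mul_one, ← pow_add,
      show κ + 1 + κ = 2 * κ + 1 by ring, pow_add, pow_mul]
    norm_num
  · intro j _ hj
    unfold UL
    rw [if_neg (by omega), mul_zero, mul_zero]
  · intro i hi hik
    rw [mem_range] at hi
    refine sum_eq_zero fun j _ => ?_
    unfold UL
    by_cases hc : 0 + 1 + i + j ≤ κ + 1
    · rw [ee_vanA (c := 0) (by omega : 0 < κ + 1 - 1 - i) (by simp)]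
      simp
    · rw [if_neg hc, mul_zero, mul_zero]

end TEST2

open TEST TEST2 in
theorem t_TEST2 : S_TEST2 := by
  intro k m Y hk hm hY hYm hne
  obtain ⟨N, rfl⟩ : ∃ N, m = N + 2 * k := ⟨m - 2 * k, by omega⟩
  obtain ⟨y, rfl⟩ := Nat.exists_eq_add_of_le' hY
  -- the polynomials
  let P : ℕ → ℚ[X] := fun b => QP N y b + ∑ l ∈ range k, C (PowerSeries.coeff l (Hs N y)) * QLP N y l b
  have Pev : ∀ b (T : ℚ), (P b).eval T = FF N k y T b 0 := by
    intro b T
    show (QP N y b + ∑ l ∈ range k, C (PowerSeries.coeff l (Hs N y)) * QLP N y l b).eval T = _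
    unfold FF
    rw [eval_add, QP_eval, eval_finsetSum, zero_sub, zero_sub]
    congr 1
    refine sum_congr rfl fun l _ => ?_
    rw [eval_mul, eval_C, QLP_eval]
  have Pdeg0 : (P 0).natDegree ≤ 0 := by
    refine (natDegree_add_le _ _).trans (max_le (QP_deg0 N y) ?_)
    refine natDegree_sum_le_of_forall_le _ _ fun l _ => ?_
    rw [QLP_zero, mul_zero, natDegree_zero]
  have Pdeg : ∀ b, 1 ≤ b → (P b).natDegree ≤ 2 * b - 1 := by
    intro b hb
    refine (natDegree_add_le _ _).trans (max_le (QP_deg N y b hb) ?_)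
    refine natDegree_sum_le_of_forall_le _ _ fun l _ => ?_
    exact (natDegree_C_mul_le _ _).trans (QLP_deg N y l b)
  let g : ℕ → ℚ[X] := fun b => C (1 / ((k - b).factorial : ℚ)) * (P b).comp (X - C (k : ℚ))
  have gev : ∀ b (t : ℚ), (g b).eval t = 1 / ((k - b).factorial : ℚ) * FF N k y (t - k) b 0 := by
    intro b t
    show (C (1 / ((k - b).factorial : ℚ)) * (P b).comp (X - C (k : ℚ))).eval t = _
    rw [eval_mul, eval_C, eval_comp, eval_sub, eval_X, eval_C, Pev]
  have gdeg : ∀ b, (g b).natDegree ≤ (P b).natDegree := by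
    intro b
    refine (natDegree_C_mul_le _ _).trans ?_
    refine (natDegree_comp_le).trans ?_
    rw [natDegree_X_sub_C, mul_one]
  have gsum : ∀ t J : ℚ, ∑ b ∈ range (k + 1), (g b).eval t * (Pn (k - b)).eval J =
      ∑ b ∈ range (k + 1), Ch (J - 1) (k - b) * FF N k y (t - k) b 0 := by
    intro t J
    refine sum_congr rfl fun b _ => ?_
    rw [gev, Pn_eval]
    have p : ((k - b).factorial : ℚ) ≠ 0 := by positivity
    field_simp
  have gnat : ∀ (t : ℚ) (J α : ℕ), J = α + 1 →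
      ∑ b ∈ range (k + 1), (g b).eval t * (Pn (k - b)).eval (J : ℚ) =
        FF N k y (t - k) k (α : ℚ) := by
    intro t J α hJ
    rw [gsum, show (J : ℚ) - 1 = (α : ℚ) by rw [hJ]; push_cast; ring]
    exact (lin_nat (FF_zero N k y (t - k)) (FF_rec N k y (t - k)) α k).symm
  refine ⟨g, ?_, ?_, ?_, ?_, ?_, ?_⟩
  · refine (degree_le_natDegree).trans_lt ?_
    have := (gdeg 0).trans Pdeg0
    exact_mod_cast (by omega : (g 0).natDegree < 1)
  · intro b hb _
    refine (degree_le_natDegree).trans_lt ?_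
    have := (gdeg b).trans (Pdeg b hb)
    exact_mod_cast (by omega : (g b).natDegree < 2 * b)
  · intro t J hJ hJt htk
    obtain ⟨α, rfl⟩ := Nat.exists_eq_add_of_le' hJ
    rw [gnat t (α + 1) α rfl]
    have hT : ((t : ℚ) - k) = -((k - t : ℕ) : ℚ) := by
      rw [Nat.cast_sub htk.le]
      ring
    have hq : qq N ((t : ℚ) - k) k (α : ℚ) ((α : ℚ) - y) = 0 := by
      refine qq_van fun i j hi hj => ?_
      by_cases hit : i < t
      · exact Or.inr (Or.inr (ee_vanA (by omega : k - t < k - i) hT))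
      · exact Or.inl (cc_nat_zero α i (by omega))
    unfold FF
    rw [hq, zero_add]
    cases α with
    | zero =>
      obtain ⟨a, ha⟩ : ∃ a, a = k - t := ⟨_, rfl⟩
      obtain ⟨d, hd⟩ : ∃ d, k = a + 1 + d := ⟨k - a - 1, by omega⟩
      have h6 := total6 N a d y (by omega)
      rw [← hd] at h6
      rw [hT, ← ha]
      push_cast
      rw [zero_sub, zero_sub]
      exact h6
    | succ α =>
      refine sum_eq_zero fun l _ => ?_
      rw [QL_van, mul_zero]
      intro i j hij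
      by_cases hit : i < t - 1
      · exact Or.inr (Or.inr (ee_vanA (by omega : k - t < k - 1 - i) hT))
      · refine Or.inl ?_
        rw [show (((α + 1 : ℕ) : ℚ) - 1) = (α : ℚ) by push_cast; ring]
        exact cc_nat_zero α i (by omega)
  · intro J hJ hJk
    obtain ⟨α, rfl⟩ := Nat.exists_eq_add_of_le' hJ
    rw [gnat k (α + 2) (α + 1) rfl, sub_self]
    unfold FF
    rw [show (((α + 1 : ℕ) : ℚ) - 1) = (α : ℚ) by push_cast; ring]
    by_cases hαk : α + 1 = k
    · rw [hαk, corner_qq]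
      rw [sum_eq_single_of_mem 0 (by simp; omega)]
      · rw [Hs_zero, one_mul]
        have h := corner_QL N α ((k : ℚ) - y)
        rw [hαk] at h
        rw [h]
        norm_num
      · intro l _ hl
        rw [QL_van, mul_zero]
        intro i j hij
        by_cases hi : i = k - 1
        · omega
        · exact Or.inr (Or.inr (ee_vanA (c := 0) (by omega : 0 < k - 1 - i) (by simp)))
    · have hq : qq N 0 k ((α + 1 : ℕ) : ℚ) (((α + 1 : ℕ) : ℚ) - y) = 0 := by
        refine qq_van fun i j hi hj => ?_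
        by_cases hit : i < k
        · exact Or.inr (Or.inr (ee_vanA (c := 0) (by omega : 0 < k - i) (by simp)))
        · exact Or.inl (cc_nat_zero _ i (by omega))
      rw [hq, zero_add]
      refine sum_eq_zero fun l _ => ?_
      rw [QL_van, mul_zero]
      intro i j hij
      by_cases hi : i < k - 1
      · exact Or.inr (Or.inr (ee_vanA (c := 0) (by omega : 0 < k - 1 - i) (by simp)))
      · exact Or.inl (cc_nat_zero α i (by omega))
  · intro s i0 hs hi0
    have e0 : ((y + 1 : ℕ) : ℚ) + (i0 : ℚ) = ((y + i0 + 1 : ℕ) : ℚ) := by push_cast; ring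
    rw [e0, gnat _ (y + i0 + 1) (y + i0) rfl]
    have hT : (N : ℚ) + 1 - (((N + 2 * k : ℕ) : ℚ) - s - k) = -((k - s - 1 : ℕ) : ℚ) := by
      rw [Nat.cast_sub (by omega), Nat.cast_sub (by omega)]
      push_cast
      ring
    have hβ : ((y + i0 : ℕ) : ℚ) - y = (i0 : ℚ) := by push_cast; ring
    unfold FF
    rw [hβ, qq_van, zero_add]
    · refine sum_eq_zero fun l _ => ?_
      rw [QL_van, mul_zero]
      intro i j hij
      by_cases hjs : j ≤ s
      · exact Or.inr (Or.inr (ee_vanB (by omega : k - s - 1 < k - j) hT))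
      · exact Or.inr (Or.inl (cc_nat_zero i0 j (by omega)))
    · intro i j hi hj
      by_cases hjs : j ≤ s
      · exact Or.inr (Or.inr (ee_vanB (by omega : k - s - 1 < k - j) hT))
      · exact Or.inr (Or.inl (cc_nat_zero i0 j (by omega)))
  · rw [gsum]
    have h1 := lin_neg (FF_zero N k y (0 - k)) (FF_rec N k y (0 - k)) k
    rw [show (0 : ℚ) - 1 = -1 by norm_num, ← h1]
    obtain ⟨κ, rfl⟩ := Nat.exists_eq_add_of_le' hk
    have h2 := value N (κ + 2) y
    have h3 := total7 N κ y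
    intro h4
    apply hne
    unfold FF at h4
    have e1 : (-1 : ℚ) - y = -((y : ℚ) + 1) := by ring
    have e2 : (0 : ℚ) - ((κ + 2 : ℕ) : ℚ) = -((κ + 2 : ℕ) : ℚ) := by ring
    have e3 : (-1 : ℚ) - 1 = -2 := by norm_num
    rw [e1, e2, e3] at h4
    have h5 := congrArg (fun z => z * (((N + (κ + 2)).choose (κ + 2) : ℕ) : ℚ)) h4
    simp only [zero_mul, add_mul] at h5
    rw [h2, h3] at h5
    have e4 : N + 2 * (κ + 2) - 2 * (κ + 2) = N := by omega
    rw [e4]
    push_cast at h5 ⊢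
    linear_combination h5

end Pool.Agent.N388.EF
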