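import Pool.Agent.N388.EF.Stm

/-! Project EF, part PEEL (helper123): Vandermonde elimination of the columns, the tallest first. -/

set_option autoImplicit false

namespace Pool.Agent.N388.EF

open Finset Polynomial

namespace PEEL

/-- one column -/
lemma column (G : Finset (ℕ × ℕ)) (b J : ℕ × ℕ → ℚ) (hJ : ∀ q ∈ G, ∀ q' ∈ G, J q = J q' → q = q')
    (hr : ∀ c < G.card, ∑ q ∈ G, b q * (J q) ^ c = 0) : ∀ q ∈ G, b q = 0 := by
  intro q0 hq0
  obtain ⟨P, hP⟩ : ∃ P : ℚ[X], P = ∏ q ∈ G.erase q0, (X - C (J q)) := ⟨_, rfl⟩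
  have hdeg : P.natDegree < G.card := by
    rw [hP, natDegree_prod_of_monic _ _ fun q _ => monic_X_sub_C (J q)]
    simp only [natDegree_X_sub_C]
    rw [Finset.sum_const, smul_eq_mul, mul_one]
    exact Finset.card_erase_lt_of_mem hq0
  have h1 : ∑ q ∈ G, b q * P.eval (J q) = 0 := by
    have h2 : ∀ q ∈ G, b q * P.eval (J q) =
        ∑ c ∈ range (P.natDegree + 1), P.coeff c * (b q * (J q) ^ c) := by
      intro q _
      rw [eval_eq_sum_range, Finset.mul_sum]
      refine Finset.sum_congr rfl fun c _ => ?_
      ring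
    rw [Finset.sum_congr rfl h2, Finset.sum_comm]
    refine Finset.sum_eq_zero fun c hc => ?_
    rw [Finset.mem_range] at hc
    rw [← Finset.mul_sum, hr c (by omega), mul_zero]
  rw [Finset.sum_eq_single q0] at h1
  · rcases mul_eq_zero.1 h1 with h2 | h2
    · exact h2
    · exfalso
      rw [hP, eval_prod, Finset.prod_eq_zero_iff] at h2
      obtain ⟨q, hq, h3⟩ := h2
      rw [Finset.mem_erase] at hq
      rw [eval_sub, eval_X, eval_C, sub_eq_zero] at h3
      exact hq.1 (hJ q0 hq0 q hq.2 h3).symm
  · intro q hq hne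
    have h2 : P.eval (J q) = 0 := by
      rw [hP, eval_prod]
      refine Finset.prod_eq_zero (Finset.mem_erase.2 ⟨hne, hq⟩) ?_
      rw [eval_sub, eval_X, eval_C, sub_self]
    rw [h2, mul_zero]
  · intro h
    exact absurd hq0 h

/-- the induction -/
lemma main (J : ℕ × ℕ → ℚ) : ∀ (n : ℕ) (F : Finset (ℕ × ℕ)) (b : ℕ × ℕ → ℚ) (N : ℕ → ℕ),
    (F.image Prod.fst).card = n →
    (∀ q ∈ F, ∀ q' ∈ F, q.1 = q'.1 → J q = J q' → q = q') →
    (∀ c, ((F.image Prod.fst).filter
      (fun t => c < (F.filter (fun q => q.1 = t)).card)).card ≤ N c) →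
    (∀ (c : ℕ) (p : ℚ[X]), p.degree < (N c : WithBot ℕ) →
      ∑ q ∈ F, b q * p.eval (q.1 : ℚ) * (J q) ^ c = 0) →
    ∀ q ∈ F, b q = 0 := by
  intro n
  induction n with
  | zero =>
    intro F b N hn _ _ _ q hq
    rw [Finset.card_eq_zero, Finset.image_eq_empty] at hn
    rw [hn] at hq
    exact absurd hq (Finset.notMem_empty q)
  | succ n ih =>
    intro F b N hn hJ hc hr
    have hne : (F.image Prod.fst).Nonempty := by
      rw [← Finset.card_pos, hn]
      omega
    obtain ⟨t0, ht0, hmax⟩ := Finset.exists_max_image (F.image Prod.fst)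
      (fun t => (F.filter (fun q => q.1 = t)).card) hne
    obtain ⟨F', hF'⟩ : ∃ F' : Finset (ℕ × ℕ), F' = F.filter (fun q => q.1 ≠ t0) := ⟨_, rfl⟩
    have hmem : ∀ q, q ∈ F' ↔ q ∈ F ∧ q.1 ≠ t0 := by
      intro q
      rw [hF', Finset.mem_filter]
    have himg : F'.image Prod.fst = (F.image Prod.fst).erase t0 := by
      ext s
      simp only [Finset.mem_image, Finset.mem_erase, hmem]
      constructor
      · rintro ⟨q, ⟨h1, h2⟩, rfl⟩
        exact ⟨h2, q, h1, rfl⟩
      · rintro ⟨h1, q, h2, rfl⟩
        exact ⟨q, ⟨h2, h1⟩, rfl⟩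
    have hcol : ∀ s, s ≠ t0 → F'.filter (fun q => q.1 = s) = F.filter (fun q => q.1 = s) := by
      intro s hs
      ext q
      simp only [Finset.mem_filter, hmem]
      constructor
      · rintro ⟨⟨h1, _⟩, h2⟩
        exact ⟨h1, h2⟩
      · rintro ⟨h1, h2⟩
        exact ⟨⟨h1, h2 ▸ hs⟩, h2⟩
    have hfil : ∀ c, (F'.image Prod.fst).filter
        (fun t => c < (F'.filter (fun q => q.1 = t)).card) =
        ((F.image Prod.fst).filter (fun t => c < (F.filter (fun q => q.1 = t)).card)).erase t0 := by
      intro c
      rw [himg]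
      ext s
      simp only [Finset.mem_filter, Finset.mem_erase]
      constructor
      · rintro ⟨⟨h1, h2⟩, h3⟩
        rw [hcol s h1] at h3
        exact ⟨h1, h2, h3⟩
      · rintro ⟨h1, h2, h3⟩
        refine ⟨⟨h1, h2⟩, ?_⟩
        rw [hcol s h1]
        exact h3
    have hF'0 : ∀ q ∈ F', b q = 0 := by
      have key := ih F' (fun q => b q * ((q.1 : ℚ) - t0)) (fun c => N c - 1) ?_ ?_ ?_ ?_
      · intro q hq
        have h1 := key q hq
        rcases mul_eq_zero.1 h1 with h2 | h2
        · exact h2
        · exfalso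
          rw [sub_eq_zero] at h2
          exact ((hmem q).1 hq).2 (by exact_mod_cast h2)
      · rw [himg, Finset.card_erase_of_mem ht0, hn]
        rfl
      · intro q hq q' hq'
        exact hJ q ((hmem q).1 hq).1 q' ((hmem q').1 hq').1
      · intro c
        rw [hfil c]
        by_cases h : c < (F.filter (fun q => q.1 = t0)).card
        · rw [Finset.card_erase_of_mem (Finset.mem_filter.2 ⟨ht0, h⟩)]
          exact Nat.sub_le_sub_right (hc c) 1
        · have h1 : (F.image Prod.fst).filter
              (fun t => c < (F.filter (fun q => q.1 = t)).card) = ∅ := by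
            rw [Finset.filter_eq_empty_iff]
            intro s hs h2
            exact h (lt_of_lt_of_le h2 (hmax s hs))
          rw [h1, Finset.erase_empty, Finset.card_empty]
          exact Nat.zero_le _
      · intro c p hp
        rcases Nat.eq_zero_or_pos (N c) with h0 | h0
        · rw [h0] at hp
          have h1 : p = 0 := by
            by_contra hne
            have h2 := (Polynomial.natDegree_lt_iff_degree_lt hne).2 hp
            omega
          rw [h1]
          simp
        · have h1 := hr c ((X - C (t0 : ℚ)) * p) ?_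
          · rw [← Finset.sum_filter_add_sum_filter_not F (fun q => q.1 ≠ t0), ← hF'] at h1
            have h2 : ∑ q ∈ F.filter (fun q => ¬ q.1 ≠ t0),
                b q * ((X - C (t0 : ℚ)) * p).eval (q.1 : ℚ) * (J q) ^ c = 0 := by
              refine Finset.sum_eq_zero fun q hq => ?_
              rw [Finset.mem_filter, not_not] at hq
              rw [hq.2, eval_mul, eval_sub, eval_X, eval_C, sub_self]
              ring
            rw [h2, add_zero] at h1
            rw [← h1]
            refine Finset.sum_congr rfl fun q _ => ?_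
            rw [eval_mul, eval_sub, eval_X, eval_C]
            ring
          · by_cases hp0 : p = 0
            · rw [hp0, mul_zero, degree_zero]
              exact WithBot.bot_lt_coe _
            · have h2 : p.natDegree < N c - 1 := by
                rw [← Polynomial.natDegree_lt_iff_degree_lt hp0] at hp
                exact hp
              have h3 : (X - C (t0 : ℚ)) * p ≠ 0 := mul_ne_zero (X_sub_C_ne_zero _) hp0
              rw [← Polynomial.natDegree_lt_iff_degree_lt h3, natDegree_mul (X_sub_C_ne_zero _) hp0,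
                natDegree_X_sub_C]
              omega
    -- the column
    have hG := column (F.filter (fun q => q.1 = t0)) b J ?_ ?_
    · intro q hq
      by_cases h : q.1 = t0
      · exact hG q (Finset.mem_filter.2 ⟨hq, h⟩)
      · exact hF'0 q ((hmem q).2 ⟨hq, h⟩)
    · intro q hq q' hq'
      rw [Finset.mem_filter] at hq hq'
      exact hJ q hq.1 q' hq'.1 (hq.2.trans hq'.2.symm)
    · intro c hcG
      have h1 : 1 ≤ N c := by
        refine le_trans ?_ (hc c)
        exact Finset.card_pos.2 ⟨t0, Finset.mem_filter.2 ⟨ht0, hcG⟩⟩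
      have h2 := hr c 1 (by
        rw [degree_one]
        exact_mod_cast h1)
      rw [← Finset.sum_filter_add_sum_filter_not F (fun q => q.1 = t0)] at h2
      have h3 : ∑ q ∈ F.filter (fun q => ¬ q.1 = t0),
          b q * (1 : ℚ[X]).eval (q.1 : ℚ) * (J q) ^ c = 0 := by
        refine Finset.sum_eq_zero fun q hq => ?_
        rw [Finset.mem_filter] at hq
        rw [hF'0 q ((hmem q).2 hq), zero_mul, zero_mul]
      rw [h3, add_zero] at h2
      rw [← h2]
      refine Finset.sum_congr rfl fun q _ => ?_
      rw [eval_one, mul_one]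

end PEEL

theorem t_PEEL : S_PEEL := by
  intro F b J N hJ hc hr
  exact PEEL.main J _ F b N rfl hJ hc hr

end Pool.Agent.N388.EF
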