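import Mathlib
import Pool.Agent.TH176.Nag.Base

/-! Project EF (helper388): 11 and 15 general points of one multiplicity, degrees divisible by three.
Statements of the parts. -/

set_option autoImplicit false

namespace Pool.Agent.N388.EF

open Finset Polynomial Pool.Agent.TH176.Nag

/-! ### Reduction of the multiplicity conditions on a degenerating curve -/

/-- the `κ`-th normal coefficient along the curve `w = 1 + 1 / z`, in `u = 1 / z` (times `u ^ T`) -/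
noncomputable def HP {L : Type} [CommRing L] (S : Finset (ℕ × ℕ)) (T κ : ℕ) (f : ℕ × ℕ → L) : L[X] :=
  ∑ p ∈ S, C (f p * ((p.2.choose κ : ℕ) : L)) * X ^ (T - p.1 + κ) * (1 + X) ^ (p.2 - κ)

/-- VALa: multiplicity `m` at the torus point `(1 / u, 1 + u)` -/
def S_VALa : Prop := ∀ (L : Type) [Field L] [CharZero L] (u : L), u ≠ 0 → 1 + u ≠ 0 →
  ∀ (S : Finset (ℕ × ℕ)) (T m κ : ℕ), (∀ p ∈ S, p.1 ≤ T) → κ < m → ∀ f : (ℤ × ℤ) →₀ L,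
    (∀ q ∈ f.support, ∃ s ∈ S, q = ((s.1 : ℤ), (s.2 : ℤ))) → LM f u⁻¹ (1 + u) m →
    (X - C u) ^ (m - κ) ∣ HP S T κ (fun p => f ((p.1 : ℤ), (p.2 : ℤ)))

/-- VALb: the reduction of the divisibility modulo the parameter -/
def S_VALb : Prop := ∀ (N n v : ℕ) (H : ℚ[X][X]), (X : ℚ[X][X]) ^ v ∣ H →
  (∀ i : Fin N, ((X : (RatFunc ℚ)[X]) - C (algebraMap ℚ[X] (RatFunc ℚ) (C (((i : ℕ) : ℚ) + 1) * X))) ^ n ∣
    H.map (algebraMap ℚ[X] (RatFunc ℚ))) →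
  (X : ℚ[X]) ^ (v + N * n) ∣ H.map (evalRingHom (0 : ℚ))

/-- the relation of index `(κ, D)` -/
def Rel (S : Finset (ℕ × ℕ)) (c : ℕ × ℕ → ℚ) (κ : ℕ) (D : ℤ) : Prop :=
  ∑ p ∈ S.filter (fun p => D ≤ (p.1 : ℤ)), c p * ((p.2.choose ((p.1 : ℤ) - D).toNat : ℕ) : ℚ) *
    ((((p.1 : ℤ) - D).toNat.choose κ : ℕ) : ℚ) = 0

/-- VAL: emptiness from the relations over `ℚ` -/
def S_VAL : Prop := ∀ (N m : ℕ) (S : Finset (ℕ × ℕ)) (B : ℕ → ℤ),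
  (∀ κ < m, ∀ p ∈ S, κ ≤ p.2 → (p.1 : ℤ) - κ ≤ B κ) →
  (∀ c : ℕ × ℕ → ℚ, (∀ κ < m, ∀ D : ℤ, B κ - (N : ℤ) * ((m : ℤ) - κ) < D → Rel S c κ D) →
    ∀ p ∈ S, c p = 0) →
  Emp (fun _ : Fin N => m) {p : ℤ × ℤ | ∃ s ∈ S, p = ((s.1 : ℤ), (s.2 : ℤ))}

/-! ### Columns divisible by powers of `w - 1` -/

/-- PSI -/
def S_PSI : Prop := ∀ (t lo hi : ℕ) (f : ℚ[X]), (∀ j, f.coeff j ≠ 0 → lo ≤ j ∧ j ≤ hi) →
  (∀ s < t, ∑ j ∈ range (hi + 1), f.coeff j * ((j.choose s : ℕ) : ℚ) = 0) →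
  ∃ g : ℚ[X], f = (X - 1) ^ t * g ∧ (∀ l, g.coeff l ≠ 0 → lo ≤ l ∧ l + t ≤ hi) ∧
    ∀ n, ∑ j ∈ range (hi + 1), f.coeff j * ((j.choose (t + n) : ℕ) : ℚ) =
      ∑ l ∈ range (hi + 1), g.coeff l * ((l.choose n : ℕ) : ℚ)

/-! ### Linear algebra of the weighted point -/

/-- SPAN: from binomials to all polynomials of small weight -/
def S_SPAN : Prop := ∀ (F : Finset (ℕ × ℕ)) (b : ℕ × ℕ → ℚ) (x : ℚ) (N : ℕ → ℕ),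
  (∀ c, 0 < N (c + 1) → N (c + 1) < N c) →
  (∀ c, ∀ κ < N c, ∑ q ∈ F, b q * (((q.1 + c).choose κ : ℕ) : ℚ) * ((q.2.choose c : ℕ) : ℚ) = 0) →
  ∀ (c : ℕ) (p P : ℚ[X]), p.degree < (N c : WithBot ℕ) → P.natDegree ≤ c →
    ∑ q ∈ F, b q * p.eval (q.1 : ℚ) * P.eval (x - q.1 - q.2) = 0

/-- PEEL: Vandermonde elimination of the columns, the tallest first -/
def S_PEEL : Prop := ∀ (F : Finset (ℕ × ℕ)) (b J : ℕ × ℕ → ℚ) (N : ℕ → ℕ),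
  (∀ q ∈ F, ∀ q' ∈ F, q.1 = q'.1 → J q = J q' → q = q') →
  (∀ c, ((F.image Prod.fst).filter (fun t => c < (F.filter (fun q => q.1 = t)).card)).card ≤ N c) →
  (∀ (c : ℕ) (p : ℚ[X]), p.degree < (N c : WithBot ℕ) →
    ∑ q ∈ F, b q * p.eval (q.1 : ℚ) * (J q) ^ c = 0) →
  ∀ q ∈ F, b q = 0

/-! ### The test polynomial -/

/-- `(J - 1) (J - 2) ⋯ (J - n)` -/
noncomputable def Pn (n : ℕ) : ℚ[X] := ∏ l ∈ range n, (X - C ((l : ℚ) + 1))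

/-- the coefficients of `(1 + x) (1 - x) ^ (-N - 1)` -/
def wt (N l : ℕ) : ℚ := (((N + l).choose l : ℕ) : ℚ) + (if l = 0 then 0 else (((N + l - 1).choose (l - 1) : ℕ) : ℚ))

/-- POS: the coefficient of `x ^ k` in `(1 + x) ^ (1 - Y) (1 - x) ^ (-N - 1)` is positive -/
def S_POS : Prop := ∀ k N Y : ℕ, 1 ≤ Y → Y ≤ N + 1 →
  0 < ∑ j ∈ range (k + 1), (-1 : ℚ) ^ j * (((Y + j - 1).choose j : ℕ) : ℚ) * wt N (k - j)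

/-- TEST: the test polynomial `∑ g b (t) (J - 1) ⋯ (J - (k - b))` -/
def S_TEST : Prop := ∀ k m Y : ℕ, 1 ≤ k → 2 * k ≤ m → 1 ≤ Y → Y + 2 * k ≤ m + 1 →
  ∃ g : ℕ → ℚ[X], (g 0).degree < ((1 : ℕ) : WithBot ℕ) ∧
    (∀ b, 1 ≤ b → b ≤ k → (g b).degree < ((2 * b : ℕ) : WithBot ℕ)) ∧
    (∀ t J : ℕ, 1 ≤ J → J ≤ t → t ≤ k →
      ∑ b ∈ range (k + 1), (g b).eval (t : ℚ) * (Pn (k - b)).eval (J : ℚ) = 0) ∧
    (∀ s i : ℕ, s < k → i ≤ s →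
      ∑ b ∈ range (k + 1), (g b).eval ((m : ℚ) - s) * (Pn (k - b)).eval ((Y : ℚ) + i) = 0) ∧
    ∑ b ∈ range (k + 1), (g b).eval 0 * (Pn (k - b)).eval 0 ≠ 0

/-! ### The rows in small multiplicity -/

/-- ROWS -/
def S_ROWS : Prop := ∀ (M m : ℕ) (K e : ℝ), 0 < M → (M : ℝ) < K → 2 * (K * (K - M)) = M → 0 ≤ e →
  e < 1 / 2 → (m : ℤ) ≤ 2 * ⌊e * (2 * K + 1)⌋ + 1 → ∀ g : ℕ, g < m →
    ((M : ℤ) + 2) * ((m : ℤ) - g) ≤ ⌊e + (K + 1) * ((m : ℝ) - g)⌋ +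
      ⌊(e + (K + 1) * ((m : ℝ) - g) - (K + 1)) / (2 * (K + 1) - 1)⌋ + 1

end Pool.Agent.N388.EF
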