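import Mathlib
import Pool.Agent.N388.EF.Stm

/-! Project EF: POS, a positive coefficient of a power series (by helper46) -/

set_option autoImplicit false

namespace Pool.Agent.N388.EF

namespace POS

open PowerSeries

/-- `(1 - X) ^ (-(d + 1))` -/
noncomputable def B (d : ℕ) : PowerSeries ℚ := PowerSeries.mk fun n => (Nat.choose (d + n) d : ℚ)

/-- `(1 + X) ^ (-(d + 1))` -/
noncomputable def A (d : ℕ) : PowerSeries ℚ :=
  PowerSeries.mk fun n => (-1) ^ n * (Nat.choose (d + n) d : ℚ)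

/-- `(1 - X ^ 2) ^ (-1)` -/
noncomputable def W : PowerSeries ℚ := PowerSeries.mk fun n => if Even n then (1 : ℚ) else 0

theorem B_mul (d : ℕ) : B d * (1 - X) ^ (d + 1) = 1 :=
  PowerSeries.mk_add_choose_mul_one_sub_pow_eq_one ℚ d

theorem A_mul (d : ℕ) : A d * (1 + X) ^ (d + 1) = 1 := by
  have h := congrArg (PowerSeries.rescale (-1 : ℚ)) (B_mul d)
  rw [map_mul, map_pow, map_sub, map_one] at h
  have h1 : PowerSeries.rescale (-1 : ℚ) (B d) = A d := by
    ext n
    rw [PowerSeries.coeff_rescale]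
    simp [A, B]
  have h2 : (1 : PowerSeries ℚ) - PowerSeries.rescale (-1 : ℚ) X = 1 + X := by
    ext n
    simp only [map_sub, map_add, PowerSeries.coeff_rescale, PowerSeries.coeff_X]
    split_ifs with hn
    · rw [hn]; ring
    · ring
  rw [h1, h2] at h
  exact h

theorem W_mul : W * (1 - X ^ 2) = 1 := by
  ext n
  rw [mul_sub, mul_one, map_sub, PowerSeries.coeff_mul_X_pow']
  rcases n with _ | _ | n
  · simp [W]
  · simp [W, PowerSeries.coeff_one]
  · simp [W, PowerSeries.coeff_one, Nat.even_add]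

theorem key (y N : ℕ) (h : y ≤ N) :
    A y * ((1 + X) * B N) = W ^ y * B (N - y) := by
  have hne1 : ((1 : PowerSeries ℚ) + X) ^ (y + 1) ≠ 0 := fun h0 => by
    have := A_mul y
    rw [h0, mul_zero] at this
    exact zero_ne_one this
  have hne2 : ((1 : PowerSeries ℚ) - X) ^ (N + 1) ≠ 0 := fun h0 => by
    have := B_mul N
    rw [h0, mul_zero] at this
    exact zero_ne_one this
  apply mul_right_cancel₀ (mul_ne_zero hne1 hne2)
  obtain ⟨M, rfl⟩ : ∃ M, N = y + M := ⟨N - y, by omega⟩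
  rw [Nat.add_sub_cancel_left]
  have h1 : A y * ((1 + X) * B (y + M)) * ((1 + X) ^ (y + 1) * (1 - X) ^ (y + M + 1)) =
      (A y * (1 + X) ^ (y + 1)) * (B (y + M) * (1 - X) ^ (y + M + 1)) * (1 + X) := by ring
  have h2 : W ^ y * B M * ((1 + X) ^ (y + 1) * (1 - X) ^ (y + M + 1)) =
      (W * (1 - X ^ 2)) ^ y * (B M * (1 - X) ^ (M + 1)) * (1 + X) := by
    have h4 : (1 : PowerSeries ℚ) - X ^ 2 = (1 + X) * (1 - X) := by ring
    rw [h4, mul_pow, mul_pow]
    ring
  rw [h1, h2, A_mul, B_mul, B_mul, W_mul]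
  simp

theorem nonneg_mul (P Q : PowerSeries ℚ) (hP : ∀ n, 0 ≤ PowerSeries.coeff n P)
    (hQ : ∀ n, 0 ≤ PowerSeries.coeff n Q) (n : ℕ) : 0 ≤ PowerSeries.coeff n (P * Q) := by
  rw [PowerSeries.coeff_mul]
  exact Finset.sum_nonneg fun p _ => mul_nonneg (hP _) (hQ _)

theorem W_pow (y : ℕ) : (∀ n, 0 ≤ PowerSeries.coeff n (W ^ y)) ∧
    PowerSeries.coeff 0 (W ^ y) = 1 := by
  induction y with
  | zero =>
    refine ⟨fun n => ?_, by simp⟩
    rw [pow_zero, PowerSeries.coeff_one]
    split_ifs <;> norm_num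
  | succ y ih =>
    refine ⟨fun n => ?_, ?_⟩
    · rw [pow_succ]
      apply nonneg_mul _ _ ih.1
      intro n
      simp only [W, PowerSeries.coeff_mk]
      split_ifs <;> norm_num
    · have h1 := ih.2
      rw [PowerSeries.coeff_zero_eq_constantCoeff] at h1 ⊢
      rw [pow_succ, map_mul, h1, one_mul, ← PowerSeries.coeff_zero_eq_constantCoeff_apply]
      simp only [W, PowerSeries.coeff_mk]
      simp

theorem pos (y d k : ℕ) : 0 < PowerSeries.coeff k (W ^ y * B d) := by
  rw [PowerSeries.coeff_mul]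
  apply Finset.sum_pos'
  · intro p _
    apply mul_nonneg ((W_pow y).1 _)
    simp only [B, PowerSeries.coeff_mk]
    positivity
  · refine ⟨(0, k), by simp, ?_⟩
    simp only [(W_pow y).2, one_mul, B, PowerSeries.coeff_mk]
    exact_mod_cast Nat.choose_pos (Nat.le_add_right d k)

theorem wt_eq (N l : ℕ) : PowerSeries.coeff l ((1 + X) * B N) = wt N l := by
  rw [add_mul, one_mul, map_add]
  unfold wt
  congr 1
  · simp only [B, PowerSeries.coeff_mk]
    rw [Nat.choose_symm_add]
  · rcases l with _ | l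
    · simp
    · rw [if_neg (Nat.succ_ne_zero l), PowerSeries.coeff_succ_X_mul]
      simp only [B, PowerSeries.coeff_mk]
      have h1 : N + (l + 1) - 1 = N + l := by omega
      have h2 : l + 1 - 1 = l := by omega
      rw [h1, h2, Nat.choose_symm_add]

end POS

theorem t_POS : S_POS := by
  intro k N Y hY hYN
  obtain ⟨y, rfl⟩ : ∃ y, Y = y + 1 := ⟨Y - 1, by omega⟩
  have h := POS.pos y (N - y) k
  rw [← POS.key y N (by omega), PowerSeries.coeff_mul,
    Finset.Nat.sum_antidiagonal_eq_sum_range_succ (fun i j =>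
      PowerSeries.coeff i (POS.A y) * PowerSeries.coeff j ((1 + PowerSeries.X) * POS.B N)) k] at h
  refine lt_of_lt_of_eq h ?_
  refine Finset.sum_congr rfl fun j _ => ?_
  rw [POS.wt_eq]
  simp only [POS.A, PowerSeries.coeff_mk]
  have h1 : y + 1 + j - 1 = y + j := by omega
  rw [h1, Nat.choose_symm_add]

end Pool.Agent.N388.EF
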