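import Pool.Agent.N388.EF.Stm

/-! Project EF (helper388), part PSI: polynomials divisible by powers of `X - 1` and their binomial
sums. -/

set_option autoImplicit false

namespace Pool.Agent.N388.EF

open Finset Polynomial

namespace PSI

lemma tay (f : ℚ[X]) (hi : ℕ) (h : ∀ j, f.coeff j ≠ 0 → j ≤ hi) (s : ℕ) :
    ∑ j ∈ range (hi + 1), f.coeff j * ((j.choose s : ℕ) : ℚ) = (f.comp (X + C 1)).coeff s := by
  have hd : f.natDegree < hi + 1 := by
    by_cases h0 : f = 0
    · rw [h0, natDegree_zero]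
      exact Nat.succ_pos _
    · have h1 := h f.natDegree (by
        rw [← leadingCoeff]
        exact leadingCoeff_ne_zero.2 h0)
      omega
  conv_rhs => rw [f.as_sum_range_C_mul_X_pow' hd]
  rw [Polynomial.sum_comp, finsetSum_coeff]
  refine sum_congr rfl fun j _ => ?_
  rw [mul_comp, C_comp, X_pow_comp, coeff_C_mul, coeff_X_add_C_pow, one_pow, one_mul]

lemma back (f : ℚ[X]) : (f.comp (X + C 1)).comp (X - C 1) = f := by
  rw [comp_assoc, add_comp, X_comp, C_comp, sub_add_cancel, comp_X]

lemma forth (f : ℚ[X]) : (f.comp (X - C 1)).comp (X + C 1) = f := by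
  rw [comp_assoc, sub_comp, X_comp, C_comp, add_sub_cancel_right, comp_X]

end PSI

open PSI in
theorem t_PSI : S_PSI := by
  intro t lo hi f hf hs
  have hfhi : ∀ j, f.coeff j ≠ 0 → j ≤ hi := fun j hj => (hf j hj).2
  have h1 : (X : ℚ[X]) ^ t ∣ f.comp (X + C 1) := by
    rw [X_pow_dvd_iff]
    intro s hst
    rw [← tay f hi hfhi s]
    exact hs s hst
  obtain ⟨g0, hg0⟩ := h1
  obtain ⟨g, hg⟩ : ∃ g : ℚ[X], g = g0.comp (X - C 1) := ⟨_, rfl⟩
  have hgg : g.comp (X + C 1) = g0 := by rw [hg, forth]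
  have hfg : f = (X - C 1) ^ t * g := by
    rw [← back f, hg0, mul_comp, X_pow_comp, hg]
  have hgc : ∀ l, g.coeff l ≠ 0 → lo ≤ l ∧ l + t ≤ hi := by
    intro l hl
    have hgne : g ≠ 0 := by
      intro h0
      rw [h0, coeff_zero] at hl
      exact hl rfl
    have hX : ((X : ℚ[X]) - C 1) ≠ 0 := X_sub_C_ne_zero 1
    have hfne : f ≠ 0 := by
      rw [hfg]
      exact mul_ne_zero (pow_ne_zero _ hX) hgne
    constructor
    · by_contra hlt
      push Not at hlt
      have h2 : (X : ℚ[X]) ^ lo ∣ f := by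
        rw [X_pow_dvd_iff]
        intro d hd
        by_contra hne
        have := (hf d hne).1
        omega
      rw [hfg] at h2
      have h3 : IsCoprime ((X : ℚ[X]) ^ lo) ((X - C 1) ^ t) := by
        apply IsCoprime.pow
        refine ⟨1, -1, ?_⟩
        rw [C_1]
        ring
      have h4 := h3.dvd_of_dvd_mul_left h2
      rw [X_pow_dvd_iff] at h4
      exact hl (h4 l hlt)
    · have h2 : f.natDegree = t + g.natDegree := by
        rw [hfg, natDegree_mul (pow_ne_zero _ hX) hgne, natDegree_pow, natDegree_X_sub_C, mul_one]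
      have h3 := le_natDegree_of_ne_zero hl
      have h4 := hfhi f.natDegree (by
        rw [← leadingCoeff]
        exact leadingCoeff_ne_zero.2 hfne)
      omega
  refine ⟨g, by rw [hfg, C_1], hgc, fun n => ?_⟩
  rw [tay f hi hfhi, tay g hi (fun l hl => by have := (hgc l hl).2; omega), hgg, hg0, add_comm t n,
    coeff_X_pow_mul]

end Pool.Agent.N388.EF
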