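import Pool.Agent.N388.EF.Stm

/-! Project EF (helper388), part SPAN: from binomial test functions to all polynomials of small
weight (helper170). -/

set_option autoImplicit false

namespace Pool.Agent.N388.EF

open Finset Polynomial

namespace SPAN

/-- the monic polynomial `(t + c) (t + c - 1) ⋯ (t + c - κ + 1)` -/
noncomputable def mo (c κ : ℕ) : ℚ[X] := (descPochhammer ℚ κ).comp (X + C (c : ℚ))

lemma mo_eval (c κ t : ℕ) :
    (mo c κ).eval (t : ℚ) = (κ.factorial : ℚ) * (((t + c).choose κ : ℕ) : ℚ) := by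
  unfold mo
  rw [eval_comp]
  have h1 : (X + C (c : ℚ)).eval (t : ℚ) = ((t + c : ℕ) : ℚ) := by simp
  rw [h1, descPochhammer_eval_eq_descFactorial, Nat.descFactorial_eq_factorial_mul_choose]
  push_cast
  ring

lemma mo_monic (c κ : ℕ) : (mo c κ).Monic :=
  (monic_descPochhammer ℚ κ).comp_X_add_C _

lemma mo_deg (c κ : ℕ) : (mo c κ).natDegree = κ := by
  unfold mo
  rw [natDegree_comp, natDegree_X_add_C, mul_one, descPochhammer_natDegree]

/-- step (1) -/
lemma one (F : Finset (ℕ × ℕ)) (b : ℕ × ℕ → ℚ) (M c i : ℕ)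
    (h : ∀ κ < M, ∑ q ∈ F, b q * (((q.1 + c).choose κ : ℕ) : ℚ) * ((q.2.choose i : ℕ) : ℚ) = 0)
    (n : ℕ) (hn : n ≤ M) : ∀ p : ℚ[X], p.degree < (n : WithBot ℕ) →
      ∑ q ∈ F, b q * p.eval (q.1 : ℚ) * ((q.2.choose i : ℕ) : ℚ) = 0 := by
  induction n with
  | zero =>
    intro p hp
    have : p = 0 := by
      rw [← degree_eq_bot]
      simpa using hp
    rw [this]
    simp
  | succ n ih =>
    intro p hp
    set a := p.coeff n with ha
    have hdeg : (p - C a * mo c n).degree < (n : WithBot ℕ) := by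
      rw [degree_lt_iff_coeff_zero]
      intro m hm
      rw [coeff_sub, coeff_C_mul]
      rcases Nat.eq_or_lt_of_le hm with h1 | h1
      · have h2 : (mo c n).coeff m = 1 := by
          have h3 := (mo_monic c n).coeff_natDegree
          rw [mo_deg] at h3
          rw [← h1]
          exact h3
        rw [h2, ← h1, ha]
        ring
      · have h2 : (mo c n).coeff m = 0 :=
          coeff_eq_zero_of_natDegree_lt (by rw [mo_deg]; exact h1)
        rw [h2, (degree_lt_iff_coeff_zero p (n + 1)).1 hp m h1]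
        ring
    have h1 := ih (by omega) _ hdeg
    have h2 := h n (by omega)
    have h3 : ∀ q : ℕ × ℕ, b q * p.eval (q.1 : ℚ) * ((q.2.choose i : ℕ) : ℚ) =
        b q * (p - C a * mo c n).eval (q.1 : ℚ) * ((q.2.choose i : ℕ) : ℚ) +
        (a * n.factorial) * (b q * (((q.1 + c).choose n : ℕ) : ℚ) * ((q.2.choose i : ℕ) : ℚ)) := by
      intro q
      rw [eval_sub, eval_mul, eval_C, mo_eval]
      ring
    simp only [h3]
    rw [sum_add_distrib, h1, ← mul_sum, h2]
    ring

/-- the polynomials `r k i` -/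
noncomputable def r (x : ℚ) : ℕ → ℕ → ℚ[X]
  | 0, 0 => 1
  | 0, _ + 1 => 0
  | k + 1, 0 => (C x - X) * r x k 0
  | k + 1, i + 1 => (C x - C ((i : ℚ) + 1) - X) * r x k (i + 1) - C ((i : ℚ) + 1) * r x k i

lemma r_zero (x : ℚ) : ∀ k i : ℕ, k < i → r x k i = 0 := by
  intro k
  induction k with
  | zero =>
    intro i hi
    obtain ⟨j, rfl⟩ := Nat.exists_eq_succ_of_ne_zero (by omega : i ≠ 0)
    rfl
  | succ k ih =>
    intro i hi
    obtain ⟨j, rfl⟩ := Nat.exists_eq_succ_of_ne_zero (by omega : i ≠ 0)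
    simp only [r]
    rw [ih (j + 1) (by omega), ih j (by omega)]
    ring

lemma r_deg (x : ℚ) : ∀ k i : ℕ, (r x k i).natDegree ≤ k - i := by
  intro k
  induction k with
  | zero =>
    intro i
    cases i with
    | zero => simp [r]
    | succ i => simp [r]
  | succ k ih =>
    intro i
    have hlin : ∀ a : ℚ, (C a - X : ℚ[X]).natDegree ≤ 1 := fun a => by
      refine (natDegree_sub_le _ _).trans (max_le (by simp) natDegree_X_le)
    cases i with
    | zero =>
      simp only [r]
      refine natDegree_mul_le.trans ?_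
      have := ih 0
      have h2 := hlin x
      omega
    | succ i =>
      by_cases hki : k < i + 1
      · simp only [r]
        rw [r_zero x k (i + 1) hki, mul_zero, zero_sub, natDegree_neg]
        refine natDegree_mul_le.trans ?_
        rw [natDegree_C]
        have := ih i
        omega
      · simp only [r]
        refine (natDegree_sub_le _ _).trans (max_le ?_ ?_)
        · refine natDegree_mul_le.trans ?_
          have h1 := ih (i + 1)
          have h2 : (C x - C ((i : ℚ) + 1) - X : ℚ[X]).natDegree ≤ 1 := by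
            rw [← C_sub]
            exact hlin _
          omega
        · refine natDegree_mul_le.trans ?_
          rw [natDegree_C]
          have := ih i
          omega

lemma choose_step (l i : ℕ) :
    ((l : ℚ) - i) * ((l.choose i : ℕ) : ℚ) = ((i : ℚ) + 1) * ((l.choose (i + 1) : ℕ) : ℚ) := by
  rcases Nat.lt_or_ge l i with h | h
  · rw [Nat.choose_eq_zero_of_lt h, Nat.choose_eq_zero_of_lt (by omega)]
    simp
  · have h1 := Nat.choose_succ_right_eq l i
    have h2 : (((l.choose (i + 1) * (i + 1) : ℕ)) : ℚ) = ((l.choose i * (l - i) : ℕ) : ℚ) := by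
      rw [h1]
    push_cast [Nat.cast_sub h] at h2
    linarith

/-- the expansion -/
lemma r_eval (x : ℚ) (t l : ℕ) : ∀ k : ℕ, (x - t - l) ^ k =
    ∑ i ∈ range (k + 1), (r x k i).eval (t : ℚ) * ((l.choose i : ℕ) : ℚ) := by
  intro k
  induction k with
  | zero => simp [r]
  | succ k ih =>
    have e1 : ∀ i : ℕ, (x - t - l) * ((l.choose i : ℕ) : ℚ) =
        (x - t - i) * ((l.choose i : ℕ) : ℚ) - ((i : ℚ) + 1) * ((l.choose (i + 1) : ℕ) : ℚ) := by
      intro i
      rw [← choose_step]
      ring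
    rw [pow_succ, ih, sum_mul]
    have e2 : ∑ i ∈ range (k + 1), (r x k i).eval (t : ℚ) * ((l.choose i : ℕ) : ℚ) * (x - t - l) =
        ∑ i ∈ range (k + 1), (x - t - i) * (r x k i).eval (t : ℚ) * ((l.choose i : ℕ) : ℚ) -
        ∑ i ∈ range (k + 1), ((i : ℚ) + 1) * (r x k i).eval (t : ℚ) *
          ((l.choose (i + 1) : ℕ) : ℚ) := by
      rw [← sum_sub_distrib]
      refine sum_congr rfl fun i _ => ?_
      have := e1 i
      linear_combination (r x k i).eval (t : ℚ) * this
    rw [e2, sum_range_succ' _ (k + 1)]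
    have e3 : ∑ i ∈ range (k + 1), (x - t - i) * (r x k i).eval (t : ℚ) * ((l.choose i : ℕ) : ℚ) =
        ∑ i ∈ range (k + 1), (x - t - ((i + 1 : ℕ) : ℚ)) * (r x k (i + 1)).eval (t : ℚ) *
          ((l.choose (i + 1) : ℕ) : ℚ) +
          (x - t) * (r x k 0).eval (t : ℚ) * ((l.choose 0 : ℕ) : ℚ) := by
      have h := sum_range_succ' (fun i : ℕ => (x - t - i) * (r x k i).eval (t : ℚ) *
        ((l.choose i : ℕ) : ℚ)) (k + 1)
      rw [sum_range_succ, r_zero x k (k + 1) (by omega)] at h
      simp only [eval_zero, mul_zero, zero_mul, add_zero, Nat.cast_zero, sub_zero] at h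
      exact h
    rw [e3]
    have e4 : ∀ i : ℕ, (r x (k + 1) (i + 1)).eval (t : ℚ) * ((l.choose (i + 1) : ℕ) : ℚ) =
        (x - t - ((i + 1 : ℕ) : ℚ)) * (r x k (i + 1)).eval (t : ℚ) * ((l.choose (i + 1) : ℕ) : ℚ) -
        ((i : ℚ) + 1) * (r x k i).eval (t : ℚ) * ((l.choose (i + 1) : ℕ) : ℚ) := by
      intro i
      simp only [r, eval_sub, eval_mul, eval_C, eval_X]
      push_cast
      ring
    simp only [e4]
    rw [sum_sub_distrib]
    simp only [r, eval_sub, eval_mul, eval_C, eval_X]
    ring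

/-- step (2) -/
lemma two (N : ℕ → ℕ) (hN : ∀ c, 0 < N (c + 1) → N (c + 1) < N c) (c : ℕ) (hc : 0 < N c) :
    ∀ j ≤ c, N c + j ≤ N (c - j) := by
  intro j
  induction j with
  | zero => intro _; simp
  | succ j ih =>
    intro hj
    have h1 := ih (by omega)
    have h2 : c - j = c - (j + 1) + 1 := by omega
    have h3 := hN (c - (j + 1)) (by rw [← h2]; omega)
    rw [← h2] at h3
    omega

end SPAN

open SPAN

theorem t_SPAN : S_SPAN := by
  intro F b x N hN h c p P hp hP
  by_cases hp0 : p = 0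
  · rw [hp0]; simp
  have hpn : p.natDegree < N c := by
    rw [degree_eq_natDegree hp0] at hp
    exact_mod_cast hp
  have hNc : 0 < N c := by omega
  -- the powers
  have hpow : ∀ k ≤ c, ∑ q ∈ F, b q * p.eval (q.1 : ℚ) * (x - q.1 - q.2) ^ k = 0 := by
    intro k hk
    have e1 : ∀ q : ℕ × ℕ, b q * p.eval (q.1 : ℚ) * (x - q.1 - q.2) ^ k =
        ∑ i ∈ range (k + 1), b q * (p * r x k i).eval (q.1 : ℚ) * ((q.2.choose i : ℕ) : ℚ) := by
      intro q
      rw [r_eval, mul_sum]
      refine sum_congr rfl fun i _ => ?_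
      rw [eval_mul]
      ring
    simp only [e1]
    rw [sum_comm]
    refine sum_eq_zero fun i hi => ?_
    rw [mem_range] at hi
    refine one F b (N i) i i (h i) (N i) le_rfl _ ?_
    have h1 : (p * r x k i).natDegree ≤ p.natDegree + (k - i) :=
      natDegree_mul_le.trans (Nat.add_le_add_left (r_deg x k i) _)
    have h2 := two N hN c hNc (c - i) (by omega)
    have h3 : c - (c - i) = i := by omega
    rw [h3] at h2
    have h4 : (p * r x k i).natDegree < N i := by omega
    exact degree_le_natDegree.trans_lt (by exact_mod_cast h4)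
  have e2 : ∀ q : ℕ × ℕ, b q * p.eval (q.1 : ℚ) * P.eval (x - q.1 - q.2) =
      ∑ k ∈ range (c + 1), P.coeff k * (b q * p.eval (q.1 : ℚ) * (x - q.1 - q.2) ^ k) := by
    intro q
    rw [eval_eq_sum_range' (Nat.lt_succ_of_le hP), mul_sum]
    refine sum_congr rfl fun k _ => ?_
    ring
  simp only [e2]
  rw [sum_comm]
  refine sum_eq_zero fun k hk => ?_
  rw [mem_range] at hk
  rw [← mul_sum, hpow k (by omega), mul_zero]

end Pool.Agent.N388.EF
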