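import Pool.Agent.N388.EF.Stm

/-! Project EF: VALa. -/

set_option autoImplicit false

namespace Pool.Agent.N388.EF

open Finset Polynomial Pool.Agent.TH176.Nag

namespace VALa

/-- multiplying by affine factors -/
lemma PF_prod {L : Type} [Field L] {w : ℕ} {Q : L × L → L} (hQ : Q ∈ PF L w) (c0 : ℕ → L)
    (c1 c2 : L) (n : ℕ) :
    (fun v : L × L => (∏ i ∈ range n, (c0 i + c1 * v.1 + c2 * v.2)) * Q v) ∈ PF L (w + n) := by
  induction n with
  | zero => simpa using hQ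
  | succ n ih =>
    have := PF_mul_aff ih (c0 n) c1 c2
    rw [show w + (n + 1) = w + n + 1 by ring]
    convert this using 2
    rw [prod_range_succ]
    ring

/-- the falling product is a factorial times a binomial coefficient -/
lemma prod_eq {L : Type} [Field L] (n b : ℕ) :
    (∏ i ∈ range b, ((n : L) - (i : L))) = ((b.factorial : ℕ) : L) * ((n.choose b : ℕ) : L) := by
  rw [← Nat.cast_mul, ← Nat.descFactorial_eq_factorial_mul_choose]
  induction b with
  | zero => simp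
  | succ b ih =>
    rw [prod_range_succ, ih, Nat.descFactorial_succ]
    rcases Nat.lt_or_ge n b with h | h
    · rw [Nat.descFactorial_of_lt h]
      simp
    · rw [Nat.cast_mul, Nat.cast_sub h]
      ring

/-- the one-variable coefficient -/
lemma coeff_one {L : Type} [Field L] [CharZero L] {v : L} (hv : v ≠ 0) (α b : ℕ) :
    v ^ (α - b) * ((α.choose b : ℕ) : L) =
      v ^ α * (v⁻¹) ^ b * (((b.factorial : ℕ) : L))⁻¹ * ∏ i ∈ range b, ((α : L) - (i : L)) := by
  rw [prod_eq]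
  have hb : ((b.factorial : ℕ) : L) ≠ 0 := by exact_mod_cast b.factorial_ne_zero
  rcases Nat.lt_or_ge α b with h | h
  · rw [Nat.choose_eq_zero_of_lt h]
    simp
  · have h1 : v ^ α = v ^ (α - b) * v ^ b := by
      rw [← pow_add, Nat.sub_add_cancel h]
    rw [h1, inv_pow]
    field_simp

/-- the test function -/
noncomputable def PP {L : Type} [Field L] (u : L) (T κ a : ℕ) : L × L → L := fun v =>
  ∑ q ∈ antidiagonal a,
    (∏ i ∈ range q.2, ((-(κ : L) - (i : L)) + 0 * v.1 + 1 * v.2)) *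
      ((∏ i ∈ range κ, ((-(i : L)) + 0 * v.1 + 1 * v.2)) *
        ((∏ i ∈ range q.1, (((T : L) + κ - (i : L)) + (-1) * v.1 + 0 * v.2)) *
          ((u⁻¹) ^ q.1 * ((1 + u)⁻¹) ^ q.2 * (((q.1.factorial : ℕ) : L))⁻¹ *
            (((κ.factorial : ℕ) : L))⁻¹ * (((q.2.factorial : ℕ) : L))⁻¹)))

lemma PP_mem {L : Type} [Field L] (u : L) {T κ a m : ℕ} (h : a + κ < m) :
    PP u T κ a ∈ PF L m := by
  have h1 : PP u T κ a = ∑ q ∈ antidiagonal a, (fun v : L × L =>
      (∏ i ∈ range q.2, ((-(κ : L) - (i : L)) + 0 * v.1 + 1 * v.2)) *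
      ((∏ i ∈ range κ, ((-(i : L)) + 0 * v.1 + 1 * v.2)) *
        ((∏ i ∈ range q.1, (((T : L) + κ - (i : L)) + (-1) * v.1 + 0 * v.2)) *
          ((u⁻¹) ^ q.1 * ((1 + u)⁻¹) ^ q.2 * (((q.1.factorial : ℕ) : L))⁻¹ *
            (((κ.factorial : ℕ) : L))⁻¹ * (((q.2.factorial : ℕ) : L))⁻¹)))) := by
    funext v
    simp only [PP, Finset.sum_apply]
  rw [h1]
  refine Submodule.sum_mem _ fun q hq => ?_
  rw [HasAntidiagonal.mem_antidiagonal] at hq
  refine PF_mono (w := 1 + q.1 + κ + q.2) (by omega) ?_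
  exact PF_prod (PF_prod (PF_prod (PF_const _ one_pos) _ _ _ _) _ _ _ _) _ _ _ _

/-- one term -/
lemma term {L : Type} [Field L] [CharZero L] {u : L} (hu : u ≠ 0) (hu1 : 1 + u ≠ 0)
    {T t j κ a : ℕ} (ht : t ≤ T) (c : L) :
    ((C (c * ((j.choose κ : ℕ) : L)) * X ^ (T - t + κ) * (1 + X) ^ (j - κ) : L[X]).comp
      (X + C u)).coeff a =
    u ^ (T + κ) * ((1 + u)⁻¹) ^ κ * (c * PP u T κ a ((t : L), (j : L)) *
      ((u⁻¹) ^ t * (1 + u) ^ j)) := by
  have e1 : (C (c * ((j.choose κ : ℕ) : L)) * X ^ (T - t + κ) * (1 + X) ^ (j - κ) : L[X]).comp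
      (X + C u) = C (c * ((j.choose κ : ℕ) : L)) *
        ((X + C u) ^ (T - t + κ) * (X + C (1 + u)) ^ (j - κ)) := by
    simp only [mul_comp, C_comp, pow_comp, X_comp, add_comp, one_comp]
    rw [mul_assoc]
    congr 3
    rw [C_add, C_1]
    ring
  rw [e1, coeff_C_mul, coeff_mul]
  simp only [coeff_X_add_C_pow]
  rcases Nat.lt_or_ge j κ with hj | hj
  · have h0 : PP u T κ a ((t : L), (j : L)) = 0 := by
      simp only [PP]
      refine sum_eq_zero fun q _ => ?_
      have : (∏ i ∈ range κ, ((-(i : L)) + 0 * (t : L) + 1 * (j : L))) = 0 := by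
        refine prod_eq_zero (mem_range.2 hj) ?_
        ring
      rw [this]
      ring
    rw [h0, Nat.choose_eq_zero_of_lt hj]
    simp
  · have hα : ((T - t + κ : ℕ) : L) = (T : L) + κ - t := by
      rw [Nat.cast_add, Nat.cast_sub ht]
      ring
    have hβ : ((j - κ : ℕ) : L) = (j : L) - κ := Nat.cast_sub hj
    have hκ : ((κ.factorial : ℕ) : L) ≠ 0 := by exact_mod_cast κ.factorial_ne_zero
    have hch : ((j.choose κ : ℕ) : L) =
        (((κ.factorial : ℕ) : L))⁻¹ * ∏ i ∈ range κ, ((j : L) - (i : L)) := by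
      rw [prod_eq, ← mul_assoc, inv_mul_cancel₀ hκ, one_mul]
    have hp1 : u ^ (T - t + κ) = u ^ (T + κ) * (u⁻¹) ^ t := by
      have : u ^ (T + κ) = u ^ (T - t + κ) * u ^ t := by
        rw [← pow_add]
        congr 1
        omega
      rw [this, mul_assoc, ← mul_pow, mul_inv_cancel₀ hu, one_pow, mul_one]
    have hp2 : (1 + u) ^ (j - κ) = (1 + u) ^ j * ((1 + u)⁻¹) ^ κ := by
      have : (1 + u) ^ j = (1 + u) ^ (j - κ) * (1 + u) ^ κ := by
        rw [← pow_add, Nat.sub_add_cancel hj]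
      rw [this, mul_assoc, ← mul_pow, mul_inv_cancel₀ hu1, one_pow, mul_one]
    simp only [PP]
    rw [mul_sum, mul_sum, sum_mul, mul_sum]
    refine sum_congr rfl fun q _ => ?_
    rw [coeff_one hu, coeff_one hu1, hα, hβ, hp1, hp2, hch]
    have g1 : (∏ i ∈ range q.1, ((T : L) + κ - t - (i : L))) =
        ∏ i ∈ range q.1, (((T : L) + κ - (i : L)) + (-1) * (t : L) + 0 * (j : L)) :=
      prod_congr rfl fun i _ => by ring
    have g2 : (∏ i ∈ range q.2, ((j : L) - κ - (i : L))) =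
        ∏ i ∈ range q.2, ((-(κ : L) - (i : L)) + 0 * (t : L) + 1 * (j : L)) :=
      prod_congr rfl fun i _ => by ring
    have g3 : (∏ i ∈ range κ, ((j : L) - (i : L))) =
        ∏ i ∈ range κ, ((-(i : L)) + 0 * (t : L) + 1 * (j : L)) :=
      prod_congr rfl fun i _ => by ring
    rw [g1, g2, g3]
    ring

end VALa

open VALa in
theorem t_VALa : S_VALa := by
  intro L _ _ u hu hu1 S T m κ hT hκ f hf hLM
  rw [X_sub_C_pow_dvd_iff, X_pow_dvd_iff]
  intro a ha
  have hmem : PP u T κ a ∈ PF L m := PP_mem u (by omega)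
  have h0 := hLM _ hmem
  -- the pairing as a sum over `S`
  have hinj : Set.InjOn (fun p : ℕ × ℕ => ((p.1 : ℤ), (p.2 : ℤ))) (S : Set (ℕ × ℕ)) := by
    intro p _ q _ h
    simp only [Prod.mk.injEq, Nat.cast_inj] at h
    exact Prod.ext h.1 h.2
  have hsub : f.support ⊆ S.image (fun p : ℕ × ℕ => ((p.1 : ℤ), (p.2 : ℤ))) := by
    intro q hq
    obtain ⟨s, hs, rfl⟩ := hf q hq
    exact mem_image_of_mem _ hs
  have hpr : pr f u⁻¹ (1 + u) (PP u T κ a) = ∑ p ∈ S, f ((p.1 : ℤ), (p.2 : ℤ)) *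
      PP u T κ a ((p.1 : L), (p.2 : L)) * ((u⁻¹) ^ p.1 * (1 + u) ^ p.2) := by
    unfold pr
    rw [Finsupp.sum_of_support_subset f hsub _ (fun i _ => by simp), sum_image hinj]
    refine sum_congr rfl fun p _ => ?_
    simp
  rw [hpr] at h0
  unfold HP
  rw [← coe_compRingHom_apply, map_sum, finsetSum_coeff]
  have : ∀ p ∈ S, ((compRingHom (X + C u)) (C (f ((p.1 : ℤ), (p.2 : ℤ)) * ((p.2.choose κ : ℕ) : L)) *
      X ^ (T - p.1 + κ) * (1 + X) ^ (p.2 - κ))).coeff a =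
      u ^ (T + κ) * ((1 + u)⁻¹) ^ κ * (f ((p.1 : ℤ), (p.2 : ℤ)) * PP u T κ a ((p.1 : L), (p.2 : L)) *
      ((u⁻¹) ^ p.1 * (1 + u) ^ p.2)) := by
    intro p hp
    rw [coe_compRingHom_apply]
    exact term hu hu1 (hT p hp) _
  rw [sum_congr rfl this, ← mul_sum, h0, mul_zero]

end Pool.Agent.N388.EF
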