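import Pool.Agent.N388.EF.Stm

/-! Project EF (helper388): divisibility modulo the parameter (written by helper530). -/

set_option autoImplicit false

namespace Pool.Agent.N388.EF

open Finset Polynomial

namespace VALb

/-- the roots -/
noncomputable def rt (N : ℕ) : Option (Fin N) → ℚ[X] :=
  fun o => o.elim 0 (fun i => C (((i : ℕ) : ℚ) + 1) * X)

/-- the multiplicities -/
def mu (N n v : ℕ) : Option (Fin N) → ℕ := fun o => o.elim v (fun _ => n)

theorem rt_inj (N : ℕ) : Function.Injective (rt N) := by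
  have h1 : ∀ i : Fin N, (rt N (some i)).coeff 1 = ((i : ℕ) : ℚ) + 1 := by
    intro i
    simp [rt]
  have h0 : (rt N none).coeff 1 = 0 := by simp [rt]
  intro a b hab
  have h2 : (rt N a).coeff 1 = (rt N b).coeff 1 := by rw [hab]
  cases a with
  | none =>
    cases b with
    | none => rfl
    | some j =>
      rw [h0, h1] at h2
      have : (0 : ℚ) ≤ ((j : ℕ) : ℚ) := Nat.cast_nonneg _
      linarith
  | some i =>
    cases b with
    | none =>
      rw [h0, h1] at h2
      have : (0 : ℚ) ≤ ((i : ℕ) : ℚ) := Nat.cast_nonneg _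
      linarith
    | some j =>
      rw [h1, h1, add_left_inj, Nat.cast_inj] at h2
      rw [Fin.ext h2]

end VALb

open VALb in
theorem t_VALb : S_VALb := by
  intro N n v H hv hi
  obtain ⟨ι, hι⟩ : ∃ ι : ℚ[X] →+* RatFunc ℚ, ι = algebraMap ℚ[X] (RatFunc ℚ) := ⟨_, rfl⟩
  have hinj : Function.Injective ι := by
    rw [hι]
    exact RatFunc.algebraMap_injective ℚ
  obtain ⟨Q, hQ⟩ : ∃ Q : ℚ[X][X], Q = ∏ o, (X - C (rt N o)) ^ (mu N n v o) := ⟨_, rfl⟩
  have hmap : ∀ (S : Type) [CommRing S] (φ : ℚ[X] →+* S),
      Q.map φ = ∏ o, (X - C (φ (rt N o))) ^ (mu N n v o) := by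
    intro S _ φ
    rw [hQ, Polynomial.map_prod]
    refine Finset.prod_congr rfl fun o _ => ?_
    rw [Polynomial.map_pow, Polynomial.map_sub, Polynomial.map_X, Polynomial.map_C]
  have hmon : Q.Monic := by
    rw [hQ]
    exact monic_prod_of_monic _ _ fun o _ => (monic_X_sub_C _).pow _
  have hdvd : Q.map ι ∣ H.map ι := by
    rw [hmap]
    apply Finset.prod_dvd_of_coprime
    · intro a _ b _ hab
      exact (pairwise_coprime_X_sub_C (hinj.comp (rt_inj N)) hab).pow
    · intro o _
      cases o with
      | none =>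
        have h1 : (X - C (ι (rt N none))) ^ (mu N n v none) = ((X : ℚ[X][X]) ^ v).map ι := by
          simp [rt, mu]
        rw [h1]
        exact Polynomial.map_dvd ι hv
      | some i =>
        have h1 := hi i
        rw [← hι] at h1
        exact h1
  have hdvd2 : Q ∣ H := (Polynomial.map_dvd_map ι hinj hmon).mp hdvd
  have h3 := Polynomial.map_dvd (evalRingHom (0 : ℚ)) hdvd2
  have h4 : Q.map (evalRingHom (0 : ℚ)) = X ^ (v + N * n) := by
    rw [hmap, Fintype.prod_option]
    have h5 : ∀ o, evalRingHom (0 : ℚ) (rt N o) = 0 := by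
      intro o
      cases o <;> simp [rt]
    simp only [h5, map_zero, sub_zero]
    rw [show mu N n v none = v from rfl]
    have h6 : ∀ i : Fin N, mu N n v (some i) = n := fun _ => rfl
    simp only [h6]
    rw [Finset.prod_const, card_univ, Fintype.card_fin, ← pow_mul, ← pow_add, mul_comm n N]
  rw [h4] at h3
  exact h3

end Pool.Agent.N388.EF
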