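import Pool.Agent.N388.EF.Stm

/-! Part VALc of project EF (helper388): emptiness from the relations over `ℚ`, clearing denominators. -/

set_option autoImplicit false

namespace Pool.Agent.N388.EF.VALc

open Finset Polynomial Pool.Agent.TH176.Nag Pool.Agent.N388.EF

theorem clear (S : Finset (ℕ × ℕ)) (F : ℕ × ℕ → RatFunc ℚ) (p0 : ℕ × ℕ) (hp0 : p0 ∈ S)
    (hF : F p0 ≠ 0) : ∃ (s : RatFunc ℚ) (g : ℕ × ℕ → ℚ[X]), s ≠ 0 ∧
      (∀ p ∈ S, s * F p = algebraMap ℚ[X] (RatFunc ℚ) (g p)) ∧ ∃ p ∈ S, (g p).eval 0 ≠ 0 := by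
  classical
  obtain ⟨b, hb⟩ := IsLocalization.exist_integer_multiples (nonZeroDivisors ℚ[X]) S F
  have hb0 : (b : ℚ[X]) ≠ 0 := nonZeroDivisors.coe_ne_zero b
  have hinj : Function.Injective (algebraMap ℚ[X] (RatFunc ℚ)) :=
    IsFractionRing.injective ℚ[X] (RatFunc ℚ)
  have hb' : algebraMap ℚ[X] (RatFunc ℚ) (b : ℚ[X]) ≠ 0 := by
    rw [Ne, map_eq_zero_iff _ hinj]
    exact hb0
  have hex : ∀ p : ℕ × ℕ, ∃ x : ℚ[X], p ∈ S →
      algebraMap ℚ[X] (RatFunc ℚ) x = algebraMap ℚ[X] (RatFunc ℚ) (b : ℚ[X]) * F p := by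
    intro p
    by_cases hp : p ∈ S
    · obtain ⟨x, hx⟩ := hb p hp
      refine ⟨x, fun _ => ?_⟩
      rw [hx, Algebra.smul_def]
    · exact ⟨0, fun h => absurd h hp⟩
  choose g0 hg0 using hex
  have hg0p : g0 p0 ≠ 0 := by
    intro h
    have := hg0 p0 hp0
    rw [h, map_zero] at this
    exact mul_ne_zero hb' hF this.symm
  let P : ℕ → Prop := fun e => ∀ p ∈ S, X ^ e ∣ g0 p
  have hP0 : P 0 := fun p _ => by simp
  obtain ⟨e, he⟩ : ∃ e, e = Nat.findGreatest P (g0 p0).natDegree := ⟨_, rfl⟩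
  have hPe : P e := by
    rw [he]
    exact Nat.findGreatest_spec (P := P) (Nat.zero_le _) hP0
  have hPe1 : ¬ P (e + 1) := by
    intro h
    by_cases hle : e + 1 ≤ (g0 p0).natDegree
    · exact Nat.findGreatest_is_greatest (P := P) (n := (g0 p0).natDegree) (k := e + 1)
        (by rw [← he]; omega) hle h
    · have h1 := natDegree_le_of_dvd (h p0 hp0) hg0p
      rw [natDegree_X_pow] at h1
      exact hle h1
  have hex2 : ∀ p : ℕ × ℕ, ∃ x : ℚ[X], p ∈ S → g0 p = X ^ e * x := by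
    intro p
    by_cases hp : p ∈ S
    · obtain ⟨x, hx⟩ := hPe p hp
      exact ⟨x, fun _ => hx⟩
    · exact ⟨0, fun h => absurd h hp⟩
  choose g hg using hex2
  have hX : algebraMap ℚ[X] (RatFunc ℚ) (X ^ e) ≠ 0 := by
    rw [Ne, map_eq_zero_iff _ hinj]
    exact pow_ne_zero _ X_ne_zero
  refine ⟨algebraMap ℚ[X] (RatFunc ℚ) (b : ℚ[X]) / algebraMap ℚ[X] (RatFunc ℚ) (X ^ e), g,
    div_ne_zero hb' hX, ?_, ?_⟩
  · intro p hp
    rw [div_mul_eq_mul_div, ← hg0 p hp, hg p hp, map_mul, mul_div_cancel_left₀ _ hX]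
  · have h1 : ∃ p ∈ S, ¬ X ^ (e + 1) ∣ g0 p := by
      by_contra h
      push Not at h
      exact hPe1 h
    obtain ⟨p, hp, hnd⟩ := h1
    refine ⟨p, hp, fun h => hnd ?_⟩
    rw [hg p hp, pow_succ]
    apply mul_dvd_mul_left
    rw [X_dvd_iff, coeff_zero_eq_eval_zero]
    exact h

theorem HP_map {L L' : Type} [CommRing L] [CommRing L'] (φ : L →+* L') (S : Finset (ℕ × ℕ))
    (T κ : ℕ) (g : ℕ × ℕ → L) : (HP S T κ g).map φ = HP S T κ (fun p => φ (g p)) := by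
  unfold HP
  rw [Polynomial.map_sum]
  refine Finset.sum_congr rfl fun p _ => ?_
  simp [Polynomial.map_mul, Polynomial.map_pow]

theorem HP_smul {L : Type} [CommRing L] (S : Finset (ℕ × ℕ)) (T κ : ℕ) (f g : ℕ × ℕ → L) (s : L)
    (h : ∀ p ∈ S, s * f p = g p) : HP S T κ g = C s * HP S T κ f := by
  unfold HP
  rw [Finset.mul_sum]
  refine Finset.sum_congr rfl fun p hp => ?_
  rw [← h p hp, mul_assoc s, C_mul]
  ring

theorem coeff_HP (S : Finset (ℕ × ℕ)) (T κ r : ℕ) (c : ℕ × ℕ → ℚ) :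
    (HP S T κ c).coeff r = ∑ p ∈ S, c p * ((p.2.choose κ : ℕ) : ℚ) *
      (if T - p.1 + κ ≤ r then (((p.2 - κ).choose (r - (T - p.1 + κ)) : ℕ) : ℚ) else 0) := by
  unfold HP
  rw [finsetSum_coeff]
  refine Finset.sum_congr rfl fun p _ => ?_
  rw [mul_assoc, coeff_C_mul, coeff_X_pow_mul', coeff_one_add_X_pow]

theorem X_dvd_HP {L : Type} [CommRing L] (S : Finset (ℕ × ℕ)) (T κ v : ℕ) (g : ℕ × ℕ → L)
    (h : ∀ p ∈ S, κ ≤ p.2 → v ≤ T - p.1 + κ) : (X : L[X]) ^ v ∣ HP S T κ g := by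
  unfold HP
  refine Finset.dvd_sum fun p hp => ?_
  by_cases hk : κ ≤ p.2
  · refine Dvd.dvd.mul_right (Dvd.dvd.mul_left (pow_dvd_pow _ (h p hp hk)) _) _
  · rw [Nat.choose_eq_zero_of_lt (by omega)]
    simp

end Pool.Agent.N388.EF.VALc

namespace Pool.Agent.N388.EF

open Finset Polynomial Pool.Agent.TH176.Nag

theorem t_VALc : S_VALa → S_VALb → S_VAL := by
  intro hVa hVb N m S B hB hc
  classical
  have hinj : Function.Injective (algebraMap ℚ[X] (RatFunc ℚ)) :=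
    IsFractionRing.injective ℚ[X] (RatFunc ℚ)
  have : CharZero (RatFunc ℚ) := by
    have h1 : Function.Injective ((algebraMap ℚ[X] (RatFunc ℚ)).comp C) :=
      hinj.comp C_injective
    exact charZero_of_injective_ringHom h1
  let u : Fin N → RatFunc ℚ := fun i => algebraMap ℚ[X] (RatFunc ℚ) (C (((i : ℕ) : ℚ) + 1) * X)
  have hu0 : ∀ i, u i ≠ 0 := by
    intro i
    change algebraMap ℚ[X] (RatFunc ℚ) (C (((i : ℕ) : ℚ) + 1) * X) ≠ 0
    rw [Ne, map_eq_zero_iff _ hinj]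
    apply mul_ne_zero _ X_ne_zero
    rw [Ne, C_eq_zero]
    positivity
  have hu1 : ∀ i, 1 + u i ≠ 0 := by
    intro i
    change 1 + algebraMap ℚ[X] (RatFunc ℚ) (C (((i : ℕ) : ℚ) + 1) * X) ≠ 0
    rw [← map_one (algebraMap ℚ[X] (RatFunc ℚ)), ← map_add, Ne, map_eq_zero_iff _ hinj]
    intro h
    have := congrArg (eval 0) h
    simp at this
  refine ⟨RatFunc ℚ, inferInstance, inferInstance, fun i => (u i)⁻¹, fun i => 1 + u i,
    fun i => inv_ne_zero (hu0 i), hu1, ?_⟩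
  intro f hfS hfL
  by_contra hf
  obtain ⟨q, hq⟩ := Finsupp.support_nonempty_iff.2 hf
  obtain ⟨p0, hp0, hqp⟩ := hfS hq
  let F : ℕ × ℕ → RatFunc ℚ := fun p => f ((p.1 : ℤ), (p.2 : ℤ))
  have hFp0 : F p0 ≠ 0 := by
    change f ((p0.1 : ℤ), (p0.2 : ℤ)) ≠ 0
    rw [← hqp]
    exact Finsupp.mem_support_iff.1 hq
  obtain ⟨s, g, hs0, hsg, p1, hp1, hgp1⟩ := VALc.clear S F p0 hp0 hFp0
  obtain ⟨T, hT⟩ : ∃ T : ℕ, T = S.sup Prod.fst := ⟨_, rfl⟩
  have hST : ∀ p ∈ S, p.1 ≤ T := fun p hp => by rw [hT]; exact Finset.le_sup (f := Prod.fst) hp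
  have hdiv : ∀ κ < m, (X : ℚ[X]) ^ ((((T : ℤ) - B κ).toNat) + N * (m - κ)) ∣
      HP S T κ (fun p => (g p).eval 0) := by
    intro κ hκ
    have h1 : (X : ℚ[X][X]) ^ (((T : ℤ) - B κ).toNat) ∣ HP S T κ g := by
      apply VALc.X_dvd_HP
      intro p hp hk
      have h2 := hB κ hκ p hp hk
      have h3 := hST p hp
      omega
    have h2 : ∀ i : Fin N, ((X : (RatFunc ℚ)[X]) -
        C (algebraMap ℚ[X] (RatFunc ℚ) (C (((i : ℕ) : ℚ) + 1) * X))) ^ (m - κ) ∣
        (HP S T κ g).map (algebraMap ℚ[X] (RatFunc ℚ)) := by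
      intro i
      rw [VALc.HP_map, VALc.HP_smul S T κ F _ s hsg]
      apply Dvd.dvd.mul_left
      refine hVa (RatFunc ℚ) (u i) (hu0 i) (hu1 i) S T m κ hST hκ f ?_ (hfL i)
      intro q hq
      exact hfS hq
    have h3 := hVb N (m - κ) _ (HP S T κ g) h1 h2
    rw [VALc.HP_map] at h3
    exact h3
  have hzero := hc (fun p => (g p).eval 0) (by
    intro κ hκ D hD
    unfold Rel
    rcases lt_or_ge (T : ℤ) D with hTD | hTD
    · rw [Finset.filter_false_of_mem, Finset.sum_empty]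
      intro p hp
      have := hST p hp
      omega
    · obtain ⟨r, hr⟩ : ∃ r : ℕ, (r : ℤ) = T - D := ⟨((T : ℤ) - D).toNat, by omega⟩
      have hNm : ((N * (m - κ) : ℕ) : ℤ) = (N : ℤ) * ((m : ℤ) - κ) := by
        push_cast [Nat.cast_sub hκ.le]
        ring
      have hrv : r < (((T : ℤ) - B κ).toNat) + N * (m - κ) := by
        have : (T : ℤ) - B κ ≤ (((T : ℤ) - B κ).toNat : ℤ) := Int.self_le_toNat _
        have h4 : (r : ℤ) < (((T : ℤ) - B κ).toNat : ℤ) + ((N * (m - κ) : ℕ) : ℤ) := by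
          rw [hNm, hr]; linarith
        exact_mod_cast h4
      have hcoef := (X_pow_dvd_iff.1 (hdiv κ hκ)) r hrv
      rw [VALc.coeff_HP] at hcoef
      refine Eq.trans ?_ hcoef
      rw [Finset.sum_filter]
      refine Finset.sum_congr rfl fun p hp => ?_
      have hpT := hST p hp
      by_cases hDp : D ≤ (p.1 : ℤ)
      · rw [if_pos hDp]
        obtain ⟨t, ht⟩ : ∃ t : ℕ, t = ((p.1 : ℤ) - D).toNat := ⟨_, rfl⟩
        have ht' : (t : ℤ) = p.1 - D := by omega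
        rw [← ht]
        by_cases hκt : κ ≤ t
        · rw [if_pos (by omega)]
          have e1 : r - (T - p.1 + κ) = t - κ := by omega
          rw [e1, mul_assoc, mul_assoc]
          congr 1
          rw [← Nat.cast_mul, ← Nat.cast_mul]
          congr 1
          by_cases htp : t ≤ p.2
          · exact Nat.choose_mul hκt
          · rw [Nat.choose_eq_zero_of_lt (show p.2 < t by omega), zero_mul]
            by_cases hk2 : κ ≤ p.2
            · rw [Nat.choose_eq_zero_of_lt (show p.2 - κ < t - κ by omega), mul_zero]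
            · rw [Nat.choose_eq_zero_of_lt (show p.2 < κ by omega), zero_mul]
        · rw [if_neg (by omega), Nat.choose_eq_zero_of_lt (show t < κ by omega)]
          simp
      · rw [if_neg hDp, if_neg (by omega), mul_zero])
  exact hgp1 (hzero p1 hp1)

end Pool.Agent.N388.EF
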