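import Pool.Agent.N388.EF.Num

/-! The number of columns of given height. -/

set_option autoImplicit false

namespace Pool.Agent.N388.EF

open Finset
open Pool.Agent.TH864.SX (Slp Blk)

variable {M : ℕ} {K : ℝ} {m x : ℕ}

/-- the exponents without the apex -/
noncomputable def F1 (K : ℝ) (m x : ℕ) : Finset (ℕ × ℕ) := by
  classical
  exact (FF K m x).erase (0, x)

theorem mem_F1 {q : ℕ × ℕ} : q ∈ F1 K m x ↔ q ≠ (0, x) ∧ q ∈ FF K m x := by
  classical
  unfold F1
  exact mem_erase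

theorem F1_pos {q : ℕ × ℕ} (hq : q ∈ F1 K m x) : 1 ≤ q.1 := by
  rw [mem_F1] at hq
  rcases q with ⟨t, l⟩
  rcases Nat.eq_zero_or_pos t with h1 | h1
  · exfalso
    subst h1
    have := Dat.FF_zero hq.2
    subst this
    exact hq.1 rfl
  · exact h1

theorem inj_col (F : Finset (ℕ × ℕ)) (t : ℕ) : Set.InjOn Prod.snd
    (↑(F.filter (fun q => q.1 = t)) : Set (ℕ × ℕ)) := by
  rintro ⟨a, b⟩ h1 ⟨a', b'⟩ h2 h3
  simp only [coe_filter, Set.mem_setOf_eq] at h1 h2
  simp only at h3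
  rw [h1.2, h2.2, h3]

namespace Dat

theorem irr' (h : Dat M K m x) {t : ℕ} (ht : 1 ≤ t) (n : ℕ) :
    (x : ℝ) - 2 * t - t / K ≠ n := by
  intro h1
  have hK := h.K0
  have htR : (t : ℝ) ≠ 0 := by
    have : 0 < t := ht
    positivity
  have h2 : ((x : ℝ) - 2 * t - n) * K = t := by
    have h3 : (x : ℝ) - 2 * t - n = t / K := by linarith
    rw [h3]
    exact div_mul_cancel₀ _ hK.ne'
  have h3 : ((x : ℝ) - 2 * t - n) ≠ 0 := by
    intro h4
    rw [h4, zero_mul] at h2
    exact htR h2.symm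
  apply h.sl.irr
  refine ⟨(t : ℚ) / ((x : ℚ) - 2 * t - n), ?_⟩
  push_cast
  rw [div_eq_iff h3, mul_comm]
  exact h2.symm

theorem col_le (h : Dat M K m x) {t : ℕ} (ht : 1 ≤ t) :
    ((F1 K m x).filter (fun q => q.1 = t)).card ≤ t := by
  classical
  rw [← card_image_of_injOn (inj_col (F1 K m x) t)]
  obtain ⟨α, hα⟩ : ∃ α : ℝ, α = (x : ℝ) - 2 * t - t / K := ⟨_, rfl⟩
  have h1 : α < (⌈α⌉₊ : ℝ) := by
    refine lt_of_le_of_ne (Nat.le_ceil α) ?_
    rw [hα]
    exact h.irr' ht _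
  have h2 : (((F1 K m x).filter (fun q => q.1 = t)).image Prod.snd) ⊆ Finset.Ico ⌈α⌉₊ (⌈α⌉₊ + t) := by
    intro l hl
    simp only [mem_image, mem_filter] at hl
    obtain ⟨⟨a, b⟩, ⟨hq, ha⟩, rfl⟩ := hl
    simp only at ha
    subst ha
    rw [mem_F1, mem_FF] at hq
    obtain ⟨-, -, h3, h4⟩ := hq
    simp only at h3 h4
    rw [mem_Ico]
    constructor
    · apply Nat.ceil_le.2
      rw [hα]
      linarith
    · have h5 : (b : ℝ) < ((⌈α⌉₊ + a : ℕ) : ℝ) := by
        push_cast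
        linarith
      exact_mod_cast h5
  have h3 := card_le_card h2
  rw [Nat.card_Ico] at h3
  omega

theorem col_le' (_h : Dat M K m x) {t c : ℕ}
    (hc : c < ((F1 K m x).filter (fun q => q.1 = t)).card) : (c : ℝ) ≤ (x : ℝ) - t - t / K := by
  classical
  obtain ⟨α, hα⟩ : ∃ α : ℝ, α = (x : ℝ) - t - t / K := ⟨_, rfl⟩
  rw [← hα]
  have hle : ∀ q ∈ (F1 K m x).filter (fun q => q.1 = t), (q.2 : ℝ) ≤ α := by
    rintro ⟨a, b⟩ hq
    simp only [mem_filter] at hq
    obtain ⟨hq, ha⟩ := hq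
    subst ha
    rw [mem_F1, mem_FF] at hq
    obtain ⟨-, -, h3, h4⟩ := hq
    simp only at h3 h4 ⊢
    linarith
  obtain ⟨q0, hq0⟩ := card_pos.1 (lt_of_le_of_lt (Nat.zero_le c) hc)
  have hα0 : 0 ≤ α := (Nat.cast_nonneg _).trans (hle q0 hq0)
  rw [← card_image_of_injOn (inj_col (F1 K m x) t)] at hc
  have h2 : (((F1 K m x).filter (fun q => q.1 = t)).image Prod.snd) ⊆ Finset.range (⌊α⌋₊ + 1) := by
    intro l hl
    rw [mem_image] at hl
    obtain ⟨q, hq, rfl⟩ := hl
    rw [mem_range, Nat.lt_succ_iff]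
    exact Nat.le_floor (hle q hq)
  have h3 := card_le_card h2
  rw [card_range] at h3
  have h4 : c ≤ ⌊α⌋₊ := by omega
  exact ((Nat.cast_le.2 h4)).trans (Nat.floor_le hα0)

theorem count (h : Dat M K m x) (c : ℕ) :
    (((F1 K m x).image Prod.fst).filter
      (fun t => c < ((F1 K m x).filter (fun q => q.1 = t)).card)).card ≤ NN K m x c := by
  classical
  have hK := h.K0
  obtain ⟨U, hU⟩ : ∃ U : ℕ, U = ⌊((x : ℝ) - c) * K / (K + 1)⌋₊ := ⟨_, rfl⟩
  have hsub : (((F1 K m x).image Prod.fst).filter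
      (fun t => c < ((F1 K m x).filter (fun q => q.1 = t)).card)) ⊆ Finset.Icc (c + 1) U := by
    intro t ht
    rw [mem_filter, mem_image] at ht
    obtain ⟨⟨q, hq, rfl⟩, hc⟩ := ht
    have h1 := F1_pos hq
    have h2 := h.col_le h1
    have h3 := h.col_le' hc
    rw [mem_Icc]
    refine ⟨by omega, ?_⟩
    rw [hU]
    apply Nat.le_floor
    rw [le_div_iff₀ (by linarith)]
    have h4 : ((q.1 : ℝ) + q.1 / K) * K = q.1 * (K + 1) := by field_simp
    rw [← h4]
    exact mul_le_mul_of_nonneg_right (by linarith) hK.le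
  have h1 := card_le_card hsub
  rw [Nat.card_Icc] at h1
  rcases Nat.lt_or_ge c U with hcU | hcU
  · have h2 : U - c - 1 < NN K m x c := by
      unfold NN
      rw [Nat.lt_ceil]
      have e1 : ((U - c - 1 : ℕ) : ℝ) = (U : ℝ) - c - 1 := by
        rw [Nat.cast_sub (by omega), Nat.cast_sub hcU.le]
        simp
      rw [e1]
      have hα0 : (0 : ℝ) ≤ ((x : ℝ) - c) * K / (K + 1) := by
        by_contra hcon
        push Not at hcon
        rw [Nat.floor_of_nonpos hcon.le] at hU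
        omega
      have h3 : (U : ℝ) ≤ ((x : ℝ) - c) * K / (K + 1) := by
        rw [hU]
        exact Nat.floor_le hα0
      have hK1 : 0 < K + 1 := by linarith
      rw [le_div_iff₀ hK1] at h3
      have h5 : (ee K m x + c) * (2 * K + 1) / (K + 1) < (m : ℝ) - U + c + 1 := by
        rw [div_lt_iff₀ hK1]
        have h6 := h.Kx
        have h7 := h.e12
        have h8 : ((x : ℝ) - c) * K = ee K m x + (K + 1) * m - c * K := by
          rw [sub_mul, mul_comm (x : ℝ) K, h6]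
        rw [h8] at h3
        nlinarith
      linarith
    omega
  · omega

end Dat

end Pool.Agent.N388.EF
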