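import Pool.Agent.N388.EF.Stm

set_option autoImplicit false

/-!
# Project EF (helper388), part ROWS: floors and real arithmetic
-/

namespace Pool.Agent.N388.EF

theorem t_ROWS : S_ROWS := by
  intro M m K e hM hMK hK he0 he1 hm g hg
  obtain ⟨l, hl⟩ : ∃ l : ℤ, l = (m : ℤ) - g := ⟨_, rfl⟩
  have hlr : (l : ℝ) = (m : ℝ) - g := by
    rw [hl]
    push_cast
    ring
  rw [← hl, ← hlr]
  have hl1 : 1 ≤ l := by omega
  have hlm : l ≤ m := by omega
  have hM0 : (0 : ℝ) < M := by exact_mod_cast hM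
  have hK0 : 0 < K := by linarith
  have hD : 0 < 2 * K + 1 := by linarith
  obtain ⟨z, hz⟩ : ∃ z : ℤ, z = ⌊e * (2 * K + 1)⌋ := ⟨_, rfl⟩
  rw [← hz] at hm
  have hze : (z : ℝ) ≤ e * (2 * K + 1) := by
    rw [hz]
    exact Int.floor_le _
  have key : ((M : ℝ) + 1 - K) * (2 * K + 1) = K + 1 := by linear_combination -hK
  have hD2 : 0 < 2 * (K + 1) - 1 := by linarith
  rcases Int.even_or_odd' l with ⟨c, hc | hc⟩
  · have hcz : c ≤ z := by omega
    have hc1 : (1 : ℝ) ≤ c := by
      have : 1 ≤ c := by omega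
      exact_mod_cast this
    have hcz' : (c : ℝ) ≤ z := by exact_mod_cast hcz
    have hlc : (l : ℝ) = 2 * c := by
      rw [hc]
      push_cast
      ring
    have f1 : ((M : ℤ) + 2) * l - c ≤ ⌊e + (K + 1) * (l : ℝ)⌋ := by
      rw [Int.le_floor]
      push_cast
      rw [hlc]
      have h1 : (((M : ℝ) + 1 - K) * (2 * c) - c) * (2 * K + 1) ≤ e * (2 * K + 1) := by
        have h2 : (((M : ℝ) + 1 - K) * (2 * c) - c) * (2 * K + 1) = c := by
          linear_combination (2 * (c : ℝ)) * key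
        rw [h2]
        linarith
      have h3 := le_of_mul_le_mul_right h1 hD
      linarith
    have f2 : c - 1 ≤ ⌊(e + (K + 1) * (l : ℝ) - (K + 1)) / (2 * (K + 1) - 1)⌋ := by
      rw [Int.le_floor, le_div_iff₀ hD2]
      push_cast
      rw [hlc]
      nlinarith
    linarith
  · have hcz : c ≤ z := by omega
    have hc0 : (0 : ℝ) ≤ c := by
      have : 0 ≤ c := by omega
      exact_mod_cast this
    have hcz' : (c : ℝ) ≤ z := by exact_mod_cast hcz
    have hlc : (l : ℝ) = 2 * c + 1 := by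
      rw [hc]
      push_cast
      ring
    have f1 : ((M : ℤ) + 2) * l - c - 1 ≤ ⌊e + (K + 1) * (l : ℝ)⌋ := by
      rw [Int.le_floor]
      push_cast
      rw [hlc]
      have h1 : (((M : ℝ) + 1 - K) * (2 * c + 1) - c - 1) * (2 * K + 1) ≤ e * (2 * K + 1) := by
        have h2 : (((M : ℝ) + 1 - K) * (2 * c + 1) - c - 1) * (2 * K + 1) = c - K := by
          linear_combination (2 * (c : ℝ) + 1) * key
        rw [h2]
        linarith
      have h3 := le_of_mul_le_mul_right h1 hD
      linarith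
    have f2 : c ≤ ⌊(e + (K + 1) * (l : ℝ) - (K + 1)) / (2 * (K + 1) - 1)⌋ := by
      rw [Int.le_floor, le_div_iff₀ hD2, hlc]
      nlinarith
    linarith

end Pool.Agent.N388.EF
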