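import Pool.Agent.N388.EF.Block
import Pool.Agent.N388.EF.ROWS
import Pool.Agent.TH469.SX.Fifteen

/-! 11 and 15 general points of one multiplicity: the degrees divisible by three with a small defect. -/

set_option autoImplicit false

namespace Pool.Agent.N388.EF

open Finset Pool.Agent.TH176.Nag Pool.Agent.TH603.Sur Pool.Agent.TH603.Cut Pool.Agent.TH641.NW
  Pool.Agent.H932R3
open Pool.Agent.TH864.SX (Slp Blk Fa Fb K11 num11 sq11 K11_lt)
open Pool.Agent.TH469.SX (K15 slp15 sq15 K15_lt)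

/-- one sector, from the block -/
theorem Emp_TZ9' {ι : Type} {w : ι → ℕ} {K : ℝ} {d : ℕ} (h9 : 9 < K) (h12 : K < 12)
    (hB : Emp w (Blk 9 K d)) : Emp w (TZ d) := by
  refine keyE ι w d (K / 3 - 3) (by linarith) (by linarith) ?_
  refine hB.comap (-1) (-6) 0 1 (2 * d) 0 (by norm_num) ?_
  rintro ⟨i, j⟩ hp
  simp only
  have e : ((-1 * i + -6 * j + 2 * (d : ℤ), 0 * i + 1 * j + 0) : ℤ × ℤ) =
      (2 * (d : ℤ) - i - 6 * j, j) := by
    ext
    · simp only; ring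
    · simp only; ring
  rw [e, Pool.Agent.TH864.SX.blk_reg]
  have e2 : ((2 * (d : ℤ) - (2 * (d : ℤ) - i - 6 * j) - 6 * j, j) : ℤ × ℤ) = (i, j) := by
    ext
    · simp only; ring
    · rfl
  rw [e2]
  exact hp

/-- three sectors, from the block -/
theorem Emp_TZ3' {ι : Type} [Finite ι] {w : ι → ℕ} {K : ℝ} {d : ℕ} (hK3 : 3 < K) (h6 : K < 6)
    (hB : Emp w (Blk 3 K d)) : Emp (Sum.elim (Sum.elim w w) w) (TZ d) := by
  obtain ⟨τ, hτ⟩ : ∃ τ : ℝ, τ = K / 3 - 1 := ⟨_, rfl⟩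
  have hτ0 : 0 < τ := by linarith
  have hτ1 : τ < 1 := by linarith
  have hK : K = 3 + 3 * τ := by linarith
  have hsec : ∀ i : ℕ, Emp w {p : ℤ × ℤ | 0 ≤ p.2 ∧
      ((i : ℝ) - 1 - τ) * ((d : ℝ) - 3 * p.2) ≤ p.1 ∧ (p.1 : ℝ) ≤ ((i : ℝ) - τ) * ((d : ℝ) - 3 * p.2)} := by
    intro i
    refine hB.comap (-1) (-(3 * (i : ℤ))) 0 1 (i * d) 0 (by norm_num) ?_
    rintro ⟨x, y⟩ ⟨g1, g2, g3⟩
    simp only at g1 g2 g3
    refine ⟨by simp only; omega, ?_, ?_⟩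
    · simp only
      rw [hK]
      push_cast
      linarith
    · simp only
      rw [hK]
      push_cast
      linarith
  refine keyE _ _ d τ hτ0 hτ1 ?_
  have hfin := Pool.Agent.TH469.SX.Reg_finite (α := -((d : ℝ) * (1 + τ))) (β := d * (2 - τ))
    (μ := 3 * (1 + τ)) (ν := 3 * (2 - τ)) (by linarith)
  set R := Reg (-((d : ℝ) * (1 + τ))) (d * (2 - τ)) (3 * (1 + τ)) (3 * (2 - τ)) with hR
  have hpos : ∀ p ∈ R, (0 : ℝ) ≤ (d : ℝ) - 3 * p.2 := by
    rintro ⟨x, y⟩ ⟨g1, g2, g3⟩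
    simp only at g1 g2 g3 ⊢
    nlinarith
  have hcov : R ⊆ ({p | p ∈ R ∧ (p.1 : ℝ) ≤ -τ * ((d : ℝ) - 3 * p.2)} ∪
      {p | p ∈ R ∧ -τ * ((d : ℝ) - 3 * p.2) < p.1 ∧ (p.1 : ℝ) ≤ (1 - τ) * ((d : ℝ) - 3 * p.2)}) ∪
      {p | p ∈ R ∧ (1 - τ) * ((d : ℝ) - 3 * p.2) < p.1} := by
    intro p hp
    rcases le_or_gt (p.1 : ℝ) (-τ * ((d : ℝ) - 3 * p.2)) with h1 | h1
    · exact Or.inl (Or.inl ⟨hp, h1⟩)
    · rcases le_or_gt (p.1 : ℝ) ((1 - τ) * ((d : ℝ) - 3 * p.2)) with h2 | h2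
      · exact Or.inl (Or.inr ⟨hp, h1, h2⟩)
      · exact Or.inr ⟨hp, h2⟩
  refine Emp.mono ?_ hcov
  refine Pool.Agent.TH469.SX.cut_E (ρ := -3 * (1 - τ)) (hfin.subset ?_) (hfin.subset fun p hp => hp.1) ?_
    (Pool.Agent.TH469.SX.cut_E (ρ := 3 * τ) (hfin.subset fun p hp => hp.1)
      (hfin.subset fun p hp => hp.1) ?_ ?_ ?_) ?_
  · rintro p (hp | hp)
    · exact hp.1
    · exact hp.1
  · rintro p (⟨hp, h1⟩ | ⟨hp, h1, h2⟩) p' ⟨hp', h3⟩
    · have := hpos p hp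
      nlinarith
    · linarith
  · rintro p ⟨hp, h1⟩ p' ⟨hp', h2, h3⟩
    linarith
  · refine (hsec 0).mono ?_
    rintro ⟨x, y⟩ ⟨⟨g1, g2, g3⟩, h1⟩
    simp only at g1 g2 g3 h1
    refine ⟨g1, ?_, ?_⟩
    · simp only; push_cast; linarith
    · simp only; push_cast; linarith
  · refine (hsec 1).mono ?_
    rintro ⟨x, y⟩ ⟨⟨g1, g2, g3⟩, h1, h2⟩
    simp only at g1 g2 g3 h1 h2
    refine ⟨g1, ?_, ?_⟩
    · simp only; push_cast; linarith
    · simp only; push_cast; linarith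
  · refine (hsec 2).mono ?_
    rintro ⟨x, y⟩ ⟨⟨g1, g2, g3⟩, h1⟩
    simp only at g1 g2 g3 h1
    refine ⟨g1, ?_, ?_⟩
    · simp only; push_cast; linarith
    · simp only; push_cast; linarith

/-- **the dichotomy in one block**, for small defect -/
theorem blk_dich {M : ℕ} {K : ℝ} (h : Slp M 2 K) {m x : ℕ} (e0 : 0 ≤ K * x - (K + 1) * m)
    (e1 : (K * x - (K + 1) * m) * (2 * K + 1) < M) :
    Emp (fun _ : Fin (M + 2) => m) (Blk M K (3 * x)) ∨
      Sur (fun _ : Fin (M + 2) => m) (Fb 2 K (3 * x)) := by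
  by_cases hm : 2 * ⌊(K * x - (K + 1) * m) * (2 * K + 1)⌋₊ + 2 ≤ m
  · left
    exact Dat.emp ⟨h, e0, e1, hm⟩
  right
  have hK0 := h.K0
  have hp1 : 0 < 2 * K + 1 := by linarith
  obtain ⟨e, he⟩ : ∃ e : ℝ, e = K * x - (K + 1) * m := ⟨_, rfl⟩
  rw [← he] at e0 e1 hm
  have heq : 2 * (K * (K - M)) = M := by
    have := h.eq
    push_cast at this
    exact this
  have hMK : (M : ℝ) < K := h.hMK
  have hKM : K - M < 1 / 2 := by
    by_contra hcon
    push Not at hcon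
    have h3 : (K - M) * (2 * K + 1) = K := by linear_combination heq
    have := mul_le_mul_of_nonneg_right hcon hp1.le
    linarith
  have e12 : e < 1 / 2 := by
    have h3 : (K - M) * (2 * K + 1) = K := by linear_combination heq
    have h4 : e < K - M := by
      refine lt_of_mul_lt_mul_right ?_ hp1.le
      linarith
    linarith
  have hrow := t_ROWS M m K e h.hM hMK heq e0 e12 (by
    have h1 : (⌊e * (2 * K + 1)⌋₊ : ℤ) = ⌊e * (2 * K + 1)⌋ :=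
      Int.natCast_floor_eq_floor (mul_nonneg e0 hp1.le)
    rw [← h1]
    omega)
  rw [Pool.Agent.TH469.SX.Fb_eq]
  refine Pool.Agent.TH469.SX.Sur_rows' (p := 1) (M := M) rfl hK0 (by simp) ?_
  intro k hk
  have h1 := hrow k hk
  have e2 : K * ((3 * x : ℕ) : ℝ) / 3 - (K + (1 : ℕ)) * k = e + (K + 1) * ((m : ℝ) - k) := by
    rw [he]
    push_cast
    ring
  rw [e2]
  push_cast
  simpa using h1

/-- **11 points** -/
theorem dich11 (m d : ℕ) (hG : ¬ 3 ∣ d ∨ (63 + 19 * √11) * ((d : ℝ) - √11 * m) < 18 ∨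
    √11 * (2 * m + 1) ≤ 2 * d + 3) :
    Emp (fun _ : Fin 11 => m) (TZ d) ∨ Sur (fun _ : Fin 11 => m) (TZ d) := by
  by_cases hold : ¬ 3 ∣ d ∨ (d : ℝ) < √((11 : ℕ) : ℝ) * m ∨ √((11 : ℕ) : ℝ) * (2 * m + 1) ≤ 2 * d + 3
  · exact Pool.Agent.TH864.SX.dich' num11 K11_lt m d hold
  push Not at hold
  push_cast at hold
  obtain ⟨h3, h4, h5⟩ := hold
  obtain ⟨x, rfl⟩ := h3
  have hG2 : (63 + 19 * √11) * (((3 * x : ℕ) : ℝ) - √11 * m) < 18 := by
    rcases hG with h6 | h6 | h6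
    · exact absurd (Dvd.intro x rfl) h6
    · exact h6
    · push_cast at h6 h5
      linarith
  have hs := sq11
  have hK9 : (9 : ℝ) < K11 := by have := num11.sl.hMK; push_cast at this; exact this
  have hsl : Slp 9 2 K11 := num11.sl
  push_cast at h4 hG2
  have e1 : K11 * x - (K11 + 1) * m = (3 + √11) / 2 * (3 * x - √11 * m) := by
    unfold K11
    linear_combination ((m : ℝ) / 2) * hs
  have e2 : (K11 * x - (K11 + 1) * m) * (2 * K11 + 1) =
      (63 + 19 * √11) / 2 * (3 * x - √11 * m) := by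
    rw [e1]
    unfold K11
    linear_combination (3 / 2 * (3 * (x : ℝ) - √11 * m)) * hs
  have hs0 : 0 ≤ √(11 : ℝ) := Real.sqrt_nonneg _
  rcases blk_dich hsl (m := m) (x := x) (by
      rw [e1]
      apply mul_nonneg (by positivity)
      linarith) (by
      rw [e2]
      push_cast
      linarith) with h7 | h7
  · left
    exact Emp_TZ9' hK9 K11_lt h7
  · right
    exact Pool.Agent.TH864.SX.Sur_TZ9 hsl K11_lt (h7.mono Pool.Agent.TH864.SX.Fb_subset)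

/-- **15 points** -/
theorem dich15 (m d : ℕ) (hG : ¬ 3 ∣ d ∨ (27 + 7 * √15) * ((d : ℝ) - √15 * m) < 18 ∨
    √15 * (2 * m + 1) ≤ 2 * d + 3) :
    Emp (fun _ : Fin 15 => m) (TZ d) ∨ Sur (fun _ : Fin 15 => m) (TZ d) := by
  by_cases hold : ¬ 3 ∣ d ∨ (d : ℝ) < √15 * m ∨ √15 * (2 * m + 1) ≤ 2 * d + 3
  · exact Pool.Agent.TH469.SX.dich_three (b := 5) slp15 K15_lt
      (Pool.Agent.TH469.SX.dich5 m d hold)
  push Not at hold
  obtain ⟨h3, h4, h5⟩ := hold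
  obtain ⟨x, rfl⟩ := h3
  have hG2 : (27 + 7 * √15) * (((3 * x : ℕ) : ℝ) - √15 * m) < 18 := by
    rcases hG with h6 | h6 | h6
    · exact absurd (Dvd.intro x rfl) h6
    · exact h6
    · linarith
  have hs := sq15
  have hK3 : (3 : ℝ) < K15 := by have := slp15.hMK; push_cast at this; exact this
  push_cast at h4 hG2
  have e1 : K15 * x - (K15 + 1) * m = (3 + √15) / 6 * (3 * x - √15 * m) := by
    unfold K15
    linear_combination ((m : ℝ) / 6) * hs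
  have e2 : (K15 * x - (K15 + 1) * m) * (2 * K15 + 1) =
      (27 + 7 * √15) / 6 * (3 * x - √15 * m) := by
    rw [e1]
    unfold K15
    linear_combination (1 / 6 * (3 * (x : ℝ) - √15 * m)) * hs
  have hs0 : 0 ≤ √(15 : ℝ) := Real.sqrt_nonneg _
  have h0 : 0 ≤ K15 * x - (K15 + 1) * m := by
    rw [e1]
    apply mul_nonneg (by positivity)
    linarith
  have h1 : (K15 * x - (K15 + 1) * m) * (2 * K15 + 1) < (3 : ℕ) := by
    rw [e2]
    push_cast
    linarith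
  rcases blk_dich slp15 (m := m) (x := x) h0 h1 with h7 | h7
  · left
    have e : (Fin 5 ⊕ Fin 5) ⊕ Fin 5 ≃ Fin 15 := by
      apply Fintype.equivOfCardEq
      simp
    have hw : ∀ i, (Sum.elim (Sum.elim (fun _ : Fin 5 => m) fun _ : Fin 5 => m)
        fun _ : Fin 5 => m) i = m := by
      rintro ((i | i) | i) <;> rfl
    exact Emp_emb (g := e) e.injective (fun i => by rw [hw]) (Emp_TZ3' hK3 K15_lt h7)
  · exact Pool.Agent.TH469.SX.dich_three (b := 5) slp15 K15_lt (Or.inr h7)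

/-- **11 points**: the expected dimension -/
theorem eleven (m : ℕ) :
    ∃ F : MvPolynomial (Fin 11 × Fin 2) ℚ, F ≠ 0 ∧ ∀ {L : Type} [Field L] [CharZero L]
      (P : Fin 11 → Fin 2 → L), MvPolynomial.aeval (fun ij : Fin 11 × Fin 2 => P ij.1 ij.2) F ≠ 0 →
      ∀ d : ℕ, (¬ 3 ∣ d ∨ (63 + 19 * √11) * ((d : ℝ) - √11 * m) < 18 ∨
        √11 * (2 * m + 1) ≤ 2 * d + 3) → ExpDim L (fun _ => m) P d :=
  Pool.Agent.TH864.SX.expDim_of_or' fun d hd => dich11 m d hd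

/-- **15 points**: the expected dimension -/
theorem fifteen (m : ℕ) :
    ∃ F : MvPolynomial (Fin 15 × Fin 2) ℚ, F ≠ 0 ∧ ∀ {L : Type} [Field L] [CharZero L]
      (P : Fin 15 → Fin 2 → L), MvPolynomial.aeval (fun ij : Fin 15 × Fin 2 => P ij.1 ij.2) F ≠ 0 →
      ∀ d : ℕ, (¬ 3 ∣ d ∨ (27 + 7 * √15) * ((d : ℝ) - √15 * m) < 18 ∨
        √15 * (2 * m + 1) ≤ 2 * d + 3) → ExpDim L (fun _ => m) P d :=
  Pool.Agent.TH864.SX.expDim_of_or' fun d hd => dich15 m d hd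

end Pool.Agent.N388.EF
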