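import Pool.Agent.N388.EF.Stm
import Pool.Agent.TH864.SX.L1

/-! The numbers of the block with `M + 2` points. -/

set_option autoImplicit false

namespace Pool.Agent.N388.EF

open Finset
open Pool.Agent.TH864.SX (Slp Blk)

/-- the data -/
structure Dat (M : ℕ) (K : ℝ) (m x : ℕ) : Prop where
  sl : Slp M 2 K
  e0 : 0 ≤ K * x - (K + 1) * m
  e1 : (K * x - (K + 1) * m) * (2 * K + 1) < M
  hm : 2 * ⌊(K * x - (K + 1) * m) * (2 * K + 1)⌋₊ + 2 ≤ m

/-- the defect -/
noncomputable def ee (K : ℝ) (m x : ℕ) : ℝ := K * x - (K + 1) * m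

/-- the number of conditions of index `c` -/
noncomputable def NN (K : ℝ) (m x c : ℕ) : ℕ := ⌈(m : ℝ) - (ee K m x + c) * (2 * K + 1) / (K + 1)⌉₊

/-- the index of the first slack -/
noncomputable def kk (K : ℝ) (m x : ℕ) : ℕ := ⌊ee K m x * (2 * K + 1)⌋₊ + 1

variable {M : ℕ} {K : ℝ} {m x : ℕ}

namespace Dat

theorem K0 (h : Dat M K m x) : 0 < K := h.sl.K0

theorem MK (h : Dat M K m x) : (M : ℝ) < K := h.sl.hMK

theorem M0 (h : Dat M K m x) : 0 < M := h.sl.hM

theorem eq (h : Dat M K m x) : 2 * (K * (K - M)) = M := by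
  have := h.sl.eq; push_cast at this; exact this

theorem eqK (h : Dat M K m x) : (K - M) * (2 * K + 1) = K := by
  have := h.eq; linear_combination this

theorem lam (h : Dat M K m x) : ((M : ℝ) + 1 - K) * (2 * K + 1) = K + 1 := by
  have := h.eq; linear_combination -this

theorem p1 (h : Dat M K m x) : 0 < 2 * K + 1 := by linarith [h.K0]

theorem KM (h : Dat M K m x) : K - M < 1 / 2 := by
  have h1 := h.eqK
  have h2 := h.p1
  have h3 := h.K0
  by_contra hcon
  push Not at hcon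
  have := mul_le_mul_of_nonneg_right hcon h2.le
  linarith

theorem e0' (h : Dat M K m x) : 0 ≤ ee K m x := h.e0

theorem e1' (h : Dat M K m x) : ee K m x * (2 * K + 1) < M := h.e1

theorem eKM (h : Dat M K m x) : ee K m x < K - M := by
  have h1 := h.e1'
  have h2 := h.eqK
  have h3 := h.MK
  have h4 := h.p1
  refine lt_of_mul_lt_mul_right ?_ h4.le
  linarith

theorem e12 (h : Dat M K m x) : ee K m x < 1 / 2 := h.eKM.trans h.KM

theorem Kx (_h : Dat M K m x) : K * x = ee K m x + (K + 1) * m := by unfold ee; ring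

theorem kM (h : Dat M K m x) : kk K m x ≤ M := by
  unfold kk
  have h1 : ⌊ee K m x * (2 * K + 1)⌋₊ < M := by
    rw [Nat.floor_lt (mul_nonneg h.e0' h.p1.le)]
    exact h.e1'
  omega

theorem k1 (_h : Dat M K m x) : 1 ≤ kk K m x := by unfold kk; omega

theorem km (h : Dat M K m x) : 2 * kk K m x ≤ m := by
  have := h.hm
  unfold kk ee
  omega

theorem ek (_h : Dat M K m x) : ee K m x * (2 * K + 1) < kk K m x := by
  unfold kk
  push_cast
  exact Nat.lt_floor_add_one _

theorem xm (h : Dat M K m x) : m < x := by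
  have h1 := h.Kx
  have h2 := h.e0'
  have h3 := h.K0
  have h5 : 0 < m := by have := h.hm; omega
  have h5R : (0 : ℝ) < m := by exact_mod_cast h5
  have h6 : K * (m : ℝ) < K * x := by rw [h1]; nlinarith
  have h7 := lt_of_mul_lt_mul_left h6 h3.le
  exact_mod_cast h7

/-- the abscissa of the right corner -/
theorem Y1 (h : Dat M K m x) : 1 ≤ x - m := by have := h.xm; omega

theorem YR (h : Dat M K m x) : K * ((x - m : ℕ) : ℝ) = ee K m x + m := by
  rw [Nat.cast_sub h.xm.le]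
  have := h.Kx
  linarith

theorem Y2 (h : Dat M K m x) : (x - m) + 2 * kk K m x ≤ m + 1 := by
  have h1 := h.YR
  have h2 := h.km
  have h3 := h.kM
  have h4 := h.eKM
  have h5 := h.K0
  have h6 := h.MK
  have h7 := h.M0
  obtain ⟨n, hn⟩ : ∃ n, m = 2 * kk K m x + n := ⟨m - 2 * kk K m x, by omega⟩
  have hmR : (m : ℝ) = 2 * (kk K m x : ℝ) + n := by exact_mod_cast hn
  have hkR : (kk K m x : ℝ) ≤ M := by exact_mod_cast h3
  have h8 : ((x - m : ℕ) : ℝ) < n + 2 := by
    have h9 : K * ((x - m : ℕ) : ℝ) < K * (n + 2) := by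
      rw [h1]
      have hn0 : (0 : ℝ) ≤ n := Nat.cast_nonneg n
      have hK1 : (1 : ℝ) ≤ K := by
        have : (1 : ℝ) ≤ M := by exact_mod_cast h7
        linarith
      nlinarith
    exact lt_of_mul_lt_mul_left h9 h5.le
  have h9 : x - m < n + 2 := by exact_mod_cast h8
  omega

/-- the number of conditions -/
theorem lt_NN (h : Dat M K m x) {κ c : ℕ} : κ < NN K m x c ↔
    (c : ℝ) < ((M : ℝ) + 1 - K) * ((m : ℝ) - κ) - ee K m x := by
  unfold NN
  rw [Nat.lt_ceil]
  have h1 := h.lam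
  have h2 := h.p1
  have h3 : 0 < K + 1 := by linarith [h.K0]
  have key : ((M : ℝ) + 1 - K) * ((m : ℝ) - κ) - ee K m x - c =
      (K + 1) / (2 * K + 1) * ((m : ℝ) - (ee K m x + c) * (2 * K + 1) / (K + 1) - κ) := by
    have h4 : (M : ℝ) + 1 - K = (K + 1) / (2 * K + 1) := by
      rw [eq_div_iff h2.ne']; exact h1
    rw [h4]
    have h5 := h2.ne'
    have h6 := h3.ne'
    have h7 : (K + 1) / (2 * K + 1) * ((m : ℝ) - (ee K m x + c) * (2 * K + 1) / (K + 1) - κ) =
        (K + 1) / (2 * K + 1) * ((m : ℝ) - κ) -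
          (ee K m x + c) * (((K + 1) / (2 * K + 1)) * ((2 * K + 1) / (K + 1))) := by ring
    have h8 : ((K + 1) / (2 * K + 1)) * ((2 * K + 1) / (K + 1)) = 1 := by
      rw [div_mul_div_comm, mul_comm (2 * K + 1) (K + 1)]
      exact div_self (mul_ne_zero h6 h5)
    rw [h7, h8]
    ring
  have h5 : 0 < (K + 1) / (2 * K + 1) := div_pos h3 h2
  constructor
  · intro h6
    have h7 : 0 < (m : ℝ) - (ee K m x + c) * (2 * K + 1) / (K + 1) - κ := by linarith
    have h8 := mul_pos h5 h7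
    rw [← key] at h8
    linarith
  · intro h6
    have h7 : 0 < ((M : ℝ) + 1 - K) * ((m : ℝ) - κ) - ee K m x - c := by linarith
    rw [key] at h7
    have h8 := (mul_pos_iff_of_pos_left h5).1 h7
    linarith

theorem lam0 (h : Dat M K m x) : 0 < (M : ℝ) + 1 - K := by linarith [h.KM]

theorem lam1 (h : Dat M K m x) : (M : ℝ) + 1 - K < 1 := by linarith [h.MK]

theorem NN_lt_m (h : Dat M K m x) {κ c : ℕ} (hκ : κ < NN K m x c) : κ < m := by
  have h1 := h.lt_NN.1 hκ
  have h2 := h.lam0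
  have h3 := h.e0'
  have hc : (0 : ℝ) ≤ c := Nat.cast_nonneg c
  have h4 : 0 < ((M : ℝ) + 1 - K) * ((m : ℝ) - κ) := by linarith
  have h5 := (mul_pos_iff_of_pos_left h2).1 h4
  have : (κ : ℝ) < m := by linarith
  exact_mod_cast this

/-- strictly decreasing -/
theorem NN_anti (h : Dat M K m x) (c : ℕ) (hc : 0 < NN K m x (c + 1)) :
    NN K m x (c + 1) < NN K m x c := by
  have h2 : NN K m x (c + 1) - 1 < NN K m x (c + 1) := by omega
  have h3 := h.lt_NN.1 h2
  rw [h.lt_NN]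
  have h4 : ((NN K m x (c + 1) - 1 : ℕ) : ℝ) = (NN K m x (c + 1) : ℝ) - 1 := by
    rw [Nat.cast_sub (by omega)]; simp
  rw [h4] at h3
  push_cast at h3
  have h5 := h.lam1
  nlinarith

theorem NN_low (h : Dat M K m x) {b : ℕ} (hb1 : 1 ≤ b) (hb : b ≤ kk K m x) :
    (m - 2 * kk K m x) + 2 * b ≤ NN K m x (kk K m x - b) := by
  have hkm := h.km
  have h2 : (m - 2 * kk K m x) + 2 * b - 1 < NN K m x (kk K m x - b) := by
    rw [h.lt_NN]
    have e1 : (((m - 2 * kk K m x) + 2 * b - 1 : ℕ) : ℝ) = (m : ℝ) - 2 * kk K m x + 2 * b - 1 := by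
      rw [Nat.cast_sub (by omega), Nat.cast_add, Nat.cast_sub hkm]
      push_cast
      ring
    have e2 : ((kk K m x - b : ℕ) : ℝ) = (kk K m x : ℝ) - b := by
      rw [Nat.cast_sub hb]
    rw [e1, e2]
    have h3 := h.lam
    have h4 := h.p1
    have h5 := h.e1'
    have h6 := h.MK
    have h7 : (b : ℝ) ≤ kk K m x := by exact_mod_cast hb
    refine lt_of_mul_lt_mul_right ?_ h4.le
    have e3 : (((M : ℝ) + 1 - K) * ((m : ℝ) - ((m : ℝ) - 2 * kk K m x + 2 * b - 1)) - ee K m x) * (2 * K + 1)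
        = (K + 1) * (2 * kk K m x - 2 * b + 1) - ee K m x * (2 * K + 1) := by
      linear_combination ((2 : ℝ) * kk K m x - 2 * b + 1) * h3
    rw [e3]
    nlinarith
  omega

theorem NN_k (h : Dat M K m x) : (m - 2 * kk K m x) < NN K m x (kk K m x) := by
  rw [h.lt_NN]
  have hkm := h.km
  rw [Nat.cast_sub hkm]
  have h3 := h.lam
  have h4 := h.p1
  have h5 := h.ek
  refine lt_of_mul_lt_mul_right ?_ h4.le
  have e3 : (((M : ℝ) + 1 - K) * ((m : ℝ) - ((m : ℝ) - ((2 * kk K m x : ℕ) : ℝ))) - ee K m x) * (2 * K + 1)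
      = (K + 1) * (2 * kk K m x) - ee K m x * (2 * K + 1) := by
    push_cast
    linear_combination ((2 : ℝ) * kk K m x) * h3
  rw [e3]
  have h6 : (0 : ℝ) ≤ kk K m x := Nat.cast_nonneg _
  nlinarith

end Dat

/-- the exponents `(t, l)` after the division by `(w - 1) ^ t` -/
noncomputable def FF (K : ℝ) (m x : ℕ) : Finset (ℕ × ℕ) := by
  classical
  exact (range (m + 1) ×ˢ range (x + 1)).filter (fun q =>
    (q.2 : ℝ) + q.1 + q.1 / K ≤ x ∧ (x : ℝ) ≤ q.2 + 2 * q.1 + q.1 / K)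

theorem mem_FF {q : ℕ × ℕ} : q ∈ FF K m x ↔ (q.1 ≤ m ∧ q.2 ≤ x) ∧
    (q.2 : ℝ) + q.1 + q.1 / K ≤ x ∧ (x : ℝ) ≤ q.2 + 2 * q.1 + q.1 / K := by
  classical
  unfold FF
  simp only [mem_filter, mem_product, mem_range, Nat.lt_succ_iff]

namespace Dat

/-- membership from the two inequalities -/
theorem mem_FF_of (h : Dat M K m x) {t l : ℕ} (h1 : (l : ℝ) + t + t / K ≤ x)
    (h2 : (x : ℝ) ≤ l + 2 * t + t / K) : (t, l) ∈ FF K m x := by
  rw [mem_FF]
  have hK := h.K0
  have ht : (0 : ℝ) ≤ t / K := by positivity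
  refine ⟨⟨?_, ?_⟩, h1, h2⟩
  · simp only
    have h3 : (t : ℝ) + t / K ≤ x := by
      have : (0 : ℝ) ≤ l := Nat.cast_nonneg l
      linarith
    have h4 : K * (t + t / K) ≤ K * x := mul_le_mul_of_nonneg_left h3 hK.le
    have e : K * ((t : ℝ) + t / K) = (K + 1) * t := by field_simp
    rw [e, h.Kx] at h4
    have h5 : (t : ℝ) < m + 1 := by
      have h6 := h.e12
      have h7 : (K + 1) * (t : ℝ) < (K + 1) * (m + 1) := by linarith
      exact lt_of_mul_lt_mul_left h7 (by linarith)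
    have h6 : t < m + 1 := by exact_mod_cast h5
    omega
  · simp only
    have h3 : (l : ℝ) ≤ x := by
      have : (0 : ℝ) ≤ t := Nat.cast_nonneg t
      linarith
    exact_mod_cast h3

/-- the apex column -/
theorem FF_zero {l : ℕ} (h1 : (0, l) ∈ FF K m x) : l = x := by
  rw [mem_FF] at h1
  obtain ⟨-, h2, h3⟩ := h1
  simp only [Nat.cast_zero, zero_div, add_zero, mul_zero] at h2 h3
  have h4 : (l : ℝ) = x := le_antisymm h2 h3
  exact_mod_cast h4

/-- a left column -/
theorem FF_left (h : Dat M K m x) {t l : ℕ} (ht1 : 1 ≤ t) (htk : t ≤ kk K m x)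
    (h1 : (t, l) ∈ FF K m x) : t + l < x ∧ x ≤ l + 2 * t := by
  rw [mem_FF] at h1
  obtain ⟨-, h2, h3⟩ := h1
  simp only at h2 h3
  have hK := h.K0
  have htR : (0 : ℝ) < t := by exact_mod_cast ht1
  have h4 : 0 < (t : ℝ) / K := by positivity
  have h5 : (t : ℝ) / K < 1 := by
    rw [div_lt_one hK]
    have h6 : (t : ℝ) ≤ M := by exact_mod_cast htk.trans h.kM
    exact lt_of_le_of_lt h6 h.MK
  constructor
  · have : ((t + l : ℕ) : ℝ) < x := by push_cast; linarith
    exact_mod_cast this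
  · have : ((x : ℕ) : ℝ) < ((l + 2 * t + 1 : ℕ) : ℝ) := by push_cast; linarith
    have := Nat.cast_lt.1 this
    omega

/-- a right column -/
theorem FF_right (h : Dat M K m x) {s l : ℕ} (hs : s < kk K m x)
    (h1 : (m - s, l) ∈ FF K m x) : (m - s) + l + (x - m) ≤ x ∧ x ≤ (m - s) + l + (x - m) + s := by
  rw [mem_FF] at h1
  obtain ⟨-, h2, h3⟩ := h1
  simp only at h2 h3
  have hK := h.K0
  have hkm := h.km
  have hx := h.xm
  have hsR : (s : ℝ) ≤ m := by
    have : s ≤ m := by omega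
    exact_mod_cast this
  have e1 : ((m - s : ℕ) : ℝ) = (m : ℝ) - s := by rw [Nat.cast_sub (by omega)]
  rw [e1] at h2 h3
  have hY := h.YR
  have e2 : ((x - m : ℕ) : ℝ) = (x : ℝ) - m := by rw [Nat.cast_sub hx.le]
  have hk : (s : ℝ) + 1 ≤ M := by
    have : s + 1 ≤ M := by have := h.kM; omega
    exact_mod_cast this
  -- `x - m - 1 < (m - s) / K`
  have h4 : ((x - m : ℕ) : ℝ) - 1 < ((m : ℝ) - s) / K := by
    rw [lt_div_iff₀ hK]
    have h5 := h.e12
    have h6 := h.MK
    nlinarith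
  constructor
  · -- `J ≥ x - m`
    have h5 : (((x - m : ℕ) : ℝ)) < (x : ℝ) - (((m - s : ℕ) : ℝ) + l) + 1 := by
      rw [e1]
      linarith
    have h6 : ((x - m + (m - s) + l : ℕ) : ℝ) < ((x + 1 : ℕ) : ℝ) := by
      push_cast
      linarith
    have h7 := Nat.cast_lt.1 h6
    omega
  · omega

end Dat

end Pool.Agent.N388.EF
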