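import Pool.Agent.N388.EF.Stm2
import Pool.Agent.N388.EF.POS

/-! Project EF, second part: POS2, lower bound of a coefficient of a power series (by helper878) -/

set_option autoImplicit false

namespace Pool.Agent.N388.EF

namespace POS2

open PowerSeries Pool.Agent.N388.EF.POS

theorem W2 (y : ℕ) : (y : ℚ) ≤ PowerSeries.coeff 2 (W ^ y) := by
  induction y with
  | zero =>
    rw [pow_zero, PowerSeries.coeff_one]
    norm_num
  | succ y ih =>
    have h0 := (W_pow y).2
    have h1 := (W_pow y).1 1
    have e : (Finset.HasAntidiagonal.antidiagonal 2 : Finset (ℕ × ℕ)) = {(0, 2), (1, 1), (2, 0)} := by decide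
    have w0 : PowerSeries.coeff 0 W = 1 := by simp only [W, PowerSeries.coeff_mk]; simp
    have w1 : PowerSeries.coeff 1 W = 0 := by simp only [W, PowerSeries.coeff_mk]; simp
    have w2 : PowerSeries.coeff 2 W = 1 := by simp only [W, PowerSeries.coeff_mk]; simp
    rw [pow_succ, PowerSeries.coeff_mul, e, Finset.sum_insert (by decide),
      Finset.sum_insert (by decide), Finset.sum_singleton, w0, w1, w2, h0]
    push_cast
    linarith

theorem B1 (d n : ℕ) : 1 ≤ PowerSeries.coeff n (B d) := by
  simp only [B, PowerSeries.coeff_mk]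
  exact_mod_cast Nat.choose_pos (Nat.le_add_right d n)

theorem low (y d k : ℕ) (hk : 2 ≤ k) : (y : ℚ) + 1 ≤ PowerSeries.coeff k (W ^ y * B d) := by
  rw [PowerSeries.coeff_mul]
  have hsub : ({(0, k), (2, k - 2)} : Finset (ℕ × ℕ)) ⊆ Finset.HasAntidiagonal.antidiagonal k := by
    intro p hp
    rw [Finset.mem_insert, Finset.mem_singleton] at hp
    rw [Finset.HasAntidiagonal.mem_antidiagonal]
    rcases hp with rfl | rfl
    · simp
    · show 2 + (k - 2) = k
      omega
  have h1 := Finset.sum_le_sum_of_subset_of_nonneg (f := fun p : ℕ × ℕ =>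
    PowerSeries.coeff p.1 (W ^ y) * PowerSeries.coeff p.2 (B d)) hsub (fun p _ _ =>
      mul_nonneg ((W_pow y).1 _) (zero_le_one.trans (B1 d _)))
  refine le_trans ?_ h1
  rw [Finset.sum_insert (by simp), Finset.sum_singleton]
  have a1 := B1 d k
  have a2 := B1 d (k - 2)
  have a3 := W2 y
  have a4 := (W_pow y).2
  simp only [a4, one_mul]
  have a5 : (y : ℚ) ≤ PowerSeries.coeff 2 (W ^ y) * PowerSeries.coeff (k - 2) (B d) := by
    have hy : (0 : ℚ) ≤ y := Nat.cast_nonneg y
    nlinarith
  linarith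

end POS2

theorem t_POS2 : S_POS2 := by
  intro k N Y hk hY hYN
  obtain ⟨y, rfl⟩ : ∃ y, Y = y + 1 := ⟨Y - 1, by omega⟩
  have h := POS2.low y (N - y) k hk
  rw [← POS.key y N (by omega), PowerSeries.coeff_mul,
    Finset.Nat.sum_antidiagonal_eq_sum_range_succ (fun i j =>
      PowerSeries.coeff i (POS.A y) * PowerSeries.coeff j ((1 + PowerSeries.X) * POS.B N)) k] at h
  rw [Nat.cast_succ]
  refine le_of_le_of_eq h ?_
  refine Finset.sum_congr rfl fun j _ => ?_
  rw [POS.wt_eq]
  simp only [POS.A, PowerSeries.coeff_mk]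
  have h1 : y + 1 + j - 1 = y + j := by omega
  rw [h1, Nat.choose_symm_add]

end Pool.Agent.N388.EF
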