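import Pool.Agent.N388.EF.Cnt

/-! The relations of the block. -/

set_option autoImplicit false

namespace Pool.Agent.N388.EF

open Finset Polynomial Pool.Agent.TH176.Nag
open Pool.Agent.TH864.SX (Slp Blk)

variable {M : ℕ} {K : ℝ} {m x : ℕ}

/-- the points of the block -/
noncomputable def SS (M : ℕ) (K : ℝ) (x : ℕ) : Finset (ℕ × ℕ) := by
  classical
  exact (range (⌊K * x⌋₊ + 1) ×ˢ range (x + 1)).filter (fun p =>
    (K - M) * ((x : ℝ) - p.2) ≤ p.1 ∧ (p.1 : ℝ) ≤ K * ((x : ℝ) - p.2))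

theorem mem_SS {p : ℕ × ℕ} : p ∈ SS M K x ↔ (p.1 ≤ ⌊K * x⌋₊ ∧ p.2 ≤ x) ∧
    (K - M) * ((x : ℝ) - p.2) ≤ p.1 ∧ (p.1 : ℝ) ≤ K * ((x : ℝ) - p.2) := by
  classical
  unfold SS
  simp only [mem_filter, mem_product, mem_range, Nat.lt_succ_iff]

/-- the coefficients, extended by zero -/
noncomputable def cc (M : ℕ) (K : ℝ) (x : ℕ) (c : ℕ × ℕ → ℚ) (p : ℕ × ℕ) : ℚ := by
  classical
  exact if p ∈ SS M K x then c p else 0

theorem cc_in {c : ℕ × ℕ → ℚ} {p : ℕ × ℕ} (hp : p ∈ SS M K x) : cc M K x c p = c p := by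
  classical
  unfold cc
  rw [if_pos hp]

theorem cc_out {c : ℕ × ℕ → ℚ} {p : ℕ × ℕ} (hp : p ∉ SS M K x) : cc M K x c p = 0 := by
  classical
  unfold cc
  rw [if_neg hp]

/-- the moments of a column -/
noncomputable def AA (M : ℕ) (K : ℝ) (x : ℕ) (c : ℕ × ℕ → ℚ) (t s : ℕ) : ℚ :=
  ∑ j ∈ range (x + 1), cc M K x c (t, j) * ((j.choose s : ℕ) : ℚ)

theorem rel_iff (c : ℕ × ℕ → ℚ) (κ : ℕ) (D : ℤ) : Rel (SS M K x) c κ D ↔
    ∑ t ∈ range (⌊K * x⌋₊ + 1), (if D ≤ (t : ℤ) then AA M K x c t ((t : ℤ) - D).toNat *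
      ((((t : ℤ) - D).toNat.choose κ : ℕ) : ℚ) else 0) = 0 := by
  classical
  unfold Rel
  have e : ∑ p ∈ (SS M K x).filter (fun p => D ≤ (p.1 : ℤ)),
      c p * ((p.2.choose ((p.1 : ℤ) - D).toNat : ℕ) : ℚ) *
        ((((p.1 : ℤ) - D).toNat.choose κ : ℕ) : ℚ) =
      ∑ t ∈ range (⌊K * x⌋₊ + 1), (if D ≤ (t : ℤ) then AA M K x c t ((t : ℤ) - D).toNat *
        ((((t : ℤ) - D).toNat.choose κ : ℕ) : ℚ) else 0) := by
    rw [sum_filter]
    have e1 : ∑ p ∈ SS M K x, (if D ≤ (p.1 : ℤ) then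
          c p * ((p.2.choose ((p.1 : ℤ) - D).toNat : ℕ) : ℚ) *
            ((((p.1 : ℤ) - D).toNat.choose κ : ℕ) : ℚ) else 0) =
        ∑ p ∈ range (⌊K * x⌋₊ + 1) ×ˢ range (x + 1), (if D ≤ (p.1 : ℤ) then
          cc M K x c p * ((p.2.choose ((p.1 : ℤ) - D).toNat : ℕ) : ℚ) *
            ((((p.1 : ℤ) - D).toNat.choose κ : ℕ) : ℚ) else 0) := by
      have hsub : SS M K x ⊆ range (⌊K * x⌋₊ + 1) ×ˢ range (x + 1) := by
        unfold SS
        exact filter_subset _ _
      rw [← sum_subset hsub]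
      · apply sum_congr rfl
        intro p hp
        rw [cc_in hp]
      · intro p _ hp
        rw [cc_out hp]
        simp
    rw [e1, sum_product]
    apply sum_congr rfl
    intro t _
    by_cases hD : D ≤ (t : ℤ)
    · simp only [hD, if_true]
      unfold AA
      rw [sum_mul]
    · simp only [hD, if_false]
      exact sum_const_zero
  rw [e]

/-- triangular systems -/
theorem tri (m : ℕ) (a : ℕ → ℚ)
    (h : ∀ κ < m, ∑ s ∈ range m, a s * ((s.choose κ : ℕ) : ℚ) = 0) : ∀ s < m, a s = 0 := by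
  have key : ∀ n, ∀ s < m, m ≤ s + n + 1 → a s = 0 := by
    intro n
    induction n with
    | zero =>
      intro s hs h1
      have h2 := h s hs
      rw [sum_eq_single s] at h2
      · simpa using h2
      · intro b hb hbs
        have h3 := mem_range.1 hb
        rw [Nat.choose_eq_zero_of_lt (by omega)]
        simp
      · intro h3
        exact absurd (mem_range.2 hs) h3
    | succ n ih =>
      intro s hs h1
      have h2 := h s hs
      rw [sum_eq_single s] at h2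
      · simpa using h2
      · intro b hb hbs
        have h3 := mem_range.1 hb
        rcases Nat.lt_or_ge b s with h4 | h4
        · rw [Nat.choose_eq_zero_of_lt h4]
          simp
        · rw [ih b h3 (by omega)]
          simp
      · intro h3
        exact absurd (mem_range.2 hs) h3
  intro s hs
  exact key m s hs (by omega)

theorem AA_ne {c : ℕ × ℕ → ℚ} {t s : ℕ} (h0 : 0 < K) (h : AA M K x c t s ≠ 0) :
    t ≤ ⌊K * x⌋₊ ∧ (t : ℝ) ≤ K * ((x : ℝ) - s) := by
  unfold AA at h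
  obtain ⟨j, -, hj⟩ := exists_ne_zero_of_sum_ne_zero h
  have h1 : cc M K x c (t, j) ≠ 0 := fun h2 => hj (by rw [h2, zero_mul])
  have h2 : (t, j) ∈ SS M K x := by
    by_contra h3
    exact h1 (cc_out h3)
  have h3 : j.choose s ≠ 0 := fun h4 => hj (by rw [h4]; simp)
  have h4 : s ≤ j := by
    by_contra h5
    exact h3 (Nat.choose_eq_zero_of_lt (by omega))
  rw [mem_SS] at h2
  refine ⟨h2.1.1, h2.2.2.trans ?_⟩
  have h5 : (s : ℝ) ≤ j := by exact_mod_cast h4
  simp only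
  exact mul_le_mul_of_nonneg_left (by linarith) h0.le

namespace Dat

/-- the relations of positive index -/
theorem pos_rel (h : Dat M K m x) (c : ℕ × ℕ → ℚ)
    (hc : ∀ κ < m, ∀ D : ℤ, 1 ≤ D → Rel (SS M K x) c κ D) {t s : ℕ} (hst : s < t) :
    AA M K x c t s = 0 := by
  obtain ⟨D, rfl⟩ : ∃ D, t = D + s := ⟨t - s, by omega⟩
  have hD : 1 ≤ D := by omega
  have hzero : ∀ s, m ≤ s → AA M K x c (D + s) s = 0 := by
    intro s hs
    by_contra h1
    have h2 := (AA_ne h.K0 h1).2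
    have h3 := h.Kx
    have h4 := h.e12
    have h5 : (1 : ℝ) ≤ D := by exact_mod_cast hD
    have h6 : (m : ℝ) ≤ s := by exact_mod_cast hs
    have h7 := h.K0
    rw [mul_sub, h3] at h2
    push_cast at h2
    nlinarith
  rcases Nat.lt_or_ge s m with hs | hs
  swap
  · exact hzero s hs
  refine tri m (fun s => AA M K x c (D + s) s) ?_ s hs
  intro κ hκ
  have h1 := (rel_iff c κ (D : ℤ)).1 (hc κ hκ D (by exact_mod_cast hD))
  have e1 : ∑ t ∈ range (⌊K * x⌋₊ + 1), (if (D : ℤ) ≤ (t : ℤ) then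
        AA M K x c t ((t : ℤ) - D).toNat * ((((t : ℤ) - D).toNat.choose κ : ℕ) : ℚ) else 0) =
      ∑ t ∈ range (D + (m + (⌊K * x⌋₊ + 1))), (if (D : ℤ) ≤ (t : ℤ) then
        AA M K x c t ((t : ℤ) - D).toNat * ((((t : ℤ) - D).toNat.choose κ : ℕ) : ℚ) else 0) := by
    apply sum_subset
    · intro t ht
      rw [mem_range] at ht ⊢
      omega
    · intro t _ ht
      rw [mem_range] at ht
      have h2 : AA M K x c t ((t : ℤ) - D).toNat = 0 := by
        by_contra h3
        have := (AA_ne h.K0 h3).1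
        omega
      rw [h2, zero_mul]
      split_ifs <;> rfl
  rw [e1, sum_range_add] at h1
  have e2 : ∑ t ∈ range D, (if (D : ℤ) ≤ (t : ℤ) then
        AA M K x c t ((t : ℤ) - D).toNat * ((((t : ℤ) - D).toNat.choose κ : ℕ) : ℚ) else 0) = 0 := by
    apply sum_eq_zero
    intro t ht
    rw [mem_range] at ht
    rw [if_neg (by omega)]
  rw [e2, zero_add] at h1
  rw [← h1]
  have e3 : range m ⊆ range (m + (⌊K * x⌋₊ + 1)) := by
    intro t ht
    rw [mem_range] at ht ⊢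
    omega
  rw [← sum_subset e3]
  · apply sum_congr rfl
    intro s _
    have e4 : (((D + s : ℕ) : ℤ) - D).toNat = s := by omega
    rw [e4, if_pos (by omega)]
  · intro s _ hs'
    rw [mem_range] at hs'
    have e4 : (((D + s : ℕ) : ℤ) - D).toNat = s := by omega
    rw [e4, if_pos (by omega), hzero s (by omega), zero_mul]

/-- the relations of negative index -/
theorem neg_rel (c : ℕ × ℕ → ℚ) (κ n : ℕ) (hc : Rel (SS M K x) c κ (-(n : ℤ))) :
    ∑ t ∈ range (⌊K * x⌋₊ + 1), AA M K x c t (t + n) * (((t + n).choose κ : ℕ) : ℚ) = 0 := by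
  have h1 := (rel_iff c κ _).1 hc
  rw [← h1]
  apply sum_congr rfl
  intro t _
  have e4 : ((t : ℤ) - -(n : ℤ)).toNat = t + n := by omega
  rw [e4, if_pos (by omega)]

end Dat

end Pool.Agent.N388.EF
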