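import Pool.Agent.N388.EF.Stm

/-! Project EF (helper388), second part: the first column with a shifted window. -/

set_option autoImplicit false

namespace Pool.Agent.N388.EF

open Finset Polynomial

/-- POS2: the coefficient of `x ^ k` in `(1 + x) ^ (1 - Y) (1 - x) ^ (-N - 1)` is at least `Y` -/
def S_POS2 : Prop := ∀ k N Y : ℕ, 2 ≤ k → 1 ≤ Y → Y ≤ N + 1 →
  (Y : ℚ) ≤ ∑ j ∈ range (k + 1), (-1 : ℚ) ^ j * (((Y + j - 1).choose j : ℕ) : ℚ) * wt N (k - j)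

/-- TEST2: the test polynomial when the window of the column `k` is `2, ..., k + 1` -/
def S_TEST2 : Prop := ∀ k m Y : ℕ, 2 ≤ k → 2 * k ≤ m → 1 ≤ Y → Y + 2 * k ≤ m + 1 →
  (-1 : ℚ) ^ k * (∑ j ∈ range (k + 1), (-1 : ℚ) ^ j * (((Y + j - 1).choose j : ℕ) : ℚ) *
    wt (m - 2 * k) (k - j)) + (((k : ℚ) - 1) * Y - m) ≠ 0 →
  ∃ g : ℕ → ℚ[X], (g 0).degree < ((1 : ℕ) : WithBot ℕ) ∧
    (∀ b, 1 ≤ b → b ≤ k → (g b).degree < ((2 * b : ℕ) : WithBot ℕ)) ∧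
    (∀ t J : ℕ, 1 ≤ J → J ≤ t → t < k →
      ∑ b ∈ range (k + 1), (g b).eval (t : ℚ) * (Pn (k - b)).eval (J : ℚ) = 0) ∧
    (∀ J : ℕ, 2 ≤ J → J ≤ k + 1 →
      ∑ b ∈ range (k + 1), (g b).eval (k : ℚ) * (Pn (k - b)).eval (J : ℚ) = 0) ∧
    (∀ s i : ℕ, s < k → i ≤ s →
      ∑ b ∈ range (k + 1), (g b).eval ((m : ℚ) - s) * (Pn (k - b)).eval ((Y : ℚ) + i) = 0) ∧
    ∑ b ∈ range (k + 1), (g b).eval 0 * (Pn (k - b)).eval 0 ≠ 0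

end Pool.Agent.N388.EF
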