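import Pool.Agent.N388.EF.VALa
import Pool.Agent.N388.EF.VALb
import Pool.Agent.N388.EF.VALc

/-! Emptiness from the relations for arbitrary multiplicities (adapted from the files VALb by helper530
and VALc by helper896). -/

set_option autoImplicit false

namespace Pool.Agent.N388.EF

open Finset Polynomial Pool.Agent.TH176.Nag

/-- the multiplicities -/
def muw (N v : ℕ) (n : Fin N → ℕ) : Option (Fin N) → ℕ := fun o => o.elim v n

open VALb in
/-- divisibility modulo the parameter, arbitrary exponents -/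
theorem VALbw (N v : ℕ) (n : Fin N → ℕ) (H : ℚ[X][X]) (hv : (X : ℚ[X][X]) ^ v ∣ H)
    (hi : ∀ i : Fin N, ((X : (RatFunc ℚ)[X]) -
      C (algebraMap ℚ[X] (RatFunc ℚ) (C (((i : ℕ) : ℚ) + 1) * X))) ^ (n i) ∣
      H.map (algebraMap ℚ[X] (RatFunc ℚ))) :
    (X : ℚ[X]) ^ (v + ∑ i, n i) ∣ H.map (evalRingHom (0 : ℚ)) := by
  obtain ⟨ι, hι⟩ : ∃ ι : ℚ[X] →+* RatFunc ℚ, ι = algebraMap ℚ[X] (RatFunc ℚ) := ⟨_, rfl⟩
  have hinj : Function.Injective ι := by
    rw [hι]
    exact RatFunc.algebraMap_injective ℚ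
  obtain ⟨Q, hQ⟩ : ∃ Q : ℚ[X][X], Q = ∏ o, (X - C (rt N o)) ^ (muw N v n o) := ⟨_, rfl⟩
  have hmap : ∀ (S : Type) [CommRing S] (φ : ℚ[X] →+* S),
      Q.map φ = ∏ o, (X - C (φ (rt N o))) ^ (muw N v n o) := by
    intro S _ φ
    rw [hQ, Polynomial.map_prod]
    refine Finset.prod_congr rfl fun o _ => ?_
    rw [Polynomial.map_pow, Polynomial.map_sub, Polynomial.map_X, Polynomial.map_C]
  have hmon : Q.Monic := by
    rw [hQ]
    exact monic_prod_of_monic _ _ fun o _ => (monic_X_sub_C _).pow _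
  have hdvd : Q.map ι ∣ H.map ι := by
    rw [hmap]
    apply Finset.prod_dvd_of_coprime
    · intro a _ b _ hab
      exact (pairwise_coprime_X_sub_C (hinj.comp (rt_inj N)) hab).pow
    · intro o _
      cases o with
      | none =>
        have h1 : (X - C (ι (rt N none))) ^ (muw N v n none) = ((X : ℚ[X][X]) ^ v).map ι := by
          simp [rt, muw]
        rw [h1]
        exact Polynomial.map_dvd ι hv
      | some i =>
        have h1 := hi i
        rw [← hι] at h1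
        exact h1
  have hdvd2 : Q ∣ H := (Polynomial.map_dvd_map ι hinj hmon).mp hdvd
  have h3 := Polynomial.map_dvd (evalRingHom (0 : ℚ)) hdvd2
  have h4 : Q.map (evalRingHom (0 : ℚ)) = X ^ (v + ∑ i, n i) := by
    rw [hmap, Fintype.prod_option]
    have h5 : ∀ o, evalRingHom (0 : ℚ) (rt N o) = 0 := by
      intro o
      cases o <;> simp [rt]
    simp only [h5, map_zero, sub_zero]
    rw [show muw N v n none = v from rfl]
    have h6 : ∀ i : Fin N, muw N v n (some i) = n i := fun _ => rfl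
    simp only [h6]
    rw [Finset.prod_pow_eq_pow_sum, ← pow_add]
  rw [h4] at h3
  exact h3

/-- emptiness from the relations, arbitrary multiplicities -/
theorem VALw (N : ℕ) (w : Fin N → ℕ) (S : Finset (ℕ × ℕ)) (B : ℕ → ℤ)
    (hB : ∀ κ, ∀ p ∈ S, κ ≤ p.2 → (p.1 : ℤ) - κ ≤ B κ)
    (hc : ∀ c : ℕ × ℕ → ℚ, (∀ κ : ℕ, ∀ D : ℤ, B κ - ((∑ i, (w i - κ) : ℕ) : ℤ) < D → Rel S c κ D) →
      ∀ p ∈ S, c p = 0) :
    Emp w {p : ℤ × ℤ | ∃ s ∈ S, p = ((s.1 : ℤ), (s.2 : ℤ))} := by
  classical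
  have hinj : Function.Injective (algebraMap ℚ[X] (RatFunc ℚ)) :=
    IsFractionRing.injective ℚ[X] (RatFunc ℚ)
  have : CharZero (RatFunc ℚ) := by
    have h1 : Function.Injective ((algebraMap ℚ[X] (RatFunc ℚ)).comp C) :=
      hinj.comp C_injective
    exact charZero_of_injective_ringHom h1
  let u : Fin N → RatFunc ℚ := fun i => algebraMap ℚ[X] (RatFunc ℚ) (C (((i : ℕ) : ℚ) + 1) * X)
  have hu0 : ∀ i, u i ≠ 0 := by
    intro i
    change algebraMap ℚ[X] (RatFunc ℚ) (C (((i : ℕ) : ℚ) + 1) * X) ≠ 0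
    rw [Ne, map_eq_zero_iff _ hinj]
    apply mul_ne_zero _ X_ne_zero
    rw [Ne, C_eq_zero]
    positivity
  have hu1 : ∀ i, 1 + u i ≠ 0 := by
    intro i
    change 1 + algebraMap ℚ[X] (RatFunc ℚ) (C (((i : ℕ) : ℚ) + 1) * X) ≠ 0
    rw [← map_one (algebraMap ℚ[X] (RatFunc ℚ)), ← map_add, Ne, map_eq_zero_iff _ hinj]
    intro h
    have := congrArg (eval 0) h
    simp at this
  refine ⟨RatFunc ℚ, inferInstance, inferInstance, fun i => (u i)⁻¹, fun i => 1 + u i,
    fun i => inv_ne_zero (hu0 i), hu1, ?_⟩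
  intro f hfS hfL
  by_contra hf
  obtain ⟨q, hq⟩ := Finsupp.support_nonempty_iff.2 hf
  obtain ⟨p0, hp0, hqp⟩ := hfS hq
  let F : ℕ × ℕ → RatFunc ℚ := fun p => f ((p.1 : ℤ), (p.2 : ℤ))
  have hFp0 : F p0 ≠ 0 := by
    change f ((p0.1 : ℤ), (p0.2 : ℤ)) ≠ 0
    rw [← hqp]
    exact Finsupp.mem_support_iff.1 hq
  obtain ⟨s, g, hs0, hsg, p1, hp1, hgp1⟩ := VALc.clear S F p0 hp0 hFp0
  obtain ⟨T, hT⟩ : ∃ T : ℕ, T = S.sup Prod.fst := ⟨_, rfl⟩
  have hST : ∀ p ∈ S, p.1 ≤ T := fun p hp => by rw [hT]; exact Finset.le_sup (f := Prod.fst) hp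
  have hdiv : ∀ κ, (X : ℚ[X]) ^ ((((T : ℤ) - B κ).toNat) + ∑ i, (w i - κ)) ∣
      HP S T κ (fun p => (g p).eval 0) := by
    intro κ
    have h1 : (X : ℚ[X][X]) ^ (((T : ℤ) - B κ).toNat) ∣ HP S T κ g := by
      apply VALc.X_dvd_HP
      intro p hp hk
      have h2 := hB κ p hp hk
      have h3 := hST p hp
      omega
    have h2 : ∀ i : Fin N, ((X : (RatFunc ℚ)[X]) -
        C (algebraMap ℚ[X] (RatFunc ℚ) (C (((i : ℕ) : ℚ) + 1) * X))) ^ (w i - κ) ∣
        (HP S T κ g).map (algebraMap ℚ[X] (RatFunc ℚ)) := by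
      intro i
      rw [VALc.HP_map, VALc.HP_smul S T κ F _ s hsg]
      apply Dvd.dvd.mul_left
      rcases Nat.lt_or_ge κ (w i) with hκ | hκ
      swap
      · rw [Nat.sub_eq_zero_of_le hκ, pow_zero]
        exact one_dvd _
      refine t_VALa (RatFunc ℚ) (u i) (hu0 i) (hu1 i) S T (w i) κ hST hκ f ?_ (hfL i)
      intro q hq
      exact hfS hq
    have h3 := VALbw N _ (fun i => w i - κ) (HP S T κ g) h1 h2
    rw [VALc.HP_map] at h3
    exact h3
  have hzero := hc (fun p => (g p).eval 0) (by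
    intro κ D hD
    unfold Rel
    rcases lt_or_ge (T : ℤ) D with hTD | hTD
    · rw [Finset.filter_false_of_mem, Finset.sum_empty]
      intro p hp
      have := hST p hp
      omega
    · obtain ⟨r, hr⟩ : ∃ r : ℕ, (r : ℤ) = T - D := ⟨((T : ℤ) - D).toNat, by omega⟩
      have hrv : r < (((T : ℤ) - B κ).toNat) + ∑ i, (w i - κ) := by
        have : (T : ℤ) - B κ ≤ (((T : ℤ) - B κ).toNat : ℤ) := Int.self_le_toNat _
        have h4 : (r : ℤ) < (((T : ℤ) - B κ).toNat : ℤ) + ((∑ i, (w i - κ) : ℕ) : ℤ) := by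
          rw [hr]; linarith
        exact_mod_cast h4
      have hcoef := (X_pow_dvd_iff.1 (hdiv κ)) r hrv
      rw [VALc.coeff_HP] at hcoef
      refine Eq.trans ?_ hcoef
      rw [Finset.sum_filter]
      refine Finset.sum_congr rfl fun p hp => ?_
      have hpT := hST p hp
      by_cases hDp : D ≤ (p.1 : ℤ)
      · rw [if_pos hDp]
        obtain ⟨t, ht⟩ : ∃ t : ℕ, t = ((p.1 : ℤ) - D).toNat := ⟨_, rfl⟩
        have ht' : (t : ℤ) = p.1 - D := by omega
        rw [← ht]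
        by_cases hκt : κ ≤ t
        · rw [if_pos (by omega)]
          have e1 : r - (T - p.1 + κ) = t - κ := by omega
          rw [e1, mul_assoc, mul_assoc]
          congr 1
          rw [← Nat.cast_mul, ← Nat.cast_mul]
          congr 1
          by_cases htp : t ≤ p.2
          · exact Nat.choose_mul hκt
          · rw [Nat.choose_eq_zero_of_lt (show p.2 < t by omega), zero_mul]
            by_cases hk2 : κ ≤ p.2
            · rw [Nat.choose_eq_zero_of_lt (show p.2 - κ < t - κ by omega), mul_zero]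
            · rw [Nat.choose_eq_zero_of_lt (show p.2 < κ by omega), zero_mul]
        · rw [if_neg (by omega), Nat.choose_eq_zero_of_lt (show t < κ by omega)]
          simp
      · rw [if_neg hDp, if_neg (by omega), mul_zero])
  exact hgp1 (hzero p1 hp1)

end Pool.Agent.N388.EF
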